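import Mathlib

/-!
# Electrical notions on a finite graph (unit conductances)
-/

namespace Pool.Agent.LRO63

variable {W : Type} [Fintype W] [DecidableEq W] (H : SimpleGraph W) [DecidableRel H.Adj]

/-- the Laplacian -/
noncomputable def lap (g : W → ℝ) (w : W) : ℝ := ∑ v, if H.Adj w v then g w - g v else 0

/-- the Dirichlet energy -/
noncomputable def en (g : W → ℝ) : ℝ :=
  (1 / 2) * ∑ w, ∑ v, if H.Adj w v then (g w - g v) ^ 2 else 0

/-- all effective resistances are at most `M` -/
def PM (M : ℝ) : Prop := ∀ (z y : W) (g : W → ℝ), (g z - g y) ^ 2 ≤ M * en H g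

/-- `f` is a unit flow from `z` to `y` along edges inside `S`, of energy at most `R` -/
structure UFlow {V : Type} [Fintype V] [DecidableEq V] (G : SimpleGraph V)
    (S : Finset V) (z y : V) (R : ℝ) (f : V → V → ℝ) : Prop where
  anti : ∀ u v, f v u = - f u v
  supp : ∀ u v, f u v ≠ 0 → G.Adj u v ∧ u ∈ S ∧ v ∈ S
  div : ∀ u, ∑ v, f u v = (if u = z then 1 else 0) - (if u = y then 1 else 0)
  en : (1 / 2) * ∑ u, ∑ v, f u v ^ 2 ≤ R

/-- `A` is connected inside `H` -/
def AConn (A : Finset W) : Prop :=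
  ∀ Z ⊆ A, Z.Nonempty → (∀ a ∈ Z, ∀ b ∈ A, H.Adj a b → b ∈ Z) → Z = A

/-- the flow of the Doob transform -/
noncomputable def dflow (phi q : W → ℝ) (y : W) (u v : W) : ℝ :=
  if H.Adj u v then (phi u * q v - phi v * q u) / q y else 0

end Pool.Agent.LRO63
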