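import Pool.Agent.LRO63.E0

namespace Pool.Agent.LRO63

variable {W : Type} [Fintype W] [DecidableEq W] (H : SimpleGraph W) [DecidableRel H.Adj]

/-- minimum principle -/
theorem minp (hconn : H.Connected) (A : Finset W) (hA : A ≠ Finset.univ) (g : W → ℝ)
    (h0 : ∀ w, w ∉ A → 0 ≤ g w) (h1 : ∀ w ∈ A, 0 ≤ lap H g w) : ∀ w, 0 ≤ g w := by
  by_contra hcon
  push Not at hcon
  obtain ⟨w1, hw1⟩ := hcon
  obtain ⟨w0, -, hmin⟩ := Finset.exists_min_image (Finset.univ : Finset W) g ⟨w1, Finset.mem_univ _⟩
  have hneg : g w0 < 0 := lt_of_le_of_lt (hmin w1 (Finset.mem_univ _)) hw1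
  have hstep : ∀ w v, g w = g w0 → H.Adj w v → g v = g w0 := by
    intro w v hw hadj
    have hwA : w ∈ A := by
      by_contra hn
      have := h0 w hn
      linarith
    have hl := h1 w hwA
    unfold lap at hl
    have hterm : ∀ u ∈ (Finset.univ : Finset W), (if H.Adj w u then g w - g u else 0) ≤ 0 := by
      intro u _
      split_ifs
      · have := hmin u (Finset.mem_univ _)
        linarith
      · exact le_rfl
    have hz : (∑ u, if H.Adj w u then g w - g u else 0) = 0 :=
      le_antisymm (Finset.sum_nonpos hterm) hl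
    have h2 := (Finset.sum_eq_zero_iff_of_nonpos hterm).1 hz v (Finset.mem_univ _)
    rw [if_pos hadj] at h2
    linarith
  have hall : ∀ w, g w = g w0 := by
    intro w
    obtain ⟨p⟩ := hconn.preconnected w0 w
    have key : ∀ {a b : W} (q : H.Walk a b), g a = g w0 → g b = g w0 := by
      intro a b q
      induction q with
      | nil => exact fun h => h
      | cons hadj _ ih => exact fun h => ih (hstep _ _ h hadj)
    exact key p rfl
  apply hA
  rw [Finset.eq_univ_iff_forall]
  intro w
  by_contra hn
  have h3 := h0 w hn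
  rw [hall w] at h3
  linarith

end Pool.Agent.LRO63
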