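import Pool.Agent.LRO63.E1a

namespace Pool.Agent.LRO63

variable {W : Type} [Fintype W] [DecidableEq W] (H : SimpleGraph W) [DecidableRel H.Adj]

/-- extension by zero -/
private noncomputable def E1b_ext (A : Finset W) : ({w // w ∈ A} → ℝ) →ₗ[ℝ] (W → ℝ) where
  toFun c := fun w => if h : w ∈ A then c ⟨w, h⟩ else 0
  map_add' c d := by
    funext w
    by_cases h : w ∈ A
    · simp [h]
    · simp [h]
  map_smul' r c := by
    funext w
    by_cases h : w ∈ A
    · simp [h]
    · simp [h]

private lemma E1b_ext_mem (A : Finset W) (c : {w // w ∈ A} → ℝ) (w : W) (h : w ∈ A) :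
    E1b_ext A c w = c ⟨w, h⟩ := by
  show (if h : w ∈ A then c ⟨w, h⟩ else 0) = _
  rw [dif_pos h]

private lemma E1b_ext_notMem (A : Finset W) (c : {w // w ∈ A} → ℝ) (w : W) (h : w ∉ A) :
    E1b_ext A c w = 0 := by
  show (if h : w ∈ A then c ⟨w, h⟩ else 0) = _
  rw [dif_neg h]

private lemma E1b_lap_add (g h : W → ℝ) (w : W) : lap H (g + h) w = lap H g w + lap H h w := by
  rw [lap, lap, lap, ← Finset.sum_add_distrib]
  refine Finset.sum_congr rfl fun v _ => ?_
  split_ifs
  · simp only [Pi.add_apply]; ring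
  · ring

private lemma E1b_lap_smul (r : ℝ) (g : W → ℝ) (w : W) : lap H (r • g) w = r * lap H g w := by
  rw [lap, lap, Finset.mul_sum]
  refine Finset.sum_congr rfl fun v _ => ?_
  split_ifs
  · simp only [Pi.smul_apply, smul_eq_mul]; ring
  · ring

/-- the Dirichlet problem -/
theorem solve (hconn : H.Connected) (A : Finset W) (hA : A ≠ Finset.univ) (f : W → ℝ) :
    ∃ g : W → ℝ, (∀ w, w ∉ A → g w = 0) ∧ ∀ w ∈ A, lap H g w = f w := by
  let L : ({w // w ∈ A} → ℝ) →ₗ[ℝ] ({w // w ∈ A} → ℝ) :=
    { toFun := fun c a => lap H (E1b_ext A c) a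
      map_add' := fun c d => by
        funext a
        show lap H (E1b_ext A (c + d)) a = lap H (E1b_ext A c) a + lap H (E1b_ext A d) a
        rw [map_add, E1b_lap_add]
      map_smul' := fun r c => by
        funext a
        show lap H (E1b_ext A (r • c)) a = r * lap H (E1b_ext A c) a
        rw [map_smul, E1b_lap_smul] }
  have hL : Function.Injective L := by
    rw [← LinearMap.ker_eq_bot, LinearMap.ker_eq_bot']
    intro c hc
    have h1 : ∀ w ∈ A, lap H (E1b_ext A c) w = 0 := fun w hw => congrFun hc ⟨w, hw⟩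
    have h2 := minp H hconn A hA (E1b_ext A c)
      (fun w hw => (E1b_ext_notMem A c w hw).symm.le) (fun w hw => (h1 w hw).symm.le)
    have h3 := minp H hconn A hA ((-1 : ℝ) • E1b_ext A c)
      (fun w hw => by
        rw [Pi.smul_apply, E1b_ext_notMem A c w hw, smul_zero])
      (fun w hw => by rw [E1b_lap_smul, h1 w hw, mul_zero])
    funext a
    have h4 := h2 a
    have h5 := h3 a
    rw [Pi.smul_apply, smul_eq_mul] at h5
    rw [E1b_ext_mem A c a a.2] at h4 h5
    show c a = 0
    linarith
  have hS : Function.Surjective L := LinearMap.injective_iff_surjective.1 hL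
  obtain ⟨c, hc⟩ := hS (fun a => f a)
  exact ⟨E1b_ext A c, fun w hw => E1b_ext_notMem A c w hw, fun w hw => congrFun hc ⟨w, hw⟩⟩

end Pool.Agent.LRO63
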