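import Pool.Agent.LRO63.E0

namespace Pool.Agent.LRO63

variable {W : Type} [Fintype W] [DecidableEq W] (H : SimpleGraph W) [DecidableRel H.Adj]

theorem lap_sum_symm (g h : W → ℝ) : ∑ w, g w * lap H h w = ∑ w, h w * lap H g w := by
  have e : ∀ a b : W → ℝ, ∑ w, a w * lap H b w =
      (∑ w, ∑ v, if H.Adj w v then a w * b w else 0) -
        ∑ w, ∑ v, if H.Adj w v then a w * b v else 0 := by
    intro a b
    rw [← Finset.sum_sub_distrib]
    refine Finset.sum_congr rfl fun w _ => ?_
    rw [lap, Finset.mul_sum, ← Finset.sum_sub_distrib]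
    refine Finset.sum_congr rfl fun v _ => ?_
    split_ifs
    · ring
    · ring
  rw [e g h, e h g]
  congr 1
  · refine Finset.sum_congr rfl fun w _ => Finset.sum_congr rfl fun v _ => ?_
    rw [mul_comm]
  · rw [Finset.sum_comm]
    refine Finset.sum_congr rfl fun w _ => Finset.sum_congr rfl fun v _ => ?_
    simp only [H.adj_comm v w, mul_comm (g v) (h w)]

theorem lap_sum_self (g : W → ℝ) : ∑ w, g w * lap H g w = en H g := by
  have e1 : ∑ w, g w * lap H g w = ∑ w, ∑ v, if H.Adj w v then g w * (g w - g v) else 0 := by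
    refine Finset.sum_congr rfl fun w _ => ?_
    rw [lap, Finset.mul_sum]
    refine Finset.sum_congr rfl fun v _ => ?_
    split_ifs
    · rfl
    · ring
  have e2 : ∑ w, g w * lap H g w = ∑ w, ∑ v, if H.Adj w v then g v * (g v - g w) else 0 := by
    rw [e1, Finset.sum_comm]
    refine Finset.sum_congr rfl fun w _ => Finset.sum_congr rfl fun v _ => ?_
    simp only [H.adj_comm v w]
  have e3 : (∑ w, g w * lap H g w) + (∑ w, g w * lap H g w) =
      ∑ w, ∑ v, if H.Adj w v then (g w - g v) ^ 2 else 0 := by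
    nth_rewrite 1 [e1]
    rw [e2, ← Finset.sum_add_distrib]
    refine Finset.sum_congr rfl fun w _ => ?_
    rw [← Finset.sum_add_distrib]
    refine Finset.sum_congr rfl fun v _ => ?_
    split_ifs
    · ring
    · ring
  rw [en, ← e3]
  ring

theorem green_le {M : ℝ} (hPM : PM H M) (A : Finset W) (hA : A ≠ Finset.univ) (u : W)
    (hu : u ∈ A) (g : W → ℝ) (h0 : ∀ w, w ∉ A → g w = 0)
    (h1 : ∀ w ∈ A, lap H g w = if w = u then 1 else 0) : 0 ≤ g u ∧ g u ≤ M := by
  have he : en H g = g u := by
    rw [← lap_sum_self, Finset.sum_eq_single u]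
    · rw [h1 u hu, if_pos rfl, mul_one]
    · intro w _ hw
      by_cases hwA : w ∈ A
      · rw [h1 w hwA, if_neg hw, mul_zero]
      · rw [h0 w hwA, zero_mul]
    · intro h
      exact absurd (Finset.mem_univ u) h
  have hnn : 0 ≤ en H g := by
    rw [en]
    refine mul_nonneg (by norm_num) (Finset.sum_nonneg fun w _ => Finset.sum_nonneg fun v _ => ?_)
    split_ifs
    · exact sq_nonneg _
    · exact le_rfl
  rw [he] at hnn
  refine ⟨hnn, ?_⟩
  rcases hnn.eq_or_lt with h | hpos
  · exfalso
    have h2 : ∀ v, g u = g v := by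
      intro v
      have h3 := hPM u v g
      have hM : M * en H g = 0 := by rw [he, ← h, mul_zero]
      rw [hM] at h3
      have h4 : (g u - g v) ^ 2 = 0 := le_antisymm h3 (sq_nonneg _)
      have h5 := pow_eq_zero_iff (two_ne_zero) |>.1 h4
      linarith
    have h3 : lap H g u = 0 := by
      rw [lap]
      refine Finset.sum_eq_zero fun v _ => ?_
      rw [← h2 v, sub_self, ite_self]
    rw [h1 u hu, if_pos rfl] at h3
    exact one_ne_zero h3
  · obtain ⟨d, hd⟩ : ∃ d, d ∉ A := by
      by_contra hcon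
      push Not at hcon
      exact hA (Finset.eq_univ_iff_forall.2 hcon)
    have h2 := hPM u d g
    rw [h0 d hd, sub_zero, he] at h2
    have h3 : g u * g u ≤ M * g u := by nlinarith [h2]
    exact le_of_mul_le_mul_right h3 hpos

end Pool.Agent.LRO63
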