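import Pool.Agent.LRO63.E1b

namespace Pool.Agent.LRO63

variable {W : Type} [Fintype W] [DecidableEq W] (H : SimpleGraph W) [DecidableRel H.Adj]

private theorem E4_lap_add (f g : W → ℝ) (w : W) :
    lap H (fun v => f v + g v) w = lap H f w + lap H g w := by
  unfold lap
  rw [← Finset.sum_add_distrib]
  refine Finset.sum_congr rfl (fun v _ => ?_)
  by_cases h : H.Adj w v
  · simp only [h, if_true]; ring
  · simp only [h, if_false]; ring

private theorem E4_lap_const_sub (c : ℝ) (f : W → ℝ) (w : W) :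
    lap H (fun v => c - f v) w = - lap H f w := by
  unfold lap
  rw [← Finset.sum_neg_distrib]
  refine Finset.sum_congr rfl (fun v _ => ?_)
  by_cases h : H.Adj w v
  · simp only [h, if_true]; ring
  · simp only [h, if_false]; ring

private theorem E4_lap_sum_sub {ι : Type} (s : Finset ι) (f : ι → W → ℝ) (c : ℝ) (w : W) :
    lap H (fun v => (∑ i ∈ s, f i v) - c) w = ∑ i ∈ s, lap H (f i) w := by
  unfold lap
  rw [Finset.sum_comm]
  refine Finset.sum_congr rfl (fun v _ => ?_)
  by_cases h : H.Adj w v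
  · simp only [h, if_true, Finset.sum_sub_distrib]; ring
  · simp only [h, if_false]
    simp

/-- a boundary point with harmonic measure at least `1 / card W` -/
theorem exists_q (hconn : H.Connected) (A : Finset W) (hA : A ≠ Finset.univ) (y : W)
    (hy : y ∈ A) :
    ∃ x, x ∉ A ∧ ∃ q : W → ℝ, (∀ w, 0 ≤ q w ∧ q w ≤ 1) ∧ q x = 1 ∧
      (∀ w, w ∉ A → w ≠ x → q w = 0) ∧ (∀ w ∈ A, lap H q w = 0) ∧
      1 / (Fintype.card W : ℝ) ≤ q y := by
  classical
  have hex : ∀ x : W, ∃ q : W → ℝ, x ∉ A → ((∀ w, 0 ≤ q w ∧ q w ≤ 1) ∧ q x = 1 ∧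
      (∀ w, w ∉ A → w ≠ x → q w = 0) ∧ (∀ w ∈ A, lap H q w = 0)) := by
    intro x
    by_cases hx : x ∈ A
    · exact ⟨0, fun h => absurd hx h⟩
    obtain ⟨g, hg0, hg1⟩ := solve H hconn A hA
      (fun w => - lap H (fun v => if v = x then (1 : ℝ) else 0) w)
    refine ⟨fun v => (if v = x then (1 : ℝ) else 0) + g v, fun _ => ?_⟩
    have hlap : ∀ w ∈ A, lap H (fun v => (if v = x then (1 : ℝ) else 0) + g v) w = 0 := by
      intro w hw
      rw [E4_lap_add H (fun v => if v = x then (1 : ℝ) else 0) g w, hg1 w hw]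
      ring
    have hoff : ∀ w, w ∉ A → w ≠ x → (if w = x then (1 : ℝ) else 0) + g w = 0 := by
      intro w hw hwx
      rw [if_neg hwx, hg0 w hw, add_zero]
    have hat : (if x = x then (1 : ℝ) else 0) + g x = 1 := by
      rw [if_pos rfl, hg0 x hx, add_zero]
    have hpos : ∀ w, 0 ≤ (fun v => (if v = x then (1 : ℝ) else 0) + g v) w := by
      refine minp H hconn A hA _ (fun w hw => ?_) (fun w hw => (hlap w hw).ge)
      by_cases hwx : w = x
      · subst hwx
        show 0 ≤ (if w = w then (1 : ℝ) else 0) + g w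
        rw [hat]; norm_num
      · show 0 ≤ (if w = x then (1 : ℝ) else 0) + g w
        rw [hoff w hw hwx]
    have hle : ∀ w, 0 ≤ (fun v => 1 - ((if v = x then (1 : ℝ) else 0) + g v)) w := by
      refine minp H hconn A hA _ (fun w hw => ?_) (fun w hw => ?_)
      · by_cases hwx : w = x
        · subst hwx
          show 0 ≤ 1 - ((if w = w then (1 : ℝ) else 0) + g w)
          rw [hat]; norm_num
        · show 0 ≤ 1 - ((if w = x then (1 : ℝ) else 0) + g w)
          rw [hoff w hw hwx]; norm_num
      · rw [E4_lap_const_sub, hlap w hw, neg_zero]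
    refine ⟨fun w => ⟨hpos w, ?_⟩, hat, hoff, hlap⟩
    have := hle w
    simp only at this
    linarith
  choose q hq using hex
  have hsum : 1 ≤ ∑ x ∈ Finset.univ.filter (fun x => x ∉ A), q x y := by
    have h1 : ∀ w, 0 ≤ (fun v => (∑ x ∈ Finset.univ.filter (fun x => x ∉ A), q x v) - 1) w := by
      refine minp H hconn A hA _ (fun w hw => ?_) (fun w hw => ?_)
      · show 0 ≤ (∑ x ∈ Finset.univ.filter (fun x => x ∉ A), q x w) - 1
        rw [Finset.sum_eq_single w]
        · rw [(hq w hw).2.1]; norm_num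
        · intro x hx hxw
          exact (hq x (Finset.mem_filter.1 hx).2).2.2.1 w hw (fun h => hxw h.symm)
        · intro h
          exact absurd (Finset.mem_filter.2 ⟨Finset.mem_univ w, hw⟩) h
      · rw [E4_lap_sum_sub]
        rw [Finset.sum_eq_zero]
        intro x hx
        exact (hq x (Finset.mem_filter.1 hx).2).2.2.2 w hw
    have := h1 y
    simp only at this
    linarith
  by_contra hcon
  push Not at hcon
  have hlt : ∀ x ∈ Finset.univ.filter (fun x => x ∉ A), q x y < 1 / (Fintype.card W : ℝ) := by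
    intro x hx
    have hxA := (Finset.mem_filter.1 hx).2
    obtain ⟨h1, h2, h3, h4⟩ := hq x hxA
    exact hcon x hxA (q x) h1 h2 h3 h4
  have hne : (Finset.univ.filter (fun x => x ∉ A)).Nonempty := by
    by_contra h
    rw [Finset.not_nonempty_iff_eq_empty, Finset.filter_eq_empty_iff] at h
    apply hA
    rw [Finset.eq_univ_iff_forall]
    intro w
    have := h (Finset.mem_univ w)
    push Not at this
    exact this
  have h2 := Finset.sum_lt_sum_of_nonempty hne hlt
  rw [Finset.sum_const, nsmul_eq_mul] at h2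
  have hcW : 0 < (Fintype.card W : ℝ) := by
    have : 0 < Fintype.card W := Fintype.card_pos_iff.2 ⟨y⟩
    exact_mod_cast this
  have h3 : ((Finset.univ.filter (fun x => x ∉ A)).card : ℝ) ≤ Fintype.card W := by
    exact_mod_cast Finset.card_le_univ _
  have h4 : ((Finset.univ.filter (fun x => x ∉ A)).card : ℝ) * (1 / (Fintype.card W : ℝ)) ≤ 1 := by
    rw [mul_one_div, div_le_one hcW]; exact h3
  linarith

theorem q_pos (A : Finset W) (hAc : AConn H A) (y : W) (hy : y ∈ A) (q : W → ℝ)
    (hq : ∀ w, 0 ≤ q w) (hl : ∀ w ∈ A, lap H q w = 0) (hqy : 0 < q y) :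
    ∀ w ∈ A, 0 < q w := by
  classical
  by_contra hcon
  push Not at hcon
  obtain ⟨w, hw, hqw⟩ := hcon
  have hqw0 : q w = 0 := le_antisymm hqw (hq w)
  have hZ : A.filter (fun a => q a = 0) = A := by
    refine hAc _ (Finset.filter_subset _ _) ⟨w, Finset.mem_filter.2 ⟨hw, hqw0⟩⟩ ?_
    intro a ha b hb hab
    obtain ⟨haA, hqa⟩ := Finset.mem_filter.1 ha
    refine Finset.mem_filter.2 ⟨hb, ?_⟩
    have h1 := hl a haA
    unfold lap at h1
    have h2 : ∑ v, (if H.Adj a v then q v else 0) = 0 := by
      have h3 : ∑ v, (if H.Adj a v then q a - q v else 0) =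
          - ∑ v, (if H.Adj a v then q v else 0) := by
        rw [← Finset.sum_neg_distrib]
        refine Finset.sum_congr rfl (fun v _ => ?_)
        by_cases h : H.Adj a v
        · simp only [h, if_true]; rw [hqa]; ring
        · simp only [h, if_false]; ring
      rw [h3] at h1
      linarith
    rw [Finset.sum_eq_zero_iff_of_nonneg] at h2
    · have h4 := h2 b (Finset.mem_univ b)
      rwa [if_pos hab] at h4
    · intro v _
      split_ifs
      · exact hq v
      · exact le_refl _
  have h5 : y ∈ A.filter (fun a => q a = 0) := by rw [hZ]; exact hy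
  have h6 := (Finset.mem_filter.1 h5).2
  linarith

end Pool.Agent.LRO63
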