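import Pool.Agent.LRO63.E1b
import Pool.Agent.LRO63.E3

namespace Pool.Agent.LRO63

variable {W : Type} [Fintype W] [DecidableEq W] (H : SimpleGraph W) [DecidableRel H.Adj]

private theorem E5_lap_lin (a b : ℝ) (f g : W → ℝ) (w : W) :
    lap H (fun v => a * f v - b * g v) w = a * lap H f w - b * lap H g w := by
  unfold lap
  rw [Finset.mul_sum, Finset.mul_sum, ← Finset.sum_sub_distrib]
  refine Finset.sum_congr rfl (fun v _ => ?_)
  by_cases h : H.Adj w v
  · simp only [h, if_true]; ring
  · simp only [h, if_false]; ring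

/-- `φ_u q_u ≤ M q_y` -/
theorem point (hconn : H.Connected) {M : ℝ} (hPM : PM H M) (A : Finset W)
    (hA : A ≠ Finset.univ) (y : W) (hy : y ∈ A) (phi q : W → ℝ)
    (hp0 : ∀ w, w ∉ A → phi w = 0) (hp1 : ∀ w ∈ A, lap H phi w = if w = y then 1 else 0)
    (hq : ∀ w, 0 ≤ q w) (hl : ∀ w ∈ A, lap H q w = 0) :
    (∀ w, 0 ≤ phi w) ∧ phi y ≤ M ∧ ∀ u ∈ A, phi u * q u ≤ M * q y := by
  have hphi : ∀ w, 0 ≤ phi w := by
    refine minp H hconn A hA phi (fun w hw => by rw [hp0 w hw]) (fun w hw => ?_)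
    rw [hp1 w hw]; split_ifs <;> norm_num
  refine ⟨hphi, (green_le H hPM A hA y hy phi hp0 hp1).2, ?_⟩
  intro u hu
  obtain ⟨γ, hg0, hg1⟩ := solve H hconn A hA (fun w => if w = u then (1 : ℝ) else 0)
  have hgM := green_le H hPM A hA u hu γ hg0 hg1
  have hAe : A.erase u ≠ Finset.univ := by
    intro h
    apply hA
    rw [Finset.eq_univ_iff_forall] at h ⊢
    intro w
    exact Finset.mem_of_mem_erase (h w)
  have hF : ∀ w, 0 ≤ (fun v => γ u * q v - q u * γ v) w := by
    refine minp H hconn (A.erase u) hAe _ (fun w hw => ?_) (fun w hw => ?_)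
    · by_cases hwu : w = u
      · subst hwu
        show 0 ≤ γ w * q w - q w * γ w
        rw [mul_comm (q w)]; simp
      · have hwA : w ∉ A := fun h => hw (Finset.mem_erase.2 ⟨hwu, h⟩)
        show 0 ≤ γ u * q w - q u * γ w
        rw [hg0 w hwA, mul_zero, sub_zero]
        exact mul_nonneg hgM.1 (hq w)
    · have hwA := Finset.mem_of_mem_erase hw
      have hwu := Finset.ne_of_mem_erase hw
      rw [E5_lap_lin, hl w hwA, hg1 w hwA, if_neg hwu]
      simp
  have hFy := hF y
  have hsym : γ y = phi u := by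
    have h1 := lap_sum_symm H phi γ
    have h2 : ∑ w, phi w * lap H γ w = phi u := by
      rw [Finset.sum_eq_single u]
      · rw [hg1 u hu, if_pos rfl, mul_one]
      · intro w _ hwu
        by_cases hwA : w ∈ A
        · rw [hg1 w hwA, if_neg hwu, mul_zero]
        · rw [hp0 w hwA, zero_mul]
      · intro h; exact absurd (Finset.mem_univ u) h
    have h3 : ∑ w, γ w * lap H phi w = γ y := by
      rw [Finset.sum_eq_single y]
      · rw [hp1 y hy, if_pos rfl, mul_one]
      · intro w _ hwu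
        by_cases hwA : w ∈ A
        · rw [hp1 w hwA, if_neg hwu, mul_zero]
        · rw [hg0 w hwA, zero_mul]
      · intro h; exact absurd (Finset.mem_univ y) h
    rw [← h2, ← h3, h1]
  simp only at hFy
  rw [hsym] at hFy
  have h4 : γ u * q y ≤ M * q y := mul_le_mul_of_nonneg_right hgM.2 (hq y)
  nlinarith

end Pool.Agent.LRO63
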