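import Pool.Agent.LRO63.E0

namespace Pool.Agent.LRO63

variable {W : Type} [Fintype W] [DecidableEq W] (H : SimpleGraph W) [DecidableRel H.Adj]

theorem dflow_anti (phi q : W → ℝ) (y u v : W) : dflow H phi q y v u = - dflow H phi q y u v := by
  unfold dflow
  by_cases h : H.Adj u v
  · rw [if_pos h, if_pos h.symm]
    ring
  · have h' : ¬ H.Adj v u := fun h' => h h'.symm
    rw [if_neg h, if_neg h']
    simp

private theorem E6_sum (phi q : W → ℝ) (y u : W) :
    ∑ v, dflow H phi q y u v = (q u * lap H phi u - phi u * lap H q u) / q y := by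
  unfold lap
  rw [Finset.mul_sum, Finset.mul_sum, ← Finset.sum_sub_distrib, Finset.sum_div]
  refine Finset.sum_congr rfl fun v _ => ?_
  unfold dflow
  by_cases h : H.Adj u v
  · rw [if_pos h, if_pos h, if_pos h]
    ring
  · rw [if_neg h, if_neg h, if_neg h]
    simp

private theorem E6_total (f : W → W → ℝ) (anti : ∀ u v, f v u = - f u v) :
    ∑ u, ∑ v, f u v = 0 := by
  have h1 : ∑ u, ∑ v, f u v = ∑ u, ∑ v, f v u := Finset.sum_comm
  have h2 : ∑ u, ∑ v, f v u = - ∑ u, ∑ v, f u v := by
    rw [← Finset.sum_neg_distrib]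
    refine Finset.sum_congr rfl fun u _ => ?_
    rw [← Finset.sum_neg_distrib]
    exact Finset.sum_congr rfl fun v _ => anti u v
  linarith

/-- the flow of the Doob transform is a unit flow from `y` to `x` -/
theorem dflow_div (A : Finset W) (y x : W) (hy : y ∈ A) (hx : x ∉ A) (phi q : W → ℝ)
    (hp0 : ∀ w, w ∉ A → phi w = 0) (hp1 : ∀ w ∈ A, lap H phi w = if w = y then 1 else 0)
    (hq0 : ∀ w, w ∉ A → w ≠ x → q w = 0) (hl : ∀ w ∈ A, lap H q w = 0) (hqy : 0 < q y)
    (u : W) :
    ∑ v, dflow H phi q y u v = (if u = y then 1 else 0) - (if u = x then 1 else 0) := by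
  have hyx : y ≠ x := fun h => hx (h ▸ hy)
  -- all the vertices except `x`
  have key : ∀ w, w ≠ x → ∑ v, dflow H phi q y w v = (if w = y then 1 else 0) := by
    intro w hw
    rw [E6_sum]
    by_cases hA : w ∈ A
    · rw [hp1 w hA, hl w hA]
      by_cases hwy : w = y
      · subst hwy
        rw [if_pos rfl]
        field_simp
        ring
      · rw [if_neg hwy]
        simp
    · rw [hp0 w hA, hq0 w hA hw]
      have hwy : w ≠ y := fun h => hA (h ▸ hy)
      rw [if_neg hwy]
      simp
  by_cases hu : u = x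
  · subst hu
    have htot := E6_total (dflow H phi q y) (fun a b => dflow_anti H phi q y a b)
    rw [← Finset.add_sum_erase Finset.univ _ (Finset.mem_univ u)] at htot
    have hrest : ∑ w ∈ Finset.univ.erase u, ∑ v, dflow H phi q y w v = 1 := by
      rw [Finset.sum_congr rfl (fun w hw => key w (Finset.ne_of_mem_erase hw))]
      rw [Finset.sum_ite_eq' (Finset.univ.erase u) y (fun _ => (1 : ℝ))]
      rw [if_pos (Finset.mem_erase.mpr ⟨hyx, Finset.mem_univ y⟩)]
    rw [hrest] at htot
    rw [if_neg (fun h => hyx h.symm), if_pos rfl]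
    linarith
  · rw [key u hu, if_neg hu]
    simp

/-- telescoping -/
theorem flow_telescope (f : W → W → ℝ) (y x : W) (anti : ∀ u v, f v u = - f u v)
    (div : ∀ u, ∑ v, f u v = (if u = y then 1 else 0) - (if u = x then 1 else 0))
    (g : W → ℝ) : (1 / 2) * ∑ u, ∑ v, f u v * (g u - g v) = g y - g x := by
  have hA : ∑ u, ∑ v, f u v * g u = g y - g x := by
    have h1 : ∀ u, ∑ v, f u v * g u
        = (if u = y then g u else 0) - (if u = x then g u else 0) := by
      intro u
      rw [← Finset.sum_mul, div u, sub_mul, ite_mul, ite_mul]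
      simp
    rw [Finset.sum_congr rfl (fun u _ => h1 u), Finset.sum_sub_distrib,
      Finset.sum_ite_eq' Finset.univ y g, Finset.sum_ite_eq' Finset.univ x g]
    simp
  have hB : ∑ u, ∑ v, f u v * g v = -(g y - g x) := by
    rw [Finset.sum_comm, ← hA, ← Finset.sum_neg_distrib]
    refine Finset.sum_congr rfl fun v _ => ?_
    rw [← Finset.sum_neg_distrib]
    refine Finset.sum_congr rfl fun u _ => ?_
    rw [anti v u]
    ring
  have hC : ∑ u, ∑ v, f u v * (g u - g v) = (∑ u, ∑ v, f u v * g u) - ∑ u, ∑ v, f u v * g v := by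
    rw [← Finset.sum_sub_distrib]
    refine Finset.sum_congr rfl fun u _ => ?_
    rw [← Finset.sum_sub_distrib]
    refine Finset.sum_congr rfl fun v _ => ?_
    ring
  rw [hC, hA, hB]
  ring

end Pool.Agent.LRO63
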