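import Mathlib

namespace Pool.Agent.LRO63

private noncomputable def E7aPsi (M a t : ℝ) : ℝ :=
  if t < a then t * M / a else M + 1 + (2 * M + 1) * Real.log (t / a)

private lemma E7a_lt {M a t : ℝ} (h : t < a) : E7aPsi M a t = t * M / a := by
  unfold E7aPsi; rw [if_pos h]

private lemma E7a_ge {M a t : ℝ} (h : a ≤ t) :
    E7aPsi M a t = M + 1 + (2 * M + 1) * Real.log (t / a) := by
  unfold E7aPsi; rw [if_neg (not_lt.mpr h)]

private lemma E7a_log_nonneg {a t : ℝ} (ha : 0 < a) (h : a ≤ t) : 0 ≤ Real.log (t / a) :=
  Real.log_nonneg ((one_le_div ha).mpr h)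

private lemma E7a_log_mono {a s t : ℝ} (ha : 0 < a) (hs : a ≤ s) (h : s ≤ t) :
    Real.log (t / a) - Real.log (s / a) = Real.log (t / s) := by
  have hs0 : 0 < s := lt_of_lt_of_le ha hs
  have ht0 : 0 < t := lt_of_lt_of_le hs0 h
  rw [Real.log_div ht0.ne' ha.ne', Real.log_div hs0.ne' ha.ne', Real.log_div ht0.ne' hs0.ne']
  ring

private lemma E7a_le_M {M a t : ℝ} (hM : 0 ≤ M) (ha : 0 < a) (h : t < a) : t * M / a ≤ M := by
  rw [div_le_iff₀ ha]
  nlinarith

private lemma E7a_r {r : ℝ} (h1 : 1 ≤ r) (h2 : r ≤ 2) : r - 1 / r ≤ 3 * Real.log r := by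
  have hr : 0 < r := by linarith
  have h := Real.one_sub_inv_le_log_of_pos hr
  have h3 : r - 1 / r = (1 - r⁻¹) * (r + 1) := by
    field_simp
    ring
  have h4 : 0 ≤ 1 - r⁻¹ := by
    have : r⁻¹ ≤ 1 := inv_le_one_of_one_le₀ h1
    linarith
  rw [h3]
  nlinarith

/-- scalar inequality: the function `Ψ` -/
theorem psi_exists (M a : ℝ) (hM : 0 ≤ M) (ha : 0 < a) (n : ℝ) (hn : 1 ≤ n) :
    ∃ Psi : ℝ → ℝ, Monotone Psi ∧ Psi 0 = 0 ∧
      (∀ t, 0 ≤ t → t ≤ a * n ^ 2 → Psi t ≤ (2 * M + 1) * (1 + 2 * Real.log n)) ∧
      (∀ s t qs qt qy : ℝ, 0 < qy → a = M * qy → 0 ≤ s → s ≤ t → 0 ≤ qs → qs ≤ 1 → 0 ≤ qt →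
        qt ≤ 1 → qs ^ 2 * s ≤ a → qt ^ 2 * t ≤ a → qt * qs * (t - s) / qy ≤ 1 →
        (qt * qs * (t - s) / qy) ^ 2 ≤ (qt * qs * (t - s) / qy) * (Psi t - Psi s)) := by
  have hlogn : 0 ≤ Real.log n := Real.log_nonneg hn
  refine ⟨E7aPsi M a, ?_, ?_, ?_, ?_⟩
  · intro s t hst
    rcases lt_or_ge t a with h | h
    · rw [E7a_lt (lt_of_le_of_lt hst h), E7a_lt h]
      have := mul_le_mul_of_nonneg_right hst hM
      exact div_le_div_of_nonneg_right this ha.le
    · rcases lt_or_ge s a with h' | h'
      · rw [E7a_lt h', E7a_ge h]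
        have h1 := E7a_le_M hM ha h'
        have h2 := E7a_log_nonneg ha h
        nlinarith
      · rw [E7a_ge h', E7a_ge h]
        have h1 := E7a_log_mono ha h' hst
        have h2 : 0 ≤ Real.log (t / s) :=
          Real.log_nonneg ((one_le_div (lt_of_lt_of_le ha h')).mpr hst)
        nlinarith
  · rw [E7a_lt ha]
    simp
  · intro t ht0 ht
    rcases lt_or_ge t a with h | h
    · rw [E7a_lt h]
      have h1 := E7a_le_M hM ha h
      nlinarith [mul_nonneg hM hlogn]
    · rw [E7a_ge h]
      have h0 : 0 < t := lt_of_lt_of_le ha h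
      have h1 : Real.log (t / a) ≤ 2 * Real.log n := by
        have h2 : t / a ≤ n ^ 2 := by
          rw [div_le_iff₀ ha]
          linarith
        calc Real.log (t / a) ≤ Real.log (n ^ 2) := Real.log_le_log (div_pos h0 ha) h2
          _ = 2 * Real.log n := by rw [Real.log_pow]; norm_num
      nlinarith [mul_le_mul_of_nonneg_left h1 (by linarith : (0 : ℝ) ≤ 2 * M + 1)]
  · intro s t qs qt qy hqy haM hs hst hqs0 hqs1 hqt0 hqt1 h1 h2 hf1
    set f := qt * qs * (t - s) / qy with hf
    have hf0 : 0 ≤ f := by
      rw [hf]
      exact div_nonneg (mul_nonneg (mul_nonneg hqt0 hqs0) (by linarith)) hqy.le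
    have key : f ≤ E7aPsi M a t - E7aPsi M a s := by
      rcases lt_or_ge t a with h | h
      · rw [E7a_lt h, E7a_lt (lt_of_le_of_lt hst h)]
        have hM0 : M ≠ 0 := by
          intro h0
          rw [h0] at haM
          linarith
        have h3 : t * M / a - s * M / a = (t - s) / qy := by
          rw [haM]
          field_simp
        rw [h3, hf]
        apply div_le_div_of_nonneg_right _ hqy.le
        have h4 : qt * qs ≤ 1 := by nlinarith
        have h5 : 0 ≤ t - s := by linarith
        nlinarith
      · rcases lt_or_ge s a with h' | h'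
        · rw [E7a_ge h, E7a_lt h']
          have h3 := E7a_le_M hM ha h'
          have h4 := E7a_log_nonneg ha h
          nlinarith [mul_nonneg (by linarith : (0 : ℝ) ≤ 2 * M + 1) h4]
        · rw [E7a_ge h, E7a_ge h']
          have hs0 : 0 < s := lt_of_lt_of_le ha h'
          have ht0 : 0 < t := lt_of_lt_of_le hs0 hst
          have h3 := E7a_log_mono ha h' hst
          have hD : M + 1 + (2 * M + 1) * Real.log (t / a)
              - (M + 1 + (2 * M + 1) * Real.log (s / a)) = (2 * M + 1) * Real.log (t / s) := by
            rw [← h3]; ring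
          rw [hD]
          have hts : 1 ≤ t / s := (one_le_div hs0).mpr hst
          have hlts : 0 ≤ Real.log (t / s) := Real.log_nonneg hts
          rcases le_or_gt 4 (t / s) with h4 | h4
          · have h5 : 1 ≤ Real.log (t / s) := by
              have h6 : Real.log 4 ≤ Real.log (t / s) := Real.log_le_log (by norm_num) h4
              have h7 : Real.log 4 = 2 * Real.log 2 := by
                rw [show (4 : ℝ) = 2 ^ 2 by norm_num, Real.log_pow]
                norm_num
              have h8 := Real.log_two_gt_d9
              linarith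
            nlinarith
          · set r := Real.sqrt (t / s) with hr
            have hr1 : 1 ≤ r := by
              rw [hr]
              exact Real.one_le_sqrt.mpr hts
            have hr2 : r ≤ 2 := by
              rw [hr]
              have : Real.sqrt (t / s) ≤ Real.sqrt 4 := Real.sqrt_le_sqrt h4.le
              have h5 : Real.sqrt 4 = 2 := by
                rw [show (4 : ℝ) = 2 ^ 2 by norm_num, Real.sqrt_sq (by norm_num)]
              linarith
            have hr0 : 0 < r := by linarith
            have hrsq : r ^ 2 = t / s := by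
              rw [hr]
              exact Real.sq_sqrt (by linarith)
            have hlr : Real.log (t / s) = 2 * Real.log r := by
              rw [← hrsq, Real.log_pow]
              norm_num
            have htr : t = s * r ^ 2 := by
              rw [hrsq]
              field_simp
            have h6 := E7a_r hr1 hr2
            have hlr0 : 0 ≤ Real.log r := Real.log_nonneg hr1
            -- `qt * qs ≤ a / (s * r)`
            have h7 : qt * qs * (s * r) ≤ a := by
              have h8 : (qt * qs * (s * r)) ^ 2 ≤ a ^ 2 := by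
                have h9 : (qt * qs * (s * r)) ^ 2 = (qt ^ 2 * t) * (qs ^ 2 * s) := by
                  rw [htr]; ring
                rw [h9, sq a]
                exact mul_le_mul h2 h1 (mul_nonneg (sq_nonneg _) hs) ha.le
              exact le_of_sq_le_sq h8 ha.le
            have h10 : f ≤ M * (r - 1 / r) := by
              rw [hf, div_le_iff₀ hqy]
              have h11 : M * (r - 1 / r) * qy = a * (r - 1 / r) := by
                rw [haM]; ring
              rw [h11]
              have h12 : t - s = s * r * (r - 1 / r) := by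
                rw [htr]
                field_simp
              rw [h12]
              have h13 : 0 ≤ r - 1 / r := by
                have : 1 / r ≤ 1 := by
                  rw [div_le_one hr0]
                  exact hr1
                linarith
              calc qt * qs * (s * r * (r - 1 / r)) = (qt * qs * (s * r)) * (r - 1 / r) := by ring
                _ ≤ a * (r - 1 / r) := mul_le_mul_of_nonneg_right h7 h13
            rw [hlr]
            calc f ≤ M * (r - 1 / r) := h10
              _ ≤ M * (3 * Real.log r) := mul_le_mul_of_nonneg_left h6 hM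
              _ ≤ (2 * M + 1) * (2 * Real.log r) := by nlinarith [mul_nonneg hM hlr0]
    calc f ^ 2 = f * f := by ring
      _ ≤ f * (E7aPsi M a t - E7aPsi M a s) := mul_le_mul_of_nonneg_left key hf0

end Pool.Agent.LRO63
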