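import Pool.Agent.LRO63.E6
import Pool.Agent.LRO63.E7a

namespace Pool.Agent.LRO63

variable {W : Type} [Fintype W] [DecidableEq W] (H : SimpleGraph W) [DecidableRel H.Adj]

omit [Fintype W] [DecidableEq W] in
private theorem e7b_form (phi q V : W → ℝ) (hV : ∀ w, phi w = V w * q w) (y u v : W) :
    dflow H phi q y u v = if H.Adj u v then q u * q v * (V u - V v) / q y else 0 := by
  unfold dflow
  split_ifs with h
  · rw [hV u, hV v]
    ring
  · rfl

private theorem e7b_sign (phi q V : W → ℝ) (hV : ∀ w, phi w = V w * q w) (hq : ∀ w, 0 ≤ q w)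
    (y u v : W) (huv : V v ≤ V u) : 0 ≤ dflow H phi q y u v := by
  rw [e7b_form H phi q V hV]
  split_ifs with h
  · exact div_nonneg (mul_nonneg (mul_nonneg (hq u) (hq v)) (sub_nonneg.2 huv)) (hq y)
  · exact le_rfl

private theorem e7b_le_one (phi q V : W → ℝ) (hV : ∀ w, phi w = V w * q w) (hq : ∀ w, 0 ≤ q w)
    (y x : W)
    (div : ∀ u, ∑ v, dflow H phi q y u v = (if u = y then 1 else 0) - (if u = x then 1 else 0))
    (u v : W) (huv : V v < V u) : dflow H phi q y u v ≤ 1 := by
  classical
  set f := dflow H phi q y with hf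
  have anti : ∀ a b, f b a = - f a b := dflow_anti H phi q y
  set g : W → ℝ := fun w => if V u ≤ V w then 1 else 0 with hg
  have hg01 : ∀ w, 0 ≤ g w ∧ g w ≤ 1 := by
    intro w
    show (0 : ℝ) ≤ (if V u ≤ V w then 1 else 0) ∧ (if V u ≤ V w then (1 : ℝ) else 0) ≤ 1
    split_ifs <;> norm_num
  have htel := flow_telescope f y x anti div g
  have hnn : ∀ a b, 0 ≤ f a b * (g a - g b) := by
    intro a b
    show 0 ≤ f a b * ((if V u ≤ V a then 1 else 0) - (if V u ≤ V b then 1 else 0))
    by_cases ha : V u ≤ V a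
    · by_cases hb : V u ≤ V b
      · rw [if_pos ha, if_pos hb]
        simp
      · rw [if_pos ha, if_neg hb]
        push Not at hb
        have := e7b_sign H phi q V hV hq y a b (hb.le.trans ha)
        simpa using this
    · by_cases hb : V u ≤ V b
      · rw [if_neg ha, if_pos hb]
        push Not at ha
        have := e7b_sign H phi q V hV hq y b a (ha.le.trans hb)
        have h2 := anti b a
        have h3 : f a b ≤ 0 := by
          rw [h2]
          have : 0 ≤ f b a := this
          linarith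
        nlinarith
      · rw [if_neg ha, if_neg hb]
        simp
  have hne : u ≠ v := by
    rintro rfl
    exact lt_irrefl _ huv
  have hgu : g u = 1 := by
    show (if V u ≤ V u then (1 : ℝ) else 0) = 1
    rw [if_pos le_rfl]
  have hgv : g v = 0 := by
    show (if V u ≤ V v then (1 : ℝ) else 0) = 0
    rw [if_neg (not_le.2 huv)]
  have h1 : ∀ a, 0 ≤ ∑ b, f a b * (g a - g b) := fun a => Finset.sum_nonneg fun b _ => hnn a b
  have h2 : (∑ b, f u b * (g u - g b)) + (∑ b, f v b * (g v - g b)) ≤
      ∑ a, ∑ b, f a b * (g a - g b) := by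
    rw [← Finset.sum_pair hne (f := fun a => ∑ b, f a b * (g a - g b))]
    exact Finset.sum_le_sum_of_subset_of_nonneg (Finset.subset_univ _) fun a _ _ => h1 a
  have h3 : f u v * (g u - g v) ≤ ∑ b, f u b * (g u - g b) :=
    Finset.single_le_sum (f := fun b => f u b * (g u - g b)) (fun b _ => hnn u b)
      (Finset.mem_univ v)
  have h4 : f v u * (g v - g u) ≤ ∑ b, f v b * (g v - g b) :=
    Finset.single_le_sum (f := fun b => f v b * (g v - g b)) (fun b _ => hnn v b)
      (Finset.mem_univ u)
  rw [hgu, hgv] at h2 h3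
  rw [hgu, hgv, anti u v] at h4
  have h5 := (hg01 y).2
  have h6 := (hg01 x).1
  linarith

/-- the energy of the flow of the Doob transform -/
theorem dflow_energy {M : ℝ} (hM : 0 < M) (A : Finset W) (y x : W) (hy : y ∈ A) (hx : x ∉ A)
    (phi q : W → ℝ) (hp : ∀ w, 0 ≤ phi w) (hp0 : ∀ w, w ∉ A → phi w = 0) (hpy : phi y ≤ M)
    (hq : ∀ w, 0 ≤ q w ∧ q w ≤ 1) (hqx : q x = 1) (hq0 : ∀ w, w ∉ A → w ≠ x → q w = 0)
    (hqp : ∀ w ∈ A, 0 < q w) (hpt : ∀ u ∈ A, phi u * q u ≤ M * q y)
    (n : ℝ) (hn : 1 ≤ n) (hqy : 1 / n ≤ q y)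
    (div : ∀ u, ∑ v, dflow H phi q y u v = (if u = y then 1 else 0) - (if u = x then 1 else 0)) :
    (1 / 2) * ∑ u, ∑ v, dflow H phi q y u v ^ 2 ≤ (2 * M + 1) * (1 + 2 * Real.log n) := by
  classical
  have hqy0 : 0 < q y := hqp y hy
  set V : W → ℝ := fun w => if w ∈ A then phi w / q w else 0 with hVd
  have hV : ∀ w, phi w = V w * q w := by
    intro w
    by_cases hw : w ∈ A
    · show phi w = (if w ∈ A then phi w / q w else 0) * q w
      rw [if_pos hw, div_mul_cancel₀ _ (hqp w hw).ne']
    · show phi w = (if w ∈ A then phi w / q w else 0) * q w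
      rw [if_neg hw, zero_mul, hp0 w hw]
  have hV0 : ∀ w, 0 ≤ V w := by
    intro w
    show 0 ≤ (if w ∈ A then phi w / q w else 0)
    split_ifs with h
    · exact div_nonneg (hp w) (hq w).1
    · exact le_rfl
  have ha : 0 < M * q y := mul_pos hM hqy0
  have hVa : ∀ w, q w ^ 2 * V w ≤ M * q y := by
    intro w
    have e : q w ^ 2 * V w = phi w * q w := by
      rw [hV w]
      ring
    rw [e]
    by_cases hw : w ∈ A
    · exact hpt w hw
    · rw [hp0 w hw, zero_mul]
      exact ha.le
  obtain ⟨Psi, hPm, hP0, hPb, hPe⟩ := psi_exists M (M * q y) hM.le ha n hn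
  set f := dflow H phi q y with hf
  have anti : ∀ a b, f b a = - f a b := dflow_anti H phi q y
  have hone : ∀ u v, V v ≤ V u → f u v ≤ 1 := by
    intro u v huv
    rcases huv.lt_or_eq with h | h
    · exact e7b_le_one H phi q V hV (fun w => (hq w).1) y x div u v h
    · have : f u v = 0 := by
        rw [hf, e7b_form H phi q V hV, h]
        split_ifs <;> simp
      rw [this]
      exact zero_le_one
  have hedge1 : ∀ u v, V v ≤ V u → f u v ^ 2 ≤ f u v * (Psi (V u) - Psi (V v)) := by
    intro u v huv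
    by_cases hadj : H.Adj u v
    · have e : f u v = q u * q v * (V u - V v) / q y := by
        rw [hf, e7b_form H phi q V hV, if_pos hadj]
      have h1 := hone u v huv
      rw [e] at h1 ⊢
      exact hPe (V v) (V u) (q v) (q u) (q y) hqy0 rfl (hV0 v) huv (hq v).1 (hq v).2 (hq u).1
        (hq u).2 (hVa v) (hVa u) h1
    · have e : f u v = 0 := by
        rw [hf, e7b_form H phi q V hV, if_neg hadj]
      rw [e]
      simp
  have hedge : ∀ u v, f u v ^ 2 ≤ f u v * (Psi (V u) - Psi (V v)) := by
    intro u v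
    rcases le_total (V v) (V u) with h | h
    · exact hedge1 u v h
    · have h1 := hedge1 v u h
      rw [anti u v] at h1
      nlinarith
  have hsum : ∑ u, ∑ v, f u v ^ 2 ≤ ∑ u, ∑ v, f u v * (Psi (V u) - Psi (V v)) :=
    Finset.sum_le_sum fun u _ => Finset.sum_le_sum fun v _ => hedge u v
  have htel := flow_telescope f y x anti div (fun w => Psi (V w))
  have hVx : V x = 0 := by
    show (if x ∈ A then phi x / q x else 0) = 0
    rw [if_neg hx]
  have hVy : V y = phi y / q y := by
    show (if y ∈ A then phi y / q y else 0) = phi y / q y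
    rw [if_pos hy]
  have hn0 : 0 < n := lt_of_lt_of_le one_pos hn
  have hqn : 1 ≤ q y * n := by
    rwa [div_le_iff₀ hn0] at hqy
  have hVyb : V y ≤ M * q y * n ^ 2 := by
    rw [hVy, div_le_iff₀ hqy0]
    have h1 : M * q y * n ^ 2 * q y = M * (q y * n) ^ 2 := by ring
    rw [h1]
    have h2 : 1 ≤ (q y * n) ^ 2 := by nlinarith
    calc phi y ≤ M := hpy
      _ = M * 1 := (mul_one M).symm
      _ ≤ M * (q y * n) ^ 2 := mul_le_mul_of_nonneg_left h2 hM.le
  have hfin := hPb (V y) (hV0 y) hVyb
  simp only [hVx, hP0, sub_zero] at htel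
  linarith

end Pool.Agent.LRO63
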