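import Pool.Agent.LRO63.E4
import Pool.Agent.LRO63.E5
import Pool.Agent.LRO63.E7b

namespace Pool.Agent.LRO63

variable {W : Type} [Fintype W] [DecidableEq W] (H : SimpleGraph W) [DecidableRel H.Adj]

/-- the ordering lemma, one step -/
theorem step_flow (hconn : H.Connected) {M : ℝ} (hM : 0 < M) (hPM : PM H M) (A : Finset W)
    (hA : A ≠ Finset.univ) (hAc : AConn H A) (y : W) (hy : y ∈ A) :
    ∃ x, x ∉ A ∧ (∃ a ∈ A, H.Adj x a) ∧ ∃ f : W → W → ℝ,
      UFlow H (insert x A) x y ((2 * M + 1) * (1 + 2 * Real.log (Fintype.card W))) f := by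
  obtain ⟨x, hx, q, hq, hqx, hq0, hl, hqy⟩ := exists_q H hconn A hA y hy
  obtain ⟨phi, hp0, hp1⟩ := solve H hconn A hA (fun w => if w = y then 1 else 0)
  have hcard : (1 : ℝ) ≤ (Fintype.card W : ℝ) := by
    have : 0 < Fintype.card W := Fintype.card_pos_iff.2 ⟨y⟩
    exact_mod_cast this
  have hqyp : 0 < q y := lt_of_lt_of_le (by positivity) hqy
  have hqp := q_pos H A hAc y hy q (fun w => (hq w).1) hl hqyp
  obtain ⟨hp, hpy, hpt⟩ := point H hconn hPM A hA y hy phi q hp0 hp1 (fun w => (hq w).1) hl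
  have hdiv := dflow_div H A y x hy hx phi q hp0 hp1 hq0 hl hqyp
  have hen := dflow_energy H hM A y x hy hx phi q hp hp0 hpy hq hqx hq0 hqp hpt
    (Fintype.card W : ℝ) hcard hqy hdiv
  have hxy : x ≠ y := fun h => hx (h ▸ hy)
  have hz : ∀ u, u ∉ insert x A → phi u = 0 ∧ q u = 0 := by
    intro u hu
    rw [Finset.mem_insert, not_or] at hu
    exact ⟨hp0 u hu.2, hq0 u hu.2 hu.1⟩
  have hsupp : ∀ u v, dflow H phi q y u v ≠ 0 → H.Adj u v ∧ u ∈ insert x A ∧ v ∈ insert x A := by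
    intro u v huv
    unfold dflow at huv
    refine ⟨?_, ?_, ?_⟩
    · by_contra hn
      exact huv (if_neg hn)
    · by_contra hn
      obtain ⟨h1, h2⟩ := hz u hn
      exact huv (by rw [h1, h2]; simp)
    · by_contra hn
      obtain ⟨h1, h2⟩ := hz v hn
      exact huv (by rw [h1, h2]; simp)
  refine ⟨x, hx, ?_, fun u v => - dflow H phi q y u v, ?_, ?_, ?_, ?_⟩
  · have h1 := hdiv x
    rw [if_neg hxy, if_pos rfl] at h1
    have h2 : ∃ v ∈ Finset.univ, dflow H phi q y x v ≠ 0 := by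
      apply Finset.exists_ne_zero_of_sum_ne_zero
      rw [h1]
      norm_num
    obtain ⟨v, -, hv⟩ := h2
    obtain ⟨h3, -, h4⟩ := hsupp x v hv
    rw [Finset.mem_insert] at h4
    rcases h4 with h4 | h4
    · exact absurd h4.symm h3.ne
    · exact ⟨v, h4, h3⟩
  · intro u v
    rw [dflow_anti H phi q y u v]
  · intro u v huv
    exact hsupp u v (fun h => huv (by simp only [h, neg_zero]))
  · intro u
    rw [Finset.sum_neg_distrib, hdiv u]
    ring
  · simpa using hen

end Pool.Agent.LRO63
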