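import Pool.Agent.LRO63.E8

namespace Pool.Agent.LRO63

variable {W : Type} [Fintype W] [DecidableEq W] (H : SimpleGraph W) [DecidableRel H.Adj]

private theorem E9_single (y : W) : AConn H ({y} : Finset W) := by
  intro Z hZ hne _
  rcases Finset.subset_singleton_iff.1 hZ with h | h
  · rw [h] at hne
    exact absurd hne Finset.not_nonempty_empty
  · exact h

private theorem E9_insert (A : Finset W) (hA : AConn H A) (x a : W) (ha : a ∈ A)
    (hxa : H.Adj x a) : AConn H (insert x A) := by
  intro Z hZ hne hcl
  by_cases hint : (Z ∩ A).Nonempty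
  · have h1 : Z ∩ A = A := by
      apply hA _ Finset.inter_subset_right hint
      intro u hu b hb hub
      rw [Finset.mem_inter] at hu ⊢
      exact ⟨hcl u hu.1 b (Finset.mem_insert_of_mem hb) hub, hb⟩
    have h2 : A ⊆ Z := by
      intro b hb
      rw [← h1] at hb
      exact (Finset.mem_inter.1 hb).1
    have h3 : x ∈ Z := hcl a (h2 ha) x (Finset.mem_insert_self x A) hxa.symm
    exact Finset.Subset.antisymm hZ (Finset.insert_subset h3 h2)
  · exfalso
    rw [Finset.not_nonempty_iff_eq_empty] at hint
    obtain ⟨z, hz⟩ := hne
    have hzx : z = x := by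
      rcases Finset.mem_insert.1 (hZ hz) with h | h
      · exact h
      · exfalso
        have : z ∈ Z ∩ A := Finset.mem_inter.2 ⟨hz, h⟩
        rw [hint] at this
        exact absurd this (Finset.notMem_empty z)
    rw [hzx] at hz
    have haZ : a ∈ Z := hcl x hz a (Finset.mem_insert_of_mem ha) hxa
    have : a ∈ Z ∩ A := Finset.mem_inter.2 ⟨haZ, ha⟩
    rw [hint] at this
    exact absurd this (Finset.notMem_empty a)

private theorem E9_image_update (v : ℕ → W) (k : ℕ) (x : W) (i : ℕ) (hi : i ≤ k) :
    (Finset.range i).image (Function.update v k x) = (Finset.range i).image v := by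
  apply Finset.image_congr
  intro j hj
  have hj' : j < i := by simpa using hj
  exact Function.update_of_ne (show j ≠ k by omega) x v

private theorem E9_aux (hconn : H.Connected) {M : ℝ} (hM : 0 < M) (hPM : PM H M) (y : W)
    (k : ℕ) (hk : 1 ≤ k) (hkn : k ≤ Fintype.card W) :
    ∃ v : ℕ → W, v 0 = y ∧ AConn H ((Finset.range k).image v) ∧
      ∀ i, 0 < i → i < k → v i ∉ (Finset.range i).image v ∧
        ∃ f : W → W → ℝ, UFlow H ((Finset.range (i + 1)).image v) (v i) y
          ((2 * M + 1) * (1 + 2 * Real.log (Fintype.card W))) f := by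
  induction k, hk using Nat.le_induction with
  | base =>
    refine ⟨fun _ => y, rfl, ?_, ?_⟩
    · have h1 : (Finset.range 1).image (fun _ : ℕ => y) = {y} := by
        ext w
        simp [eq_comm]
      rw [h1]
      exact E9_single H y
    · intro i h0 h1
      omega
  | succ k hk ih =>
    obtain ⟨v, hv0, hvc, hvi⟩ := ih (by omega)
    set A := (Finset.range k).image v with hAdef
    have hyA : y ∈ A := by
      rw [hAdef, Finset.mem_image]
      exact ⟨0, Finset.mem_range.2 (by omega), hv0⟩
    have hAne : A ≠ Finset.univ := by
      intro h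
      have h1 : A.card ≤ k := by
        calc A.card ≤ (Finset.range k).card := Finset.card_image_le
          _ = k := Finset.card_range k
      rw [h, Finset.card_univ] at h1
      omega
    obtain ⟨x, hxA, ⟨a, haA, hxa⟩, f, hf⟩ := step_flow H hconn hM hPM A hAne hvc y hyA
    have him : (Finset.range (k + 1)).image (Function.update v k x) = insert x A := by
      rw [Finset.range_add_one, Finset.image_insert, E9_image_update v k x k le_rfl,
        Function.update_self]
    refine ⟨Function.update v k x, ?_, ?_, ?_⟩
    · rw [Function.update_of_ne (show (0 : ℕ) ≠ k by omega)]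
      exact hv0
    · rw [him]
      exact E9_insert H A hvc x a haA hxa
    · intro i h0 hik
      rcases Nat.lt_succ_iff_lt_or_eq.1 hik with hlt | heq
      · rw [E9_image_update v k x i hlt.le, E9_image_update v k x (i + 1) (by omega),
          Function.update_of_ne (show i ≠ k by omega)]
        exact hvi i h0 hlt
      · subst heq
        rw [him, E9_image_update v i x i le_rfl, Function.update_self]
        exact ⟨hxA, f, hf⟩

/-- the ordering lemma -/
theorem chain (hconn : H.Connected) {M : ℝ} (hM : 0 < M) (hPM : PM H M) (y : W) :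
    ∃ v : ℕ → W, v 0 = y ∧ (∀ w, ∃ i, i < Fintype.card W ∧ v i = w) ∧
      ∀ i, 0 < i → i < Fintype.card W → v i ∉ (Finset.range i).image v ∧
        ∃ f : W → W → ℝ, UFlow H ((Finset.range (i + 1)).image v) (v i) y
          ((2 * M + 1) * (1 + 2 * Real.log (Fintype.card W))) f := by
  have hpos : 1 ≤ Fintype.card W := Fintype.card_pos_iff.2 ⟨y⟩
  obtain ⟨v, hv0, _, hvi⟩ := E9_aux H hconn hM hPM y (Fintype.card W) hpos le_rfl
  refine ⟨v, hv0, ?_, hvi⟩
  have hinj : Set.InjOn v (Finset.range (Fintype.card W) : Set ℕ) := by
    have key : ∀ i j, i < j → j < Fintype.card W → v i ≠ v j := by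
      intro i j hij hj h
      apply (hvi j (by omega) hj).1
      rw [Finset.mem_image]
      exact ⟨i, Finset.mem_range.2 hij, h⟩
    intro i hi j hj h
    have hi' : i < Fintype.card W := by simpa using hi
    have hj' : j < Fintype.card W := by simpa using hj
    rcases lt_trichotomy i j with h1 | h1 | h1
    · exact absurd h (key i j h1 hj')
    · exact h1
    · exact absurd h.symm (key j i h1 hi')
  have hcard : ((Finset.range (Fintype.card W)).image v).card = Fintype.card W := by
    rw [Finset.card_image_of_injOn hinj, Finset.card_range]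
  have huniv : (Finset.range (Fintype.card W)).image v = Finset.univ :=
    Finset.eq_univ_of_card _ hcard
  intro w
  have hw : w ∈ (Finset.range (Fintype.card W)).image v := by
    rw [huniv]
    exact Finset.mem_univ w
  obtain ⟨i, hi, hiw⟩ := Finset.mem_image.1 hw
  exact ⟨i, Finset.mem_range.1 hi, hiw⟩

end Pool.Agent.LRO63
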