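import Mathlib

namespace Pool.Agent.LRO63

private theorem F0_sq_exp (u : ℝ) (hu : 0 ≤ u) : u ^ 2 * Real.exp (-(3 / 4 * u)) ≤ 4 := by
  have h1 := Real.quadratic_le_exp_of_nonneg (x := 3 / 4 * u) (by linarith)
  rw [Real.exp_neg]
  rw [← div_eq_mul_inv, div_le_iff₀ (Real.exp_pos _)]
  nlinarith [sq_nonneg u]

/-- the numbers: `X = β / (1 + M)`, `l = log |S|` -/
theorem numbers (N : ℕ) (hN : 2 ≤ N) : ∃ C : ℝ, 1 ≤ C ∧ ∃ t : ℝ, 0 < t ∧ t ≤ 1 / 2 ∧
    (N : ℝ) * t ^ 2 ≤ 1 / 4 ∧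
    ∀ (M β s : ℝ), 0 < M → 2 ≤ s → C * (1 + M) * (1 + Real.log s) ^ 2 ≤ β →
      24 * M ≤ β ∧ 24 * ((2 * M + 1) * (1 + 2 * Real.log s)) ≤ t * β ∧
      9 / 2 * N * M / β + 2 * (s * (2 * N * Real.exp (-(t ^ 3 * β /
        (36 * ((2 * M + 1) * (1 + 2 * Real.log s))))))) ≤ C * (1 + M) / β := by
  have hn : (2 : ℝ) ≤ N := by exact_mod_cast hN
  generalize (N : ℝ) = n at hn
  have hn0 : 0 < n := by linarith
  have hn1 : 1 ≤ n := by linarith
  have hn3 : 1 ≤ n ^ 3 := one_le_pow₀ hn1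
  have hn34 : n ^ 3 ≤ n ^ 4 := pow_le_pow_right₀ hn1 (by norm_num)
  have hn14 : n ≤ n ^ 4 := by
    calc n = n ^ 1 := (pow_one n).symm
      _ ≤ n ^ 4 := pow_le_pow_right₀ hn1 (by norm_num)
  refine ⟨10000 * n ^ 4, by linarith, 1 / (2 * n), by positivity, ?_, ?_, ?_⟩
  · rw [div_le_div_iff₀ (by positivity) (by norm_num)]; linarith
  · have : n * (1 / (2 * n)) ^ 2 = 1 / (4 * n) := by field_simp; ring
    rw [this, div_le_div_iff₀ (by positivity) (by norm_num)]; linarith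
  intro M β s hM hs hβ
  have hl : 0 ≤ Real.log s := Real.log_nonneg (by linarith)
  have hsexp : s ≤ Real.exp (1 + Real.log s) := by
    have h1 : s = Real.exp (Real.log s) := (Real.exp_log (by linarith)).symm
    calc s = Real.exp (Real.log s) := h1
      _ ≤ _ := Real.exp_le_exp.2 (by linarith)
  generalize Real.log s = l at hl hsexp hβ
  have hM1 : 0 < 1 + M := by linarith
  -- L = 1 + l
  obtain ⟨L, hL⟩ : ∃ L, L = 1 + l := ⟨_, rfl⟩
  have hL1 : 1 ≤ L := by linarith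
  have hL0 : 0 < L := by linarith
  rw [← hL] at hβ hsexp
  have hLL : L ≤ L ^ 2 := by nlinarith
  -- X
  obtain ⟨X, hX⟩ : ∃ X, X = β / (1 + M) := ⟨_, rfl⟩
  have hβX : β = X * (1 + M) := by rw [hX]; field_simp
  have hXC : 10000 * n ^ 4 * L ^ 2 ≤ X := by
    rw [hX, le_div_iff₀ hM1]
    linarith
  have hn4 : 1 ≤ n ^ 4 := le_trans hn3 hn34
  have hL2 : 1 ≤ L ^ 2 := le_trans hL1 hLL
  have hX0 : 10000 * L ^ 2 ≤ X := by nlinarith
  have hXpos : 0 < X := by nlinarith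
  have hβ0 : 0 < β := by rw [hβX]; positivity
  have hR : (2 * M + 1) * (1 + 2 * l) ≤ 4 * (1 + M) * L := by
    rw [hL]; nlinarith [mul_nonneg hM.le hl]
  have hRpos : 0 < (2 * M + 1) * (1 + 2 * l) := by positivity
  refine ⟨?_, ?_, ?_⟩
  · rw [hβX]; nlinarith
  · have h1 : 24 * (4 * (1 + M) * L) ≤ 1 / (2 * n) * β := by
      have h2 : 1 / (2 * n) * β = β / (2 * n) := by ring
      rw [h2, le_div_iff₀ (by positivity), hβX]
      have h3 : 192 * n * L ≤ X := by
        have h4 : n * L ≤ n ^ 4 * L ^ 2 := mul_le_mul hn14 hLL hL0.le (by positivity)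
        nlinarith [mul_pos (pow_pos hn0 4) (pow_pos hL0 2)]
      nlinarith
    linarith
  · -- the exponential
    obtain ⟨u, hu⟩ : ∃ u, u = X / (1152 * n ^ 3 * L) := ⟨_, rfl⟩
    have hXu : X = 1152 * n ^ 3 * L * u := by rw [hu]; field_simp
    have hu0 : 0 < u := by rw [hu]; positivity
    have hu4 : 4 * L ≤ u := by
      rw [hu, le_div_iff₀ (by positivity)]
      have h4 : n ^ 3 * L ^ 2 ≤ n ^ 4 * L ^ 2 := mul_le_mul_of_nonneg_right hn34 (by positivity)
      nlinarith [mul_pos (pow_pos hn0 4) (pow_pos hL0 2)]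
    have hE : u ≤ (1 / (2 * n)) ^ 3 * β / (36 * ((2 * M + 1) * (1 + 2 * l))) := by
      have h1 : u = (1 / (2 * n)) ^ 3 * β / (36 * (4 * (1 + M) * L)) := by
        rw [hu, hβX]; field_simp; ring
      rw [h1]
      apply div_le_div_of_nonneg_left (by positivity) (by positivity)
      linarith
    have hexp : s * Real.exp (-((1 / (2 * n)) ^ 3 * β / (36 * ((2 * M + 1) * (1 + 2 * l))))) ≤
        Real.exp (-(3 / 4 * u)) := by
      calc s * Real.exp (-((1 / (2 * n)) ^ 3 * β / (36 * ((2 * M + 1) * (1 + 2 * l)))))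
          ≤ Real.exp L * Real.exp (-u) := by
            apply mul_le_mul hsexp (Real.exp_le_exp.2 (by linarith)) (Real.exp_pos _).le
              (Real.exp_pos _).le
        _ = Real.exp (L - u) := by rw [← Real.exp_add]; ring_nf
        _ ≤ _ := Real.exp_le_exp.2 (by linarith)
    have hX2 : Real.exp (-(3 / 4 * u)) * X ≤ 1152 * n ^ 3 := by
      have h1 := F0_sq_exp u hu0.le
      have h2 : X ≤ 288 * n ^ 3 * u ^ 2 := by
        rw [hXu]
        have h3 : L * u ≤ u ^ 2 / 4 := by nlinarith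
        nlinarith [pow_pos hn0 3, mul_le_mul_of_nonneg_left h3 (pow_pos hn0 3).le]
      calc Real.exp (-(3 / 4 * u)) * X ≤ Real.exp (-(3 / 4 * u)) * (288 * n ^ 3 * u ^ 2) :=
            mul_le_mul_of_nonneg_left h2 (Real.exp_pos _).le
        _ = 288 * n ^ 3 * (u ^ 2 * Real.exp (-(3 / 4 * u))) := by ring
        _ ≤ 288 * n ^ 3 * 4 := mul_le_mul_of_nonneg_left h1 (by positivity)
        _ = 1152 * n ^ 3 := by ring
    have h2 : 2 * (s * (2 * n * Real.exp (-((1 / (2 * n)) ^ 3 * β /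
        (36 * ((2 * M + 1) * (1 + 2 * l))))))) ≤ 4608 * n ^ 4 / X := by
      rw [le_div_iff₀ hXpos]
      calc 2 * (s * (2 * n * Real.exp (-((1 / (2 * n)) ^ 3 * β /
          (36 * ((2 * M + 1) * (1 + 2 * l))))))) * X
          = 4 * n * ((s * Real.exp (-((1 / (2 * n)) ^ 3 * β /
          (36 * ((2 * M + 1) * (1 + 2 * l)))))) * X) := by ring
        _ ≤ 4 * n * (1152 * n ^ 3) := by
            apply mul_le_mul_of_nonneg_left _ (by positivity)
            exact le_trans (mul_le_mul_of_nonneg_right hexp hXpos.le) hX2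
        _ = 4608 * n ^ 4 := by ring
    have h3 : 9 / 2 * n * M / β ≤ 9 / 2 * n ^ 4 / X := by
      rw [div_le_div_iff₀ hβ0 hXpos, hβX]
      have h4 : n * M ≤ n ^ 4 * (1 + M) := by
        apply mul_le_mul hn14 (by linarith) hM.le (by positivity)
      have h7 := mul_le_mul_of_nonneg_right h4 hXpos.le
      linarith
    have h5 : 10000 * n ^ 4 * (1 + M) / β = 10000 * n ^ 4 / X := by
      rw [hβX]; field_simp
    rw [h5]
    have h6 : 9 / 2 * n ^ 4 / X + 4608 * n ^ 4 / X ≤ 10000 * n ^ 4 / X := by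
      rw [← add_div]
      apply div_le_div_of_nonneg_right _ hXpos.le
      nlinarith [pow_pos hn0 4]
    linarith

end Pool.Agent.LRO63
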