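import Pool.Agent.LRO63.O4a

open MeasureTheory ComplexConjugate
open scoped ComplexOrder ENNReal

namespace Pool.Agent.LRO63

open Pool.Agent.helper71.XY Pool.Agent.helper71.XY.Defs

attribute [local instance] fact2pi

variable {N : ℕ} [NeZero N] {V : Type} [Fintype V] [DecidableEq V]

private lemma O5a_e_coe (x : ℝ) : e ((x : ℝ) : T) = Complex.exp (x * Complex.I) := by
  rw [e, AddCircle.toCircle_apply_mk, Circle.coe_exp]
  have : 2 * Real.pi / (2 * Real.pi) * x = x := by
    field_simp
  rw [this]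

private lemma O5a_polar (a b : ℝ) : ∃ t : T, ∃ r : ℝ, 0 ≤ r ∧ r * (e t).re = a ∧
    r * (e t).im = b := by
  have h := Complex.norm_mul_exp_arg_mul_I (⟨a, b⟩ : ℂ)
  refine ⟨((Complex.arg ⟨a, b⟩ : ℝ) : T), ‖(⟨a, b⟩ : ℂ)‖, norm_nonneg _, ?_, ?_⟩
  · rw [O5a_e_coe]
    have h2 := congrArg Complex.re h
    rw [Complex.re_ofReal_mul] at h2
    exact h2
  · rw [O5a_e_coe]
    have h2 := congrArg Complex.im h
    rw [Complex.im_ofReal_mul] at h2
    exact h2

/-- base configuration: all spins rotated to the half plane `co 0 ≥ 0`, `co j = 0` -/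
theorem base (j : Fin N) (hj : j ≠ 0) (y : V) (σ : V → Sph N) (hσ : σ y = e0) :
    ∃ τ : V → Sph N, τ y = e0 ∧ (∀ x, 0 ≤ co (τ x) 0 ∧ co (τ x) j = 0 ∧
      ∀ k, k ≠ 0 → k ≠ j → co (τ x) k = co (σ x) k) ∧
      ∀ F : (V → Sph N) → ℝ, ∫ φ, F (roV j hj φ σ) ∂(Measure.pi (pinM y))
        = ∫ φ, F (roV j hj φ τ) ∂(Measure.pi (pinM y)) := by
  classical
  have key : ∀ x, ∃ a : T, (x = y → a = 0) ∧ 0 ≤ co (ro j hj (-a) (σ x)) 0 ∧
      co (ro j hj (-a) (σ x)) j = 0 := by
    intro x
    by_cases hx : x = y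
    · refine ⟨0, fun _ => rfl, ?_, ?_⟩
      · rw [neg_zero, ro_zero, hx, hσ, co_e0, if_pos rfl]
        exact zero_le_one
      · rw [neg_zero, ro_zero, hx, hσ, co_e0, if_neg hj]
    · obtain ⟨t, r, hr, h1, h2⟩ := O5a_polar (co (σ x) 0) (co (σ x) j)
      have hsq : (e t).re ^ 2 + (e t).im ^ 2 = 1 := by
        have h3 := norm_e t
        have h4 : Complex.normSq (e t) = 1 := by
          rw [Complex.normSq_eq_norm_sq, h3, one_pow]
        rw [Complex.normSq_apply] at h4
        nlinarith
      refine ⟨t, fun h => absurd h hx, ?_, ?_⟩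
      · rw [co_ro, if_pos rfl, e_neg, Complex.conj_re, Complex.conj_im, ← h1, ← h2]
        have : (e t).re * (r * (e t).re) - -(e t).im * (r * (e t).im)
            = r * ((e t).re ^ 2 + (e t).im ^ 2) := by ring
        rw [this, hsq, mul_one]
        exact hr
      · rw [co_ro, if_neg hj, if_pos rfl, e_neg, Complex.conj_re, Complex.conj_im, ← h1, ← h2]
        ring
  choose α hα0 hα1 hα2 using key
  refine ⟨fun x => ro j hj (-(α x)) (σ x), ?_, ?_, ?_⟩
  · show ro j hj (-(α y)) (σ y) = e0
    rw [hα0 y rfl, neg_zero, ro_zero, hσ]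
  · intro x
    refine ⟨hα1 x, hα2 x, ?_⟩
    intro k hk0 hkj
    show co (ro j hj (-(α x)) (σ x)) k = _
    rw [co_ro, if_neg hk0, if_neg hkj]
  · intro F
    have h1 : ∀ φ : V → T, roV j hj φ σ
        = roV j hj (φ + α) (fun x => ro j hj (-(α x)) (σ x)) := by
      intro φ
      funext x
      show ro j hj (φ x) (σ x) = ro j hj (φ x + α x) (ro j hj (-(α x)) (σ x))
      rw [← ro_add, add_neg_cancel_right]
    have hmp : MeasurePreserving (fun φ : V → T => φ + α) (Measure.pi (pinM y))
        (Measure.pi (pinM y)) := by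
      have h2 : ∀ x, MeasurePreserving (fun t : T => t + α x) (pinM y x) (pinM y x) := by
        intro x
        by_cases hx : x = y
        · rw [hα0 x hx]
          have : (fun t : T => t + 0) = id := by
            funext t
            simp
          rw [this]
          exact MeasurePreserving.id _
        · unfold pinM
          rw [if_neg hx]
          exact measurePreserving_add_right haar (α x)
      exact measurePreserving_pi (pinM y) (pinM y) (f := fun x t => t + α x) h2
    simp_rw [h1]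
    exact hmp.integral_comp (MeasurableEquiv.addRight α).measurableEmbedding
      (fun φ => F (roV j hj φ (fun x => ro j hj (-(α x)) (σ x))))

end Pool.Agent.LRO63
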