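import Pool.Agent.LRO63.O4a

open MeasureTheory ComplexConjugate
open scoped ComplexOrder ENNReal

namespace Pool.Agent.LRO63

open Pool.Agent.helper71.XY Pool.Agent.helper71.XY.Defs

attribute [local instance] fact2pi

variable {N : ℕ} [NeZero N] {V : Type} [Fintype V] [DecidableEq V]

/-- the couplings of the planar model in the environment `τ` -/
noncomputable def KK (G : SimpleGraph V) [DecidableRel G.Adj] (β : ℝ) (τ : V → Sph N)
    (x i : V) : ℝ := β * (if G.Adj x i then 1 else 0) * (co (τ x) 0 * co (τ i) 0)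

/-- the Gibbs weight in the environment `τ` is the one of the planar model -/
theorem wt_ro (j : Fin N) (hj : j ≠ 0) (G : SimpleGraph V) [DecidableRel G.Adj] (β : ℝ)
    (τ : V → Sph N) (hτ : ∀ x, co (τ x) j = 0) :
    ∃ c : ℝ, 0 < c ∧ ∀ φ : V → T, wt G β (roV j hj φ τ) = c * W (KK G β τ) φ := by
  have hsum : ∀ (φ : V → T) (x i : V), ∑ k, co (roV j hj φ τ x) k * co (roV j hj φ τ i) k
      = (co (τ x) 0 * co (τ i) 0) * (e (φ x) * conj (e (φ i))).re
        + ∑ k ∈ (Finset.univ.erase (0 : Fin N)).erase j, co (τ x) k * co (τ i) k := by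
    intro φ x i
    have hj' : j ∈ Finset.univ.erase (0 : Fin N) := Finset.mem_erase.2 ⟨hj, Finset.mem_univ _⟩
    rw [← Finset.add_sum_erase Finset.univ _ (Finset.mem_univ (0 : Fin N)),
      ← Finset.add_sum_erase _ _ hj', ← add_assoc]
    congr 1
    · unfold roV
      simp only [co_ro, if_pos, if_neg hj, hτ, Complex.mul_re, Complex.conj_re, Complex.conj_im]
      ring
    · apply Finset.sum_congr rfl
      intro k hk
      have h1 := Finset.ne_of_mem_erase hk
      have h2 := Finset.ne_of_mem_erase (Finset.mem_of_mem_erase hk)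
      unfold roV
      simp only [co_ro, if_neg h1, if_neg h2]
  refine ⟨Real.exp (β * ((1 / 2) * ∑ x, ∑ i, (if G.Adj x i then 1 else 0) *
    ∑ k ∈ (Finset.univ.erase (0 : Fin N)).erase j, co (τ x) k * co (τ i) k)),
    Real.exp_pos _, ?_⟩
  intro φ
  unfold wt W
  rw [← Real.exp_add]
  congr 1
  rw [interaction_eq]
  simp only [hsum, mul_add, Finset.sum_add_distrib]
  rw [add_comm]
  congr 1
  unfold KK
  simp only [Finset.mul_sum]
  refine Finset.sum_congr rfl fun x _ => Finset.sum_congr rfl fun i _ => ?_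
  ring

end Pool.Agent.LRO63
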