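import Pool.Agent.LRO63.O4a

/-!
# Good configurations, and what they say about the environment
-/

open MeasureTheory ComplexConjugate
open scoped ComplexOrder ENNReal

namespace Pool.Agent.LRO63

open Pool.Agent.helper71.XY Pool.Agent.helper71.XY.Defs

attribute [local instance] fact2pi

variable {N : ℕ} [NeZero N] {V : Type} [Fintype V] [DecidableEq V]

/-- all spins in `A` are near the pinned direction -/
def Good (t : ℝ) (A : Finset V) (σ : V → Sph N) : Prop :=
  ∀ a ∈ A, 0 < co (σ a) 0 ∧ ∀ k, k ≠ 0 → |co (σ a) k| ≤ t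

lemma measurableSet_good (t : ℝ) (A : Finset V) :
    MeasurableSet {σ : V → Sph N | Good t A σ} := by
  have hm : ∀ (a : V) (k : Fin N), Measurable fun σ : V → Sph N => co (σ a) k := fun a k =>
    (continuous_co k).measurable.comp (measurable_pi_apply a)
  have h : {σ : V → Sph N | Good t A σ} = ⋂ a ∈ A, ({σ : V → Sph N | 0 < co (σ a) 0} ∩
      ⋂ k : Fin N, ⋂ (_ : k ≠ 0), {σ : V → Sph N | |co (σ a) k| ≤ t}) := by
    ext σ
    simp only [Good, Set.mem_ofPred_eq, Set.mem_iInter, Set.mem_inter_iff]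
  rw [h]
  refine Finset.measurableSet_biInter A fun a _ => ?_
  refine (measurableSet_lt measurable_const (hm a 0)).inter ?_
  refine MeasurableSet.iInter fun k => MeasurableSet.iInter fun _ => ?_
  exact measurableSet_le ((hm a k).abs) measurable_const

/-- radii of a good configuration in the base position -/
lemma good_radius (j : Fin N) (hj : j ≠ 0) (t : ℝ) (ht : (N : ℝ) * t ^ 2 ≤ 1 / 4)
    (A : Finset V) (τ : V → Sph N) (hτ : ∀ x, 0 ≤ co (τ x) 0 ∧ co (τ x) j = 0)
    (φ : V → T) (hg : Good t A (roV j hj φ τ)) (a : V) (ha : a ∈ A) :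
    3 / 4 ≤ co (τ a) 0 ^ 2 := by
  have h1 : ∀ k, k ≠ 0 → co (τ a) k ^ 2 ≤ t ^ 2 := by
    intro k hk
    by_cases hkj : k = j
    · rw [hkj, (hτ a).2]
      have := sq_nonneg t
      nlinarith
    · have h2 := (hg a ha).2 k hk
      have h3 : co (roV j hj φ τ a) k = co (τ a) k := by
        unfold roV
        rw [co_ro, if_neg hk, if_neg hkj]
      rw [h3] at h2
      exact sq_le_sq' (abs_le.1 h2).1 (abs_le.1 h2).2
  have h4 := sum_co_sq (τ a)
  rw [← Finset.add_sum_erase Finset.univ (fun k => co (τ a) k ^ 2) (Finset.mem_univ (0 : Fin N))] at h4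
  have h5 : ∑ k ∈ Finset.univ.erase (0 : Fin N), co (τ a) k ^ 2
      ≤ ∑ _k ∈ Finset.univ.erase (0 : Fin N), t ^ 2 :=
    Finset.sum_le_sum fun k hk => h1 k (Finset.ne_of_mem_erase hk)
  have h6 : ∑ _k ∈ Finset.univ.erase (0 : Fin N), t ^ 2 ≤ ∑ _k : Fin N, t ^ 2 :=
    Finset.sum_le_sum_of_subset_of_nonneg (Finset.erase_subset _ _) fun _ _ _ => sq_nonneg t
  have h7 : ∑ _k : Fin N, t ^ 2 = (N : ℝ) * t ^ 2 := by
    rw [Finset.sum_const, Finset.card_univ, Fintype.card_fin, nsmul_eq_mul]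
  rw [h7] at h6
  linarith

lemma co_roV_zero (j : Fin N) (hj : j ≠ 0) (τ : V → Sph N) (x : V) (hτ : co (τ x) j = 0)
    (φ : V → T) : co (roV j hj φ τ x) 0 = co (τ x) 0 * cp x φ := by
  unfold roV cp
  rw [co_ro, if_pos rfl, hτ]
  ring

lemma co_roV_j (j : Fin N) (hj : j ≠ 0) (τ : V → Sph N) (x : V) (hτ : co (τ x) j = 0)
    (φ : V → T) : co (roV j hj φ τ x) j = co (τ x) 0 * sq x φ := by
  unfold roV Pool.Agent.helper71.XY.sq
  rw [co_ro, if_neg hj, if_pos rfl, hτ]
  ring

end Pool.Agent.LRO63
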