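import Pool.Agent.helper71.XY.Pin

/-!
# The planar model with general couplings, pinned at `y`: magnetisation on a well connected set
-/

open MeasureTheory ComplexConjugate
open scoped ComplexOrder ENNReal

namespace Pool.Agent.LRO63

open Pool.Agent.helper71.XY

attribute [local instance] fact2pi

variable {V : Type} [Fintype V] [DecidableEq V]

/-- effective resistances to `y` inside `S`, couplings `K`, at most `R` -/
def FI (K : V → V → ℝ) (S : Finset V) (y : V) (R : ℝ) : Prop :=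
  ∀ a ∈ S, ∀ u : V → ℝ,
    (u a - u y) ^ 2 ≤ R * ((1 / 2) * ∑ x ∈ S, ∑ j ∈ S, K x j * (u x - u j) ^ 2)

/-- couplings with an additional field towards `y` on `S` -/
private noncomputable def X1_KH (K : V → V → ℝ) (S : Finset V) (y : V) (H : ℝ) (x j : V) : ℝ :=
  K x j + H * ((if x = y ∧ j ∈ S then 1 else 0) + (if j = y ∧ x ∈ S then 1 else 0))

private lemma X1_ite_nonneg (p : Prop) [Decidable p] : (0 : ℝ) ≤ if p then 1 else 0 := by
  split_ifs <;> norm_num

private lemma X1_le (K : V → V → ℝ) (S : Finset V) (y : V) {H : ℝ} (hH : 0 ≤ H) (x j : V) :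
    K x j ≤ X1_KH K S y H x j := by
  unfold X1_KH
  have : (0 : ℝ) ≤ H * ((if x = y ∧ j ∈ S then 1 else 0) + (if j = y ∧ x ∈ S then 1 else 0)) :=
    mul_nonneg hH (add_nonneg (X1_ite_nonneg _) (X1_ite_nonneg _))
  linarith

private lemma X1_nonneg (K : V → V → ℝ) (hK : ∀ x j, 0 ≤ K x j) (S : Finset V) (y : V) {H : ℝ}
    (hH : 0 ≤ H) (x j : V) : 0 ≤ X1_KH K S y H x j :=
  (hK x j).trans (X1_le K S y hH x j)

private lemma X1_zero (K : V → V → ℝ) (S : Finset V) (y : V) : X1_KH K S y 0 = K := by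
  funext x j
  simp [X1_KH]

variable (μ : V → Measure T) [∀ x, IsProbabilityMeasure (μ x)]

private lemma X1_cont_II (K : V → V → ℝ) (S : Finset V) (y : V)
    {f : (V → T) → ℝ} (hf : Continuous f) :
    Continuous fun H : ℝ => II μ (X1_KH K S y H) f := by
  have h1 : Continuous (Function.uncurry fun (H : ℝ) (θ : V → T) =>
      W (X1_KH K S y H) θ * f θ) := by
    apply Continuous.mul
    · change Continuous fun p : ℝ × (V → T) => W (X1_KH K S y p.1) p.2
      unfold W X1_KH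
      have := continuous_e
      fun_prop
    · exact hf.comp continuous_snd
  have h2 := continuous_parametric_integral_of_continuous (μ := Measure.pi μ) h1
    (s := Set.univ) isCompact_univ
  simpa [Measure.restrict_univ, II] using h2

private lemma X1_cont_Gn (K : V → V → ℝ) (S : Finset V) (y z : V) :
    Continuous fun H : ℝ => Gn μ (X1_KH K S y H) z z := by
  unfold Gn
  apply Continuous.div
  · exact X1_cont_II μ K S y ((continuous_sq z).mul (continuous_sq z))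
  · exact X1_cont_II μ K S y continuous_const
  · intro H
    exact (II_pos μ _).ne'

private lemma X1_apriori (hμ : ∀ x, Nice (μ x)) (K : V → V → ℝ) (hK : ∀ x j, 0 ≤ K x j)
    (S : Finset V) {H : ℝ} (hH : 0 ≤ H) (y z : V) (hz : z ∈ S) (hy : μ y = Measure.dirac 0) :
    H * Gn μ (X1_KH K S y H) z z ≤ 2 := by
  set J := X1_KH K S y H with hJdef
  have hJ : ∀ x j, 0 ≤ J x j := X1_nonneg K hK S y hH
  have hk := key_n μ hμ J hJ z
  have h0 := Gn_self_nonneg μ J z
  have h1 : J z y * (mn μ J y * Gn μ J z z - mn μ J z * Gn μ J z y) ^ 2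
      ≤ ∑ x, ∑ j, J x j * (mn μ J j * Gn μ J z x - mn μ J x * Gn μ J z j) ^ 2 := by
    have h2 : ∀ x j, 0 ≤ J x j * (mn μ J j * Gn μ J z x - mn μ J x * Gn μ J z j) ^ 2 :=
      fun x j => mul_nonneg (hJ x j) (sq_nonneg _)
    calc J z y * (mn μ J y * Gn μ J z z - mn μ J z * Gn μ J z y) ^ 2
        ≤ ∑ j, J z j * (mn μ J j * Gn μ J z z - mn μ J z * Gn μ J z j) ^ 2 :=
          Finset.single_le_sum (f := fun j => J z j *
            (mn μ J j * Gn μ J z z - mn μ J z * Gn μ J z j) ^ 2) (fun j _ => h2 z j)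
            (Finset.mem_univ y)
      _ ≤ _ := Finset.single_le_sum (f := fun x => ∑ j, J x j *
            (mn μ J j * Gn μ J z x - mn μ J x * Gn μ J z j) ^ 2)
            (fun x _ => Finset.sum_nonneg fun j _ => h2 x j) (Finset.mem_univ z)
  rw [mn_pin μ y hy, Gn_pin μ y hy] at h1
  have h3 : H ≤ J z y := by
    rw [hJdef]
    unfold X1_KH
    have h4 := hK z y
    have h5 : H ≤ H * ((if z = y ∧ y ∈ S then (1 : ℝ) else 0) +
        (if y = y ∧ z ∈ S then 1 else 0)) := by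
      rw [if_pos (⟨rfl, hz⟩ : y = y ∧ z ∈ S)]
      have : (0 : ℝ) ≤ if z = y ∧ y ∈ S then (1 : ℝ) else 0 := X1_ite_nonneg _
      nlinarith
    linarith
  rcases h0.eq_or_lt with h6 | h6
  · rw [← h6]
    norm_num
  · have h7 : H * Gn μ J z z ^ 2 ≤ J z y * Gn μ J z z ^ 2 :=
      mul_le_mul_of_nonneg_right h3 (sq_nonneg _)
    have h8 : (H * Gn μ J z z) * Gn μ J z z ≤ 2 * Gn μ J z z := by
      calc (H * Gn μ J z z) * Gn μ J z z = H * Gn μ J z z ^ 2 := by ring
        _ ≤ J z y * Gn μ J z z ^ 2 := h7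
        _ = J z y * (1 * Gn μ J z z - mn μ J z * 0) ^ 2 := by ring
        _ ≤ _ := h1
        _ ≤ _ := hk
    exact le_of_mul_le_mul_right h8 h6

private lemma X1_step (hμ : ∀ x, Nice (μ x)) (K : V → V → ℝ) (hK : ∀ x j, 0 ≤ K x j)
    (S : Finset V) (y : V) (R : ℝ) (hR0 : 0 ≤ R) (hFI : FI K S y R) {H : ℝ}
    (hH : 0 ≤ H) (z : V) (hz : z ∈ S) (hy : μ y = Measure.dirac 0)
    (hsmall : ∀ w ∈ S, Gn μ (X1_KH K S y H) w w ≤ 1 / 6) :
    Gn μ (X1_KH K S y H) z z ≤ 9 / 4 * R * mn μ (X1_KH K S y H) z ^ 2 ∧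
      2 / 3 ≤ mn μ (X1_KH K S y H) z ^ 2 ∧ 0 < mn μ (X1_KH K S y H) z := by
  set J := X1_KH K S y H with hJdef
  have hJ : ∀ x j, 0 ≤ J x j := X1_nonneg K hK S y hH
  have hk := key_n μ hμ J hJ z
  have h0 := Gn_self_nonneg μ J z
  have hm2 : ∀ x ∈ S, 2 / 3 ≤ mn μ J x ^ 2 := by
    intro x hx
    have h1 := mn_sq_ge μ hμ J hJ x
    have h2 := hsmall x hx
    linarith
  have hm0 : ∀ x ∈ S, 0 < mn μ J x := by
    intro x hx
    have h1 := mn_nonneg μ hμ J hJ x
    rcases h1.eq_or_lt with h2 | h2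
    · have := hm2 x hx
      rw [← h2] at this
      norm_num at this
    · exact h2
  refine ⟨?_, hm2 z hz, hm0 z hz⟩
  set u : V → ℝ := fun x => Gn μ J z x / mn μ J x with hu
  have hd := hFI z hz u
  have huy : u y = 0 := by
    simp only [hu, Gn_pin μ y hy, zero_div]
  have hterm : ∀ x ∈ S, ∀ j ∈ S, 4 / 9 * (K x j * (u x - u j) ^ 2)
      ≤ J x j * (mn μ J j * Gn μ J z x - mn μ J x * Gn μ J z j) ^ 2 := by
    intro x hx j hj
    have h1 : mn μ J j * Gn μ J z x - mn μ J x * Gn μ J z j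
        = (mn μ J x * mn μ J j) * (u x - u j) := by
      simp only [hu]
      have h2 := (hm0 x hx).ne'
      have h3 := (hm0 j hj).ne'
      field_simp
    rw [h1, mul_pow, mul_pow]
    have h4 : 4 / 9 ≤ mn μ J x ^ 2 * mn μ J j ^ 2 := by
      have := mul_le_mul (hm2 x hx) (hm2 j hj) (by norm_num) (sq_nonneg _)
      linarith
    have h5 : K x j ≤ J x j := X1_le K S y hH x j
    have h6 : 4 / 9 * (u x - u j) ^ 2 ≤ mn μ J x ^ 2 * mn μ J j ^ 2 * (u x - u j) ^ 2 :=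
      mul_le_mul_of_nonneg_right h4 (sq_nonneg _)
    calc 4 / 9 * (K x j * (u x - u j) ^ 2) = K x j * (4 / 9 * (u x - u j) ^ 2) := by ring
      _ ≤ J x j * (mn μ J x ^ 2 * mn μ J j ^ 2 * (u x - u j) ^ 2) :=
        mul_le_mul h5 h6 (by positivity) (hJ x j)
  have hen : 4 / 9 * ∑ x ∈ S, ∑ j ∈ S, K x j * (u x - u j) ^ 2 ≤ 2 * Gn μ J z z := by
    refine le_trans ?_ hk
    rw [Finset.mul_sum]
    calc ∑ x ∈ S, 4 / 9 * ∑ j ∈ S, K x j * (u x - u j) ^ 2
        ≤ ∑ x ∈ S, ∑ j ∈ S,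
          J x j * (mn μ J j * Gn μ J z x - mn μ J x * Gn μ J z j) ^ 2 := by
          apply Finset.sum_le_sum
          intro x hx
          rw [Finset.mul_sum]
          exact Finset.sum_le_sum fun j hj => hterm x hx j hj
      _ ≤ ∑ x ∈ S, ∑ j,
          J x j * (mn μ J j * Gn μ J z x - mn μ J x * Gn μ J z j) ^ 2 := by
          apply Finset.sum_le_sum
          intro x _
          exact Finset.sum_le_univ_sum_of_nonneg fun j => mul_nonneg (hJ x j) (sq_nonneg _)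
      _ ≤ _ := Finset.sum_le_univ_sum_of_nonneg fun x =>
          Finset.sum_nonneg fun j _ => mul_nonneg (hJ x j) (sq_nonneg _)
  rw [huy, sub_zero] at hd
  have hzz : Gn μ J z z = u z * mn μ J z := by
    simp only [hu]
    rw [div_mul_cancel₀ _ (hm0 z hz).ne']
  have hfin : u z ^ 2 ≤ 9 / 4 * R * Gn μ J z z := by
    have h2 : (1 / 2) * ∑ x ∈ S, ∑ j ∈ S, K x j * (u x - u j) ^ 2 ≤ 9 / 4 * Gn μ J z z := by
      linarith
    have h3 := mul_le_mul_of_nonneg_left h2 hR0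
    linarith
  rcases h0.eq_or_lt with h6 | h6
  · rw [← h6]
    positivity
  · have huz : 0 < u z := by
      by_contra hcon
      have := mul_nonpos_of_nonpos_of_nonneg (not_lt.1 hcon) (hm0 z hz).le
      rw [← hzz] at this
      linarith
    have h7 : u z * u z ≤ (9 / 4 * R * mn μ J z) * u z := by
      rw [hzz] at hfin
      linarith
    have h8 : u z ≤ 9 / 4 * R * mn μ J z := le_of_mul_le_mul_right h7 huz
    calc Gn μ J z z = u z * mn μ J z := hzz
      _ ≤ (9 / 4 * R * mn μ J z) * mn μ J z := mul_le_mul_of_nonneg_right h8 (hm0 z hz).le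
      _ = 9 / 4 * R * mn μ J z ^ 2 := by ring

private lemma X1_small (hμ : ∀ x, Nice (μ x)) (K : V → V → ℝ) (hK : ∀ x j, 0 ≤ K x j)
    (S : Finset V) (y : V) (hyS : y ∈ S) (R : ℝ) (hR0 : 0 ≤ R) (hR : R ≤ 1 / 12)
    (hFI : FI K S y R) (hy : μ y = Measure.dirac 0) (z : V) (hz : z ∈ S) :
    Gn μ (X1_KH K S y 0) z z ≤ 1 / 6 := by
  have hne : S.Nonempty := ⟨y, hyS⟩
  set g : ℝ → ℝ := fun H => S.sup' hne fun z => Gn μ (X1_KH K S y H) z z with hg
  have hgc : Continuous g := by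
    apply Continuous.finset_sup'_apply
    intro z _
    exact X1_cont_Gn μ K S y z
  have hle : ∀ H, ∀ w ∈ S, Gn μ (X1_KH K S y H) w w ≤ g H := fun H w hw =>
    Finset.le_sup' (f := fun z => Gn μ (X1_KH K S y H) z z) hw
  refine (hle 0 z hz).trans ?_
  by_contra hcon
  have h0 : 1 / 6 ≤ g 0 := (not_le.1 hcon).le
  have h13 : g 13 ≤ 1 / 6 := by
    apply Finset.sup'_le
    intro w hw
    have := X1_apriori μ hμ K hK S (by norm_num : (0 : ℝ) ≤ 13) y w hw hy
    linarith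
  obtain ⟨H, hH, hgH⟩ := intermediate_value_Icc' (by norm_num : (0 : ℝ) ≤ 13)
    hgc.continuousOn (show (1 / 6 : ℝ) ∈ Set.Icc (g 13) (g 0) from ⟨h13, h0⟩)
  obtain ⟨w, hwS, hw⟩ := Finset.exists_mem_eq_sup' hne fun z => Gn μ (X1_KH K S y H) z z
  have hw2 : Gn μ (X1_KH K S y H) w w = 1 / 6 := by
    rw [← hw]; exact hgH
  have hst := (X1_step μ hμ K hK S y R hR0 hFI hH.1 w hwS hy
    (fun v hv => (hle H v hv).trans hgH.le)).1
  have hml := mn_sq_le μ (X1_KH K S y H) w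
  rw [hw2] at hst hml
  have h3 : 9 / 4 * R * mn μ (X1_KH K S y H) w ^ 2 ≤ 9 / 4 * R * (1 - 1 / 6) :=
    mul_le_mul_of_nonneg_left hml (by positivity)
  linarith

theorem boot (K : V → V → ℝ) (hK : ∀ x j, 0 ≤ K x j) (S : Finset V) (y : V) (hy : y ∈ S)
    (R : ℝ) (hR0 : 0 ≤ R) (hR : R ≤ 1 / 12) (hFI : FI K S y R) :
    ∀ z ∈ S, Gn (pinM y) K z z ≤ 9 / 4 * R * mn (pinM y) K z ^ 2 ∧
      2 / 3 ≤ mn (pinM y) K z ^ 2 ∧ 0 < mn (pinM y) K z ∧ mn (pinM y) K z ≤ 1 := by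
  intro z hz
  have hsm := X1_small (pinM y) (nice_pinM y) K hK S y hy R hR0 hR hFI (pinM_self y)
  have h1 := X1_step (pinM y) (nice_pinM y) K hK S y R hR0 hFI le_rfl z hz (pinM_self y) hsm
  rw [X1_zero] at h1
  refine ⟨h1.1, h1.2.1, h1.2.2, ?_⟩
  have h2 := mn_sq_le (pinM y) K z
  have h3 := Gn_self_nonneg (pinM y) K z
  have h4 := h1.2.2
  nlinarith

end Pool.Agent.LRO63
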