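import Pool.Agent.LRO63.E0
import Pool.Agent.LRO63.X1

namespace Pool.Agent.LRO63

variable {V : Type} [Fintype V] [DecidableEq V]

private theorem O6b_telescope (f : V → V → ℝ) (a y : V)
    (hanti : ∀ u v, f v u = - f u v)
    (hdiv : ∀ u, ∑ v, f u v = (if u = a then 1 else 0) - (if u = y then 1 else 0))
    (u : V → ℝ) : 2 * (u a - u y) = ∑ x, ∑ j, f x j * (u x - u j) := by
  have h1 : ∑ x, ∑ j, f x j * u x = u a - u y := by
    have : ∀ x, ∑ j, f x j * u x = (if x = a then u x else 0) - (if x = y then u x else 0) := by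
      intro x
      rw [← Finset.sum_mul, hdiv]
      split_ifs <;> ring
    rw [Finset.sum_congr rfl (fun x _ => this x), Finset.sum_sub_distrib]
    simp
  have h2 : ∑ x, ∑ j, f x j * u j = -(u a - u y) := by
    rw [Finset.sum_comm, ← h1, ← Finset.sum_neg_distrib]
    refine Finset.sum_congr rfl (fun x _ => ?_)
    rw [← Finset.sum_neg_distrib]
    refine Finset.sum_congr rfl (fun j _ => ?_)
    rw [hanti x j]; ring
  have h3 : ∑ x, ∑ j, f x j * (u x - u j) =
      ∑ x, ∑ j, f x j * u x - ∑ x, ∑ j, f x j * u j := by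
    rw [← Finset.sum_sub_distrib]
    refine Finset.sum_congr rfl (fun x _ => ?_)
    rw [← Finset.sum_sub_distrib]
    refine Finset.sum_congr rfl (fun j _ => ?_)
    ring
  rw [h3, h1, h2]; ring

private theorem O6b_cs (f D : V → V → ℝ) :
    (∑ x, ∑ j, f x j * D x j) ^ 2 ≤
      (∑ x, ∑ j, f x j ^ 2) * ∑ x, ∑ j, (if f x j ≠ 0 then D x j ^ 2 else 0) := by
  have h := Finset.sum_mul_sq_le_sq_mul_sq (Finset.univ : Finset (V × V))
    (fun p => f p.1 p.2) (fun p => if f p.1 p.2 ≠ 0 then D p.1 p.2 else 0)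
  have e1 : ∑ p : V × V, f p.1 p.2 * (if f p.1 p.2 ≠ 0 then D p.1 p.2 else 0) =
      ∑ x, ∑ j, f x j * D x j := by
    rw [Fintype.sum_prod_type]
    refine Finset.sum_congr rfl (fun x _ => Finset.sum_congr rfl (fun j _ => ?_))
    by_cases h0 : f x j = 0
    · simp [h0]
    · simp [h0]
  have e2 : ∑ p : V × V, f p.1 p.2 ^ 2 = ∑ x, ∑ j, f x j ^ 2 := by
    rw [Fintype.sum_prod_type]
  have e3 : ∑ p : V × V, (if f p.1 p.2 ≠ 0 then D p.1 p.2 else 0) ^ 2 =
      ∑ x, ∑ j, (if f x j ≠ 0 then D x j ^ 2 else 0) := by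
    rw [Fintype.sum_prod_type]
    refine Finset.sum_congr rfl (fun x _ => Finset.sum_congr rfl (fun j _ => ?_))
    by_cases h0 : f x j = 0
    · simp [h0]
    · simp [h0]
  rw [e1, e2, e3] at h
  exact h

/-- couplings at least `b` on the edges inside `A` give a resistance bound from flows -/
theorem FI_of_flows (G : SimpleGraph V) (K : V → V → ℝ) (hK : ∀ x j, 0 ≤ K x j)
    (A : Finset V) (y : V) (b R0 : ℝ) (hb : 0 < b)
    (hKA : ∀ x ∈ A, ∀ i ∈ A, G.Adj x i → b ≤ K x i)
    (hf : ∀ a ∈ A, ∃ f : V → V → ℝ, UFlow G A a y R0 f) : FI K A y (R0 / b) := by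
  intro a ha u
  obtain ⟨f, hfl⟩ := hf a ha
  have h1 := O6b_telescope f a y hfl.anti hfl.div u
  have h2 := O6b_cs f (fun x j => u x - u j)
  rw [← h1] at h2
  set E := ∑ x ∈ A, ∑ j ∈ A, K x j * (u x - u j) ^ 2 with hE
  set S2 := ∑ x, ∑ j, (if f x j ≠ 0 then (u x - u j) ^ 2 else 0) with hS2
  set S1 := ∑ x, ∑ j, f x j ^ 2 with hS1
  have hS1nn : 0 ≤ S1 := Finset.sum_nonneg (fun x _ => Finset.sum_nonneg (fun j _ => sq_nonneg _))
  have hS2nn : 0 ≤ S2 := Finset.sum_nonneg (fun x _ => Finset.sum_nonneg (fun j _ => by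
    split_ifs
    · exact sq_nonneg _
    · exact le_rfl))
  have hen : (1 / 2) * S1 ≤ R0 := hfl.en
  have h3 : b * S2 ≤ E := by
    have e1 : b * S2 = ∑ x ∈ A, ∑ j ∈ A, (if f x j ≠ 0 then b * (u x - u j) ^ 2 else 0) := by
      rw [hS2, Finset.mul_sum]
      symm
      rw [← Finset.sum_subset (Finset.subset_univ A)]
      · refine Finset.sum_congr rfl (fun x hx => ?_)
        rw [Finset.mul_sum]
        rw [← Finset.sum_subset (Finset.subset_univ A)]
        · refine Finset.sum_congr rfl (fun j hj => ?_)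
          split_ifs
          · rfl
          · rw [mul_zero]
        · intro j _ hj
          have h0 : f x j = 0 := by
            by_contra h0
            exact hj (hfl.supp x j h0).2.2
          simp [h0]
      · intro x _ hx
        rw [Finset.mul_sum]
        refine Finset.sum_eq_zero (fun j _ => ?_)
        have h0 : f x j = 0 := by
          by_contra h0
          exact hx (hfl.supp x j h0).2.1
        simp [h0]
    rw [e1, hE]
    refine Finset.sum_le_sum (fun x hx => Finset.sum_le_sum (fun j hj => ?_))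
    split_ifs with h0
    · exact mul_le_mul_of_nonneg_right (hKA x hx j hj (hfl.supp x j h0).1) (sq_nonneg _)
    · exact mul_nonneg (hK x j) (sq_nonneg _)
  have h4 : (u a - u y) ^ 2 ≤ R0 * ((1 / 2) * S2) := by
    have h5 : (2 * (u a - u y)) ^ 2 ≤ (2 * R0) * S2 :=
      h2.trans (mul_le_mul_of_nonneg_right (by linarith) hS2nn)
    nlinarith [h5]
  have hR0 : 0 ≤ R0 := le_trans (by positivity) hen
  calc (u a - u y) ^ 2 ≤ R0 * ((1 / 2) * S2) := h4
    _ = R0 / b * ((1 / 2) * (b * S2)) := by field_simp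
    _ ≤ R0 / b * ((1 / 2) * E) := by
        refine mul_le_mul_of_nonneg_left ?_ (div_nonneg hR0 hb.le)
        linarith

end Pool.Agent.LRO63
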