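import Pool.Agent.LRO63.O4b
import Pool.Agent.LRO63.O5a
import Pool.Agent.LRO63.O5b
import Pool.Agent.LRO63.O6a
import Pool.Agent.LRO63.O6b
import Pool.Agent.LRO63.X1

open MeasureTheory ComplexConjugate
open scoped ComplexOrder ENNReal

namespace Pool.Agent.LRO63

open Pool.Agent.helper71.XY Pool.Agent.helper71.XY.Defs

attribute [local instance] fact2pi

variable {N : ℕ} [NeZero N] {V : Type} [Fintype V] [DecidableEq V]

open Classical in
/-- variance of a transverse component on the good event -/
theorem var_le (j : Fin N) (hj : j ≠ 0) (G : SimpleGraph V) [DecidableRel G.Adj]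
    (t β M : ℝ) (ht : (N : ℝ) * t ^ 2 ≤ 1 / 4) (hβ : 0 < β) (hM : 0 < M) (hβM : 24 * M ≤ β)
    (S : Finset V) (y x : V) (hy : y ∈ S) (hx : x ∈ S)
    (hfull : ∀ z ∈ S, ∀ u : V → ℝ, (u z - u y) ^ 2 ≤ M * ((1 / 2) * ∑ w ∈ S, ∑ i ∈ S,
      (if G.Adj w i then (u w - u i) ^ 2 else 0))) :
    ∫ σ, (if Good t S σ then co (σ x) j ^ 2 else 0) * wt G β σ
        ∂(Measure.pi (pinS (N := N) y))
      ≤ (9 / 2 * M / β) * ∫ σ, wt G β σ ∂(Measure.pi (pinS (N := N) y)) := by
  have hcx : Continuous fun σ : V → Sph N => co (σ x) j :=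
    (continuous_co j).comp (continuous_apply x)
  have hBm : Measurable fun σ : V → Sph N => if Good t S σ then co (σ x) j ^ 2 else 0 :=
    Measurable.ite (measurableSet_good t S) (hcx.pow 2).measurable measurable_const
  have hBb : ∀ σ : V → Sph N, |if Good t S σ then co (σ x) j ^ 2 else 0| ≤ 1 := by
    intro σ
    split_ifs
    · rw [abs_pow]
      exact pow_le_one₀ (abs_nonneg _) (abs_co_le _ _)
    · simp
  refine env_le j hj y (fun σ => if Good t S σ then co (σ x) j ^ 2 else 0) (wt G β) hBm
    (continuous_wt G β) 1 hBb _ ?_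
  intro σ hσ
  obtain ⟨τ, hτy, hτ, hint⟩ := base j hj y σ hσ
  rw [hint (fun σ => (if Good t S σ then co (σ x) j ^ 2 else 0) * wt G β σ), hint (wt G β)]
  obtain ⟨c, hc, hwt⟩ := wt_ro j hj G β τ fun x => (hτ x).2.1
  set K := KK G β τ with hKdef
  have hK : ∀ x i, 0 ≤ K x i := by
    intro x i
    rw [hKdef]
    unfold KK
    apply mul_nonneg
    · apply mul_nonneg hβ.le
      split_ifs <;> norm_num
    · exact mul_nonneg (hτ x).1 (hτ i).1
  have h2 : ∫ φ, wt G β (roV j hj φ τ) ∂(Measure.pi (pinM y))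
      = c * II (pinM y) K (fun _ => 1) := by
    unfold II
    rw [← integral_const_mul]
    congr 1
    funext φ
    rw [hwt φ, mul_one]
  have hZ : 0 < II (pinM y) K (fun _ => 1) := II_pos _ _
  rw [h2]
  by_cases hex : ∃ φ : V → T, Good t S (roV j hj φ τ)
  · obtain ⟨φ0, hφ0⟩ := hex
    have hrad : ∀ a ∈ S, 3 / 4 ≤ co (τ a) 0 ^ 2 := fun a ha =>
      good_radius j hj t ht S τ (fun x => ⟨(hτ x).1, (hτ x).2.1⟩) φ0 hφ0 a ha
    have hKb : ∀ w ∈ S, ∀ i ∈ S, G.Adj w i → β * (3 / 4) ≤ K w i := by
      intro w hw i hi hadj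
      rw [hKdef]
      unfold KK
      rw [if_pos hadj, mul_one]
      apply mul_le_mul_of_nonneg_left _ hβ.le
      have h5 := hrad w hw
      have h6 := hrad i hi
      have h7 : (3 / 4) ^ 2 ≤ (co (τ w) 0 * co (τ i) 0) ^ 2 := by
        rw [mul_pow]
        nlinarith
      exact (abs_le_of_sq_le_sq' h7 (mul_nonneg (hτ w).1 (hτ i).1)).2
    have hb : 0 < β * (3 / 4) := by positivity
    have hFI : FI K S y (M / (β * (3 / 4))) := by
      intro a ha u
      refine (hfull a ha u).trans ?_
      have h8 : M / (β * (3 / 4)) * ((1 / 2) * ∑ x ∈ S, ∑ j ∈ S, K x j * (u x - u j) ^ 2)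
          = M * ((1 / 2) * ∑ x ∈ S, ∑ j ∈ S, (K x j * (u x - u j) ^ 2) / (β * (3 / 4))) := by
        simp only [← Finset.sum_div]
        field_simp
      rw [h8]
      apply mul_le_mul_of_nonneg_left _ hM.le
      apply mul_le_mul_of_nonneg_left _ (by norm_num)
      refine Finset.sum_le_sum fun w hw => Finset.sum_le_sum fun i hi => ?_
      split_ifs with hadj
      · rw [le_div_iff₀ hb, mul_comm]
        exact mul_le_mul_of_nonneg_right (hKb w hw i hi hadj) (sq_nonneg _)
      · exact div_nonneg (mul_nonneg (hK w i) (sq_nonneg _)) hb.le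
    have hR0 : 0 ≤ M / (β * (3 / 4)) := by positivity
    have hR : M / (β * (3 / 4)) ≤ 1 / 12 := by
      rw [div_le_iff₀ hb]
      linarith
    obtain ⟨g1, _, g3, g4⟩ := boot K hK S y hy _ hR0 hR hFI x hx
    have hG : Gn (pinM y) K x x ≤ 9 / 2 * M / β := by
      have h9 : mn (pinM y) K x ^ 2 ≤ 1 := by nlinarith
      have h10 : 9 / 4 * (M / (β * (3 / 4))) * mn (pinM y) K x ^ 2
          ≤ 9 / 4 * (M / (β * (3 / 4))) * 1 := mul_le_mul_of_nonneg_left h9 (by positivity)
      have h11 : 9 / 4 * (M / (β * (3 / 4))) * 1 ≤ 9 / 2 * M / β := by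
        have : 9 / 4 * (M / (β * (3 / 4))) * 1 = 3 * M / β := by
          field_simp
          ring
        rw [this]
        apply div_le_div_of_nonneg_right _ hβ.le
        linarith
      linarith
    have hII : II (pinM y) K (fun θ => sq x θ * sq x θ)
        = Gn (pinM y) K x x * II (pinM y) K (fun _ => 1) := by
      unfold Gn
      rw [div_mul_cancel₀ _ hZ.ne']
    have h12 : ∫ φ, (if Good t S (roV j hj φ τ) then co (roV j hj φ τ x) j ^ 2 else 0)
          * wt G β (roV j hj φ τ) ∂(Measure.pi (pinM y))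
        ≤ c * II (pinM y) K (fun θ => sq x θ * sq x θ) := by
      unfold II
      rw [← integral_const_mul]
      have hi2 : Integrable (fun θ : V → T => c * (W K θ * (sq x θ * sq x θ)))
          (Measure.pi (pinM y)) := by
        apply integrable_of_continuous
        have := continuous_sq (V := V)
        have := continuous_W K
        fun_prop
      refine integral_mono_of_nonneg (Filter.Eventually.of_forall fun φ => ?_) hi2
        (Filter.Eventually.of_forall fun φ => ?_)
      · refine mul_nonneg ?_ (Real.exp_pos _).le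
        split_ifs
        · exact sq_nonneg _
        · exact le_rfl
      · simp only
        rw [hwt φ]
        have hW : 0 ≤ c * W K φ := mul_nonneg hc.le (Real.exp_pos _).le
        have h13 : (if Good t S (roV j hj φ τ) then co (roV j hj φ τ x) j ^ 2 else 0)
            ≤ sq x φ * sq x φ := by
          split_ifs
          · rw [co_roV_j j hj τ x (hτ x).2.1 φ]
            have h14 := abs_co_le (τ x) 0
            have h15 : co (τ x) 0 ^ 2 ≤ 1 := by
              rw [← sq_abs]
              exact pow_le_one₀ (abs_nonneg _) h14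
            rw [mul_pow]
            nlinarith [sq_nonneg (Pool.Agent.helper71.XY.sq x φ)]
          · exact mul_self_nonneg _
        calc _ ≤ (sq x φ * sq x φ) * (c * W K φ) := mul_le_mul_of_nonneg_right h13 hW
          _ = c * (W K φ * (sq x φ * sq x φ)) := by ring
    rw [hII] at h12
    refine h12.trans ?_
    have h16 : Gn (pinM y) K x x * II (pinM y) K (fun _ => 1)
        ≤ 9 / 2 * M / β * II (pinM y) K (fun _ => 1) := mul_le_mul_of_nonneg_right hG hZ.le
    calc c * (Gn (pinM y) K x x * II (pinM y) K fun _ => 1)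
        ≤ c * (9 / 2 * M / β * II (pinM y) K fun _ => 1) := mul_le_mul_of_nonneg_left h16 hc.le
      _ = _ := by ring
  · have hex' : ∀ φ : V → T, ¬ Good t S (roV j hj φ τ) := fun φ h => hex ⟨φ, h⟩
    have h17 : ∀ φ : V → T, (if Good t S (roV j hj φ τ) then co (roV j hj φ τ x) j ^ 2 else 0)
          * wt G β (roV j hj φ τ) = 0 := by
      intro φ
      rw [if_neg (hex' φ), zero_mul]
    simp only [h17, integral_zero]
    positivity

end Pool.Agent.LRO63
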