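import Pool.Agent.LRO63.O2a

open MeasureTheory ComplexConjugate
open scoped ComplexOrder ENNReal Pointwise

namespace Pool.Agent.LRO63

open Pool.Agent.helper71.XY Pool.Agent.helper71.XY.Defs

attribute [local instance] fact2pi

variable {N : ℕ} [NeZero N]

/-- transitivity -/
theorem exists_act (p : Sph N) :
    ∃ L : EuclideanSpace ℝ (Fin N) ≃ₗᵢ[ℝ] EuclideanSpace ℝ (Fin N), act L e0 = p := by
  have h1 : ‖((e0 : Sph N) : EuclideanSpace ℝ (Fin N))‖ = ‖(p : EuclideanSpace ℝ (Fin N))‖ := by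
    rw [mem_sphere_zero_iff_norm.1 (e0 : Sph N).2, mem_sphere_zero_iff_norm.1 p.2]
  refine ⟨(Submodule.span ℝ {((e0 : Sph N) : EuclideanSpace ℝ (Fin N)) -
    (p : EuclideanSpace ℝ (Fin N))})ᗮ.reflection, ?_⟩
  apply Subtype.ext
  exact Submodule.reflection_sub h1

theorem dot_act (L : EuclideanSpace ℝ (Fin N) ≃ₗᵢ[ℝ] EuclideanSpace ℝ (Fin N)) (s t : Sph N) :
    dot (act L s) (act L t) = dot s t := by
  unfold dot act
  exact LinearIsometryEquiv.inner_map_map L _ _

end Pool.Agent.LRO63
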