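import Pool.Agent.LRO63.O3a
import Pool.Agent.LRO63.O2b

open MeasureTheory ComplexConjugate
open scoped ComplexOrder ENNReal

namespace Pool.Agent.LRO63

open Pool.Agent.helper71.XY Pool.Agent.helper71.XY.Defs

attribute [local instance] fact2pi

variable {N : ℕ} [NeZero N] {V : Type} [Fintype V] [DecidableEq V]

private def O3b_glue (y : V) (a : Sph N) (r : {x : V // ¬ x = y} → Sph N) (x : V) : Sph N :=
  if h : x = y then a else r ⟨x, h⟩

private lemma O3b_continuous_glue (y : V) :
    Continuous fun p : Sph N × ({x : V // ¬ x = y} → Sph N) => O3b_glue y p.1 p.2 := by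
  apply continuous_pi
  intro x
  unfold O3b_glue
  by_cases h : x = y
  · simp only [h, dif_pos]
    exact continuous_fst
  · simp only [h, dif_neg, not_false_iff]
    exact (continuous_apply _).comp continuous_snd

private lemma O3b_integrable {X : Type*} [TopologicalSpace X] [CompactSpace X]
    [MeasurableSpace X] [OpensMeasurableSpace X] (μ : Measure X) [IsFiniteMeasure μ]
    {F : X → ℝ} (hF : Continuous F) : Integrable F μ := by
  obtain ⟨C, hC⟩ := (isCompact_univ (X := X)).exists_bound_of_continuousOn hF.continuousOn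
  exact Integrable.of_bound hF.aestronglyMeasurable C
    (Filter.Eventually.of_forall fun σ => hC σ (Set.mem_univ _))

private lemma O3b_split (ν : V → Measure (Sph N)) [∀ x, IsFiniteMeasure (ν x)] (y : V)
    (F : (V → Sph N) → ℝ) (hF : Continuous F) :
    ∫ θ, F θ ∂(Measure.pi ν)
      = ∫ a, (∫ r, F (O3b_glue y a r)
        ∂(Measure.pi fun i : {x // ¬ x = y} => ν i)) ∂(ν y) := by
  have h1 := measurePreserving_piEquivPiSubtypeProd ν (fun x => x = y)
  have heq : (Subtype.fintype fun x => x = y) = Fintype.subtypeEq y := Subsingleton.elim _ _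
  rw [heq] at h1
  have h2 := (measurePreserving_piUnique (fun i : {x // x = y} => ν i)).prod
    (MeasurePreserving.id (Measure.pi fun i : {x // ¬ x = y} => ν i))
  have h3 := h2.comp h1
  have hF' : Continuous fun p : Sph N × ({x : V // ¬ x = y} → Sph N) =>
      F (O3b_glue y p.1 p.2) := hF.comp (O3b_continuous_glue y)
  have h4 : ∫ θ, F θ ∂(Measure.pi ν)
      = ∫ p, F (O3b_glue y p.1 p.2)
        ∂((ν y).prod (Measure.pi fun i : {x // ¬ x = y} => ν i)) := by
    have h5 : ((ν y).prod (Measure.pi fun i : {x // ¬ x = y} => ν i))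
        = Measure.map _ (Measure.pi ν) := h3.map_eq.symm
    rw [h5, integral_map
      (f := fun p : Sph N × ({x : V // ¬ x = y} → Sph N) => F (O3b_glue y p.1 p.2))
      h3.measurable.aemeasurable hF'.aestronglyMeasurable]
    congr 1
    funext θ
    congr 1
    funext x
    unfold O3b_glue
    by_cases h : x = y
    · subst h
      simp
      rfl
    · simp [h]
  rw [h4, integral_prod]
  exact O3b_integrable _ hF'

private lemma O3b_unpin (y : V) (F : (V → Sph N) → ℝ) (hF : Continuous F)
    (hinv : ∀ (L : EuclideanSpace ℝ (Fin N) ≃ₗᵢ[ℝ] EuclideanSpace ℝ (Fin N)) (σ : V → Sph N),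
      F (fun x => act L (σ x)) = F σ) :
    ∫ σ, F σ ∂(Measure.pi fun _ : V => surf N)
      = (surf N).real Set.univ * ∫ σ, F σ ∂(Measure.pi (pinS (N := N) y)) := by
  rw [O3b_split (fun _ => surf N) y F hF, O3b_split (pinS y) y F hF]
  have h1 : (fun i : {x // ¬ x = y} => pinS (N := N) y i) = fun _ => surf N := by
    funext i
    unfold pinS
    rw [if_neg i.2]
  have h0 : pinS (N := N) y y = Measure.dirac e0 := by
    unfold pinS
    rw [if_pos rfl]
  rw [h1, h0, integral_dirac]
  have h2 : ∀ a : Sph N, ∫ r, F (O3b_glue y a r) ∂(Measure.pi fun _ : {x // ¬ x = y} => surf N)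
      = ∫ r, F (O3b_glue y e0 r) ∂(Measure.pi fun _ : {x // ¬ x = y} => surf N) := by
    intro a
    obtain ⟨L, hL⟩ := exists_act a
    have hmp : MeasurePreserving (fun (r : {x : V // ¬ x = y} → Sph N) i => act L (r i))
        (Measure.pi fun _ : {x // ¬ x = y} => surf N)
        (Measure.pi fun _ : {x // ¬ x = y} => surf N) :=
      measurePreserving_pi _ _ fun _ => act_mp L
    have hc : Continuous fun r : {x : V // ¬ x = y} → Sph N => F (O3b_glue y a r) :=
      (hF.comp (O3b_continuous_glue y)).comp (Continuous.prodMk_right a)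
    conv_lhs => rw [← hmp.map_eq]
    rw [integral_map hmp.measurable.aemeasurable hc.aestronglyMeasurable]
    congr 1
    funext r
    rw [← hinv L (O3b_glue y e0 r)]
    congr 1
    funext x
    unfold O3b_glue
    by_cases h : x = y
    · simp [h, hL]
    · simp [h]
  simp_rw [h2]
  rw [integral_const]
  simp

private lemma O3b_interaction (G : SimpleGraph V) [DecidableRel G.Adj]
    (L : EuclideanSpace ℝ (Fin N) ≃ₗᵢ[ℝ] EuclideanSpace ℝ (Fin N)) (σ : V → Sph N) :
    interaction G (fun x => act L (σ x)) = interaction G σ := by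
  unfold Defs.interaction
  refine Finset.sum_congr rfl fun e _ => ?_
  induction e using Sym2.ind with
  | _ u v => simp only [Sym2.lift_mk, dot_act]

/-- the two point function is a one point function of the pinned model -/
theorem twoPoint_pin (hN : 1 ≤ N) (G : SimpleGraph V) [DecidableRel G.Adj] (β : ℝ) (x y : V) :
    twoPoint G N β x y = (∫ σ, co (σ x) 0 * wt G β σ ∂(Measure.pi (pinS (N := N) y)))
      / ∫ σ, wt G β σ ∂(Measure.pi (pinS (N := N) y)) := by
  have hcw := continuous_wt (N := N) G β
  have hcd : Continuous fun σ : V → Sph N => dot (σ x) (σ y) := by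
    unfold Defs.dot
    exact Continuous.inner (continuous_subtype_val.comp (continuous_apply x))
      (continuous_subtype_val.comp (continuous_apply y))
  have hnum := O3b_unpin y (fun σ : V → Sph N => dot (σ x) (σ y) * wt G β σ) (hcd.mul hcw)
    (fun L σ => by
      simp only [dot_act]
      unfold wt
      rw [O3b_interaction])
  have hden := O3b_unpin y (fun σ : V → Sph N => wt G β σ) hcw
    (fun L σ => by
      unfold wt
      rw [O3b_interaction])
  have hae : ∫ σ, dot (σ x) (σ y) * wt G β σ ∂(Measure.pi (pinS (N := N) y))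
      = ∫ σ, co (σ x) 0 * wt G β σ ∂(Measure.pi (pinS (N := N) y)) := by
    apply integral_congr_ae
    filter_upwards [pin_ae (N := N) y] with σ hσ
    rw [hσ, dot_eq]
    have : ∑ j, co (σ x) j * co (e0 : Sph N) j = co (σ x) 0 := by
      rw [Finset.sum_eq_single 0]
      · rw [co_e0, if_pos rfl, mul_one]
      · intro j _ hj
        rw [co_e0, if_neg hj, mul_zero]
      · intro h
        exact absurd (Finset.mem_univ _) h
    rw [this]
  have hpos : 0 < ∫ σ, wt G β σ ∂(Measure.pi (pinS (N := N) y)) := wt_pos_int G hN β y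
  have hsurf : (surf N).real Set.univ ≠ 0 := by
    rw [Measure.toSphere_real_apply_univ]
    refine mul_ne_zero ?_ ?_
    · rw [finrank_euclideanSpace_fin]
      exact_mod_cast NeZero.ne N
    · exact (ENNReal.toReal_pos (Metric.measure_ball_pos _ _ one_pos).ne'
        measure_ball_lt_top.ne).ne'
  have e1 : twoPoint G N β x y
      = (∫ σ : V → Sph N, dot (σ x) (σ y) * wt G β σ ∂(Measure.pi fun _ : V => surf N))
        / ∫ σ : V → Sph N, wt G β σ ∂(Measure.pi fun _ : V => surf N) := rfl
  rw [e1, hnum, hden, hae, mul_div_mul_left _ _ hsurf]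

end Pool.Agent.LRO63
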