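import Pool.Agent.LRO63.E9
import Pool.Agent.helper71.XY.Pin

open scoped ENNReal

namespace Pool.Agent.LRO63

open Pool.Agent.helper36.IsingDefs

variable {V : Type} [Fintype V] [DecidableEq V] (G : SimpleGraph V) [DecidableRel G.Adj]

open Classical in
/-- extension by zero -/
private noncomputable def T1_ext (S : Finset V)
    (f : ↥(S : Set V) → ↥(S : Set V) → ℝ) (a b : V) : ℝ :=
  if h : a ∈ (S : Set V) ∧ b ∈ (S : Set V) then f ⟨a, h.1⟩ ⟨b, h.2⟩ else 0

private lemma T1_ext_pos (S : Finset V) (f : ↥(S : Set V) → ↥(S : Set V) → ℝ)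
    (a b : ↥(S : Set V)) : T1_ext S f a.1 b.1 = f a b := by
  unfold T1_ext
  rw [dif_pos ⟨a.2, b.2⟩]

private lemma T1_ext_left (S : Finset V) (f : ↥(S : Set V) → ↥(S : Set V) → ℝ)
    (a b : V) (ha : a ∉ S) : T1_ext S f a b = 0 := by
  unfold T1_ext
  rw [dif_neg]
  intro h
  exact ha (Finset.mem_coe.1 h.1)

private lemma T1_ext_right (S : Finset V) (f : ↥(S : Set V) → ↥(S : Set V) → ℝ)
    (a b : V) (hb : b ∉ S) : T1_ext S f a b = 0 := by
  unfold T1_ext
  rw [dif_neg]
  intro h
  exact hb (Finset.mem_coe.1 h.2)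

private lemma T1_sum (S : Finset V) (g : V → ℝ) (hg : ∀ x, x ∉ S → g x = 0)
    (h : ↥(S : Set V) → ℝ) (hgh : ∀ w : (S : Set V), g w.1 = h w) : ∑ x, g x = ∑ w, h w := by
  have h1 : ∑ x, g x = ∑ x ∈ S, g x :=
    (Finset.sum_subset (Finset.subset_univ S) (fun x _ hx => hg x hx)).symm
  have h2 : ∑ x ∈ S, g x = ∑ w : (S : Set V), g w.1 :=
    Finset.sum_subtype S (fun x => (Finset.mem_coe).symm) g
  rw [h1, h2]
  exact Finset.sum_congr rfl fun w _ => hgh w

private lemma T1_sum' (S : Finset V) (g : V → ℝ) :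
    ∑ x ∈ S, g x = ∑ w : (S : Set V), g w.1 :=
  Finset.sum_subtype S (fun x => (Finset.mem_coe).symm) g

private lemma T1_card (S : Finset V) : Fintype.card (S : Set V) = S.card := by
  simp

private lemma T1_energy (S : Finset V) (u : V → ℝ) :
    Pool.Agent.helper36.IsingRes.energy (G.induce (S : Set V)) (fun w => u w.1)
      = (1 / 2) * ∑ x ∈ S, ∑ j ∈ S, (if G.Adj x j then (u x - u j) ^ 2 else 0) := by
  unfold Pool.Agent.helper36.IsingRes.energy
  rw [T1_sum' S]
  rw [div_eq_inv_mul, one_div]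
  congr 1
  refine Finset.sum_congr rfl fun w _ => ?_
  rw [T1_sum' S, SimpleGraph.neighborFinset_eq_filter, Finset.sum_filter]
  rfl

private lemma T1_energy' (W : Type) [Fintype W] [DecidableEq W] (H : SimpleGraph W)
    [DecidableRel H.Adj] (g : W → ℝ) :
    Pool.Agent.helper36.IsingRes.energy H g = en H g := by
  unfold Pool.Agent.helper36.IsingRes.energy en
  rw [div_eq_inv_mul, one_div]
  congr 1
  refine Finset.sum_congr rfl fun w _ => ?_
  rw [SimpleGraph.neighborFinset_eq_filter, Finset.sum_filter]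

private lemma T1_nontrivial (S : Finset V) (h2 : 2 ≤ S.card) : Nontrivial (S : Set V) := by
  rw [← Fintype.one_lt_card_iff_nontrivial, T1_card]
  omega

/-- the ordering lemma for an induced subgraph -/
theorem chainV (S : Finset V) {M : ℝ} (hM : 0 < M) (h2 : 2 ≤ S.card)
    (hconn : (G.induce (S : Set V)).Connected)
    (hG : greenMax (G.induce (S : Set V)) ≤ ENNReal.ofReal M) (y : V) (hy : y ∈ S) :
    ∃ v : ℕ → V, v 0 = y ∧ (∀ i, v i ∈ S) ∧ (∀ w ∈ S, ∃ i, i < S.card ∧ v i = w) ∧
      ∀ i, 0 < i → i < S.card → v i ∉ (Finset.range i).image v ∧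
        ∃ f : V → V → ℝ, UFlow G ((Finset.range (i + 1)).image v) (v i) y
          ((2 * M + 1) * (1 + 2 * Real.log S.card)) f := by
  have hPM : PM (G.induce (S : Set V)) M := by
    intro z w g
    rw [← T1_energy']
    exact Pool.Agent.helper36.IsingRes.dirichlet (G.induce (S : Set V)) hconn
      (T1_nontrivial S h2) M hM.le hG z w g
  obtain ⟨v, hv0, hvs, hvi⟩ := chain (G.induce (S : Set V)) hconn hM hPM
    ⟨y, Finset.mem_coe.2 hy⟩
  rw [T1_card] at hvs hvi
  refine ⟨fun i => (v i).1, by simp only [hv0], fun i => Finset.mem_coe.1 (v i).2, ?_, ?_⟩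
  · intro w hw
    obtain ⟨i, hi, hiw⟩ := hvs ⟨w, Finset.mem_coe.2 hw⟩
    exact ⟨i, hi, congrArg Subtype.val hiw⟩
  · intro i hi0 hi
    obtain ⟨h1, f, hf⟩ := hvi i hi0 hi
    refine ⟨?_, T1_ext S f, ?_, ?_, ?_, ?_⟩
    · intro hmem
      apply h1
      rw [Finset.mem_image] at hmem ⊢
      obtain ⟨j, hj, hjv⟩ := hmem
      exact ⟨j, hj, Subtype.ext hjv⟩
    · intro a b
      by_cases ha : a ∈ S
      · by_cases hb : b ∈ S
        · have e1 := T1_ext_pos S f ⟨a, Finset.mem_coe.2 ha⟩ ⟨b, Finset.mem_coe.2 hb⟩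
          have e2 := T1_ext_pos S f ⟨b, Finset.mem_coe.2 hb⟩ ⟨a, Finset.mem_coe.2 ha⟩
          simp only at e1 e2
          rw [e1, e2]
          exact hf.anti _ _
        · rw [T1_ext_right S f a b hb, T1_ext_left S f b a hb, neg_zero]
      · rw [T1_ext_left S f a b ha, T1_ext_right S f b a ha, neg_zero]
    · intro a b hab
      have ha : a ∈ S := by
        by_contra h
        exact hab (T1_ext_left S f a b h)
      have hb : b ∈ S := by
        by_contra h
        exact hab (T1_ext_right S f a b h)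
      have e1 := T1_ext_pos S f ⟨a, Finset.mem_coe.2 ha⟩ ⟨b, Finset.mem_coe.2 hb⟩
      simp only at e1
      rw [e1] at hab
      obtain ⟨hadj, h3, h4⟩ := hf.supp _ _ hab
      refine ⟨hadj, ?_, ?_⟩
      · rw [Finset.mem_image] at h3 ⊢
        obtain ⟨j, hj, hjv⟩ := h3
        exact ⟨j, hj, by rw [hjv]⟩
      · rw [Finset.mem_image] at h4 ⊢
        obtain ⟨j, hj, hjv⟩ := h4
        exact ⟨j, hj, by rw [hjv]⟩
    · intro a
      by_cases ha : a ∈ S
      · have e1 := T1_sum S (fun b => T1_ext S f a b) (fun x hx => T1_ext_right S f a x hx)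
          (fun b => f ⟨a, Finset.mem_coe.2 ha⟩ b)
          (fun w => T1_ext_pos S f ⟨a, Finset.mem_coe.2 ha⟩ w)
        rw [e1, hf.div]
        congr 1
        · by_cases h : a = (v i).1
          · rw [if_pos h, if_pos (Subtype.ext h)]
          · rw [if_neg h, if_neg]
            intro h'
            apply h
            rw [← h']
        · by_cases h : a = y
          · rw [if_pos h, if_pos (Subtype.ext h)]
          · rw [if_neg h, if_neg]
            intro h'
            apply h
            exact congrArg Subtype.val h'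
      · rw [if_neg, if_neg, sub_zero]
        · exact Finset.sum_eq_zero fun b _ => T1_ext_left S f a b ha
        · intro h
          exact ha (h ▸ hy)
        · intro h
          apply ha
          rw [h]
          exact Finset.mem_coe.1 (v i).2
    · have e1 := T1_sum S (fun a => ∑ b, T1_ext S f a b ^ 2)
        (fun x hx => Finset.sum_eq_zero fun b _ => by rw [T1_ext_left S f x b hx]; ring)
        (fun a => ∑ b, f a b ^ 2)
        (fun a => T1_sum S (fun b => T1_ext S f a.1 b ^ 2)
          (fun x hx => by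
            show T1_ext S f a.1 x ^ 2 = 0
            rw [T1_ext_right S f a.1 x hx]; ring)
          (fun b => f a b ^ 2)
          (fun w => by
            show T1_ext S f a.1 w.1 ^ 2 = f a w ^ 2
            rw [T1_ext_pos]))
      rw [e1]
      exact hf.en

/-- the resistance bound inside `S` -/
theorem fullV (S : Finset V) {M : ℝ} (hM : 0 < M) (h2 : 2 ≤ S.card)
    (hconn : (G.induce (S : Set V)).Connected)
    (hG : greenMax (G.induce (S : Set V)) ≤ ENNReal.ofReal M) (y z : V) (hy : y ∈ S)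
    (hz : z ∈ S) (u : V → ℝ) :
    (u z - u y) ^ 2 ≤ M * ((1 / 2) * ∑ x ∈ S, ∑ j ∈ S,
      (if G.Adj x j then (u x - u j) ^ 2 else 0)) := by
  have h := Pool.Agent.helper36.IsingRes.dirichlet (G.induce (S : Set V)) hconn
      (T1_nontrivial S h2) M hM.le hG ⟨z, Finset.mem_coe.2 hz⟩ ⟨y, Finset.mem_coe.2 hy⟩
      (fun w => u w.1)
  rw [T1_energy] at h
  exact h

end Pool.Agent.LRO63
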