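import Pool.Agent.LRO63.O9b
import Pool.Agent.LRO63.O3b
import Pool.Agent.LRO63.O10
import Pool.Agent.LRO63.T1

open MeasureTheory ComplexConjugate
open scoped ComplexOrder ENNReal

namespace Pool.Agent.LRO63

open Pool.Agent.helper71.XY Pool.Agent.helper71.XY.Defs Pool.Agent.helper36.IsingDefs

attribute [local instance] fact2pi

variable {N : ℕ} [NeZero N] {V : Type} [Fintype V] [DecidableEq V]

/-- bounded measurable functions times the weight are integrable -/
private lemma F1_int (G : SimpleGraph V) [DecidableRel G.Adj] (β : ℝ) (y : V)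
    (F : (V → Sph N) → ℝ) (hF : Measurable F) (c : ℝ) (hc : ∀ σ, |F σ| ≤ c) :
    Integrable (fun σ => F σ * wt G β σ) (Measure.pi (pinS (N := N) y)) := by
  have h1 : Integrable (wt (N := N) G β) (Measure.pi (pinS (N := N) y)) :=
    (continuous_wt G β).integrable_of_hasCompactSupport (HasCompactSupport.of_compactSpace _)
  exact h1.bdd_mul (c := c) hF.aestronglyMeasurable
    (Filter.Eventually.of_forall fun σ => by rw [Real.norm_eq_abs]; exact hc σ)

private lemma F1_meas (j : Fin N) (x : V) : Measurable fun σ : V → Sph N => co (σ x) j :=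
  ((continuous_co j).comp (continuous_apply x)).measurable

open Classical in
private lemma F1_pt (t : ℝ) (S : Finset V) (x : V) (hx : x ∈ S) (σ : V → Sph N) :
    1 - co (σ x) 0 ≤ ∑ k ∈ Finset.univ.erase (0 : Fin N),
      (if Good t S σ then co (σ x) k ^ 2 else 0) + 2 * (if Good t S σ then 0 else 1) := by
  have habs := abs_le.1 (abs_co_le (σ x) 0)
  by_cases h : Good t S σ
  · have h0 := (h x hx).1
    have h1 := sum_co_sq (σ x)
    rw [← Finset.add_sum_erase _ _ (Finset.mem_univ (0 : Fin N))] at h1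
    simp only [if_pos h, mul_zero, add_zero]
    nlinarith
  · simp only [if_neg h, Finset.sum_const_zero, zero_add, mul_one]
    linarith

/-- the two point function in terms of the bounds above -/
theorem two_ge (hN : 2 ≤ N) (G : SimpleGraph V) [DecidableRel G.Adj]
    (t β M R0 : ℝ) (ht0 : 0 < t) (ht : (N : ℝ) * t ^ 2 ≤ 1 / 4) (ht1 : t ≤ 1 / 2) (hβ : 0 < β)
    (hM : 0 < M) (hβM : 24 * M ≤ β) (S : Finset V) (h2 : 2 ≤ S.card)
    (hconn : (G.induce (S : Set V)).Connected)
    (hG : greenMax (G.induce (S : Set V)) ≤ ENNReal.ofReal M)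
    (hR0 : R0 = (2 * M + 1) * (1 + 2 * Real.log S.card)) (hβR : 24 * R0 ≤ t * β)
    (x y : V) (hx : x ∈ S) (hy : y ∈ S) :
    1 - (9 / 2 * N * M / β + 2 * (S.card * (2 * N * Real.exp (-(t ^ 3 * β / (36 * R0))))))
      ≤ twoPoint G N β x y := by
  classical
  obtain ⟨v, hv0, hvS, hcov, hfl⟩ := chainV G S hM h2 hconn hG y hy
  have hlog : 0 ≤ Real.log S.card := Real.log_nonneg (by exact_mod_cast (by omega))
  have hR1 : 1 ≤ R0 := by rw [hR0]; nlinarith
  have hZpos := wt_pos_int (N := N) G (by omega) β y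
  have hbad := bad_le hN G t β R0 ht0 ht ht1 hβ hR1 hβR S y v S.card (by omega) hv0 hcov
    (by rw [hR0]; exact hfl)
  have hvar := fun (j : Fin N) (hj : j ≠ 0) => var_le j hj G t β M ht hβ hM hβM S y x hy hx
    (fun z hz u => fullV G S hM h2 hconn hG y z hy hz u)
  rw [twoPoint_pin (by omega) G β x y]
  set μ := Measure.pi (pinS (N := N) y) with hμ
  set Z := ∫ σ, wt G β σ ∂μ with hZ
  set g : ℝ := S.card * (2 * N * Real.exp (-(t ^ 3 * β / (36 * R0)))) with hg
  rw [le_div_iff₀ hZpos]
  -- integrability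
  have hgm : Measurable fun σ : V → Sph N => (if Good t S σ then (0 : ℝ) else 1) :=
    Measurable.ite (measurableSet_good t S) measurable_const measurable_const
  have hi1 : Integrable (fun σ => co (σ x) 0 * wt G β σ) μ :=
    F1_int G β y _ (F1_meas 0 x) 1 (fun σ => abs_co_le _ _)
  have hi0 : Integrable (fun σ => wt G β σ) μ := by
    simpa using F1_int (N := N) G β y (fun _ => 1) measurable_const 1 (fun σ => by simp)
  have hi2 : Integrable (fun σ => (if Good t S σ then (0 : ℝ) else 1) * wt G β σ) μ :=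
    F1_int G β y _ hgm 1 (fun σ => by split_ifs <;> simp)
  have hi3 : ∀ k : Fin N,
      Integrable (fun σ => (if Good t S σ then co (σ x) k ^ 2 else 0) * wt G β σ) μ := by
    intro k
    refine F1_int G β y _ (Measurable.ite (measurableSet_good t S) ((F1_meas k x).pow_const 2)
      measurable_const) 1 (fun σ => ?_)
    split_ifs
    · rw [abs_of_nonneg (sq_nonneg _)]
      have := abs_co_le (σ x) k
      rw [← sq_abs]
      exact pow_le_one₀ (abs_nonneg _) this
    · simp
  -- the pointwise bound, integrated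
  have hmain : ∫ σ, (1 - co (σ x) 0) * wt G β σ ∂μ ≤
      ∫ σ, (∑ k ∈ Finset.univ.erase (0 : Fin N),
        (if Good t S σ then co (σ x) k ^ 2 else 0) * wt G β σ +
        2 * ((if Good t S σ then (0 : ℝ) else 1) * wt G β σ)) ∂μ := by
    refine integral_mono ?_ ?_ (fun σ => ?_)
    · have := hi0.sub hi1
      refine this.congr (Filter.Eventually.of_forall fun σ => ?_)
      show wt G β σ - co (σ x) 0 * wt G β σ = (1 - co (σ x) 0) * wt G β σ
      ring
    · exact (integrable_finsetSum _ (fun k _ => hi3 k)).add (hi2.const_mul 2)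
    · show (1 - co (σ x) 0) * wt G β σ ≤ ∑ k ∈ Finset.univ.erase (0 : Fin N),
        (if Good t S σ then co (σ x) k ^ 2 else 0) * wt G β σ +
        2 * ((if Good t S σ then (0 : ℝ) else 1) * wt G β σ)
      rw [← Finset.sum_mul, ← mul_assoc, ← add_mul]
      exact mul_le_mul_of_nonneg_right (F1_pt t S x hx σ) (Real.exp_pos _).le
  have hleft : ∫ σ, (1 - co (σ x) 0) * wt G β σ ∂μ = Z - ∫ σ, co (σ x) 0 * wt G β σ ∂μ := by
    rw [hZ, ← integral_sub hi0 hi1]
    refine integral_congr_ae (Filter.Eventually.of_forall fun σ => ?_)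
    show (1 - co (σ x) 0) * wt G β σ = wt G β σ - co (σ x) 0 * wt G β σ
    ring
  have hright : ∫ σ, (∑ k ∈ Finset.univ.erase (0 : Fin N),
        (if Good t S σ then co (σ x) k ^ 2 else 0) * wt G β σ +
        2 * ((if Good t S σ then (0 : ℝ) else 1) * wt G β σ)) ∂μ ≤
      N * (9 / 2 * M / β * Z) + 2 * (g * Z) := by
    rw [integral_add (integrable_finsetSum _ (fun k _ => hi3 k)) (hi2.const_mul 2),
      integral_finsetSum _ (fun k _ => hi3 k), integral_const_mul]
    have hpos : 0 ≤ 9 / 2 * M / β * Z := by positivity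
    have h1 : ∑ k ∈ Finset.univ.erase (0 : Fin N),
        ∫ σ, (if Good t S σ then co (σ x) k ^ 2 else 0) * wt G β σ ∂μ ≤
        ∑ k ∈ Finset.univ.erase (0 : Fin N), 9 / 2 * M / β * Z :=
      Finset.sum_le_sum (fun k hk => hvar k (Finset.ne_of_mem_erase hk))
    have h3 : ∑ k ∈ Finset.univ.erase (0 : Fin N), 9 / 2 * M / β * Z ≤
        N * (9 / 2 * M / β * Z) := by
      rw [Finset.sum_const, nsmul_eq_mul]
      refine mul_le_mul_of_nonneg_right ?_ hpos
      have : (Finset.univ.erase (0 : Fin N)).card ≤ N := by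
        calc (Finset.univ.erase (0 : Fin N)).card ≤ (Finset.univ : Finset (Fin N)).card :=
              Finset.card_le_card (Finset.erase_subset _ _)
          _ = N := by simp
      exact_mod_cast this
    linarith
  rw [hleft] at hmain
  have hfin := hmain.trans hright
  have hexp : (1 - (9 / 2 * N * M / β + 2 * g)) * Z =
      Z - (N * (9 / 2 * M / β * Z) + 2 * (g * Z)) := by ring
  rw [hexp]
  linarith

end Pool.Agent.LRO63
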