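import Pool.Agent.LRO63.F0
import Pool.Agent.LRO63.F1

open scoped ENNReal

namespace Pool.Agent.LRO63

open Pool.Agent.helper71.XY.Defs Pool.Agent.helper36.IsingDefs

/-- the final theorem -/
theorem main (N : ℕ) (hN : 2 ≤ N) : ∃ C : ℝ, 0 < C ∧
    ∀ (V : Type) [Fintype V] [DecidableEq V] (G : SimpleGraph V) [DecidableRel G.Adj]
      (S : Finset V) (M : ℝ), 0 < M → 2 ≤ S.card → (G.induce (S : Set V)).Connected →
      greenMax (G.induce (S : Set V)) ≤ ENNReal.ofReal M →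
      ∀ β : ℝ, C * (1 + M) * (1 + Real.log S.card) ^ 2 ≤ β → ∀ x ∈ S, ∀ y ∈ S,
        1 - C * (1 + M) / β ≤ twoPoint G N β x y := by
  haveI : NeZero N := ⟨by omega⟩
  obtain ⟨C, hC1, t, ht0, ht1, ht, hnum⟩ := numbers N hN
  refine ⟨C, by linarith, ?_⟩
  intro V _ _ G _ S M hM h2 hconn hG β hβ x hx y hy
  have hs : (2 : ℝ) ≤ S.card := by exact_mod_cast h2
  obtain ⟨h24, hR, hfin⟩ := hnum M β S.card hM hs hβ
  have hβ0 : 0 < β := by nlinarith
  have := two_ge (N := N) hN G t β M _ ht0 ht ht1 hβ0 hM h24 S h2 hconn hG rfl hR x y hx hy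
  linarith

end Pool.Agent.LRO63
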