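import Pool.Agent.helper71.XY.Pin

/-!
# Spins of the `O(N)` model, rotations, the pinned measure
-/

open MeasureTheory ComplexConjugate
open scoped ComplexOrder ENNReal

namespace Pool.Agent.LRO63

open Pool.Agent.helper71.XY Pool.Agent.helper71.XY.Defs

attribute [local instance] fact2pi

variable {N : ℕ} [NeZero N]

/-- the coordinates of a spin -/
noncomputable def co (s : Sph N) (j : Fin N) : ℝ := (s : EuclideanSpace ℝ (Fin N)) j

lemma continuous_co (j : Fin N) : Continuous fun s : Sph N => co s j := by
  unfold co; fun_prop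

lemma sum_co_sq (s : Sph N) : ∑ j, co s j ^ 2 = 1 := by
  have h : ‖(s : EuclideanSpace ℝ (Fin N))‖ = 1 := mem_sphere_zero_iff_norm.1 s.2
  have h2 := EuclideanSpace.norm_sq_eq (s : EuclideanSpace ℝ (Fin N))
  rw [h] at h2
  simp only [Real.norm_eq_abs, sq_abs] at h2
  unfold co
  rw [← h2, one_pow]

lemma abs_co_le (s : Sph N) (j : Fin N) : |co s j| ≤ 1 := by
  have h : co s j ^ 2 ≤ 1 := by
    rw [← sum_co_sq s]
    exact Finset.single_le_sum (f := fun i => co s i ^ 2) (fun i _ => sq_nonneg _)
      (Finset.mem_univ j)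
  exact (sq_le_one_iff_abs_le_one _).1 h

lemma dot_eq (s t : Sph N) : dot s t = ∑ j, co s j * co t j := by
  unfold dot co
  rw [PiLp.inner_apply]
  refine Finset.sum_congr rfl fun i _ => ?_
  exact mul_comm _ _

lemma ext_co {s t : Sph N} (h : ∀ j, co s j = co t j) : s = t := by
  apply Subtype.ext
  exact PiLp.ext h

/-- the first unit vector -/
noncomputable def e0 : Sph N :=
  ⟨EuclideanSpace.single 0 1, by simp⟩

lemma co_e0 (j : Fin N) : co (e0 : Sph N) j = if j = 0 then 1 else 0 := by
  unfold co e0
  simp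

/-- rotation of the coordinate plane `(0, j)` -/
noncomputable def rv (j : Fin N) (a : T) (v : EuclideanSpace ℝ (Fin N)) :
    EuclideanSpace ℝ (Fin N) :=
  WithLp.toLp 2 (fun i => if i = 0 then (e a).re * v 0 - (e a).im * v j
    else if i = j then (e a).im * v 0 + (e a).re * v j else v i)

private lemma O1_sq (a : T) : (e a).re ^ 2 + (e a).im ^ 2 = 1 := by
  have h := Complex.sq_norm (e a)
  rw [norm_e, Complex.normSq_apply] at h
  nlinarith

lemma norm_rv (j : Fin N) (hj : j ≠ 0) (a : T) (v : EuclideanSpace ℝ (Fin N)) :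
    ‖rv j a v‖ = ‖v‖ := by
  rw [EuclideanSpace.norm_eq, EuclideanSpace.norm_eq]
  congr 1
  simp only [Real.norm_eq_abs, sq_abs]
  have h : ∑ i, ((rv j a v i) ^ 2 - (v i) ^ 2) = 0 := by
    rw [← Finset.sum_subset (Finset.subset_univ ({0, j} : Finset (Fin N)))]
    · rw [Finset.sum_pair hj.symm]
      have e1 : rv j a v 0 = (e a).re * v 0 - (e a).im * v j := by
        simp [rv]
      have e2 : rv j a v j = (e a).im * v 0 + (e a).re * v j := by
        simp [rv, hj]
      rw [e1, e2]
      have h1 := O1_sq a
      linear_combination (v 0 ^ 2 + v j ^ 2) * h1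
    · intro i _ hi
      simp only [Finset.mem_insert, Finset.mem_singleton, not_or] at hi
      have e1 : rv j a v i = v i := by
        simp [rv, hi.1, hi.2]
      rw [e1, sub_self]
  rw [Finset.sum_sub_distrib, sub_eq_zero] at h
  exact h

/-- rotation of the coordinate plane `(0, j)`, on spins -/
noncomputable def ro (j : Fin N) (hj : j ≠ 0) (a : T) (s : Sph N) : Sph N :=
  ⟨rv j a s, by
    rw [mem_sphere_zero_iff_norm, norm_rv j hj]
    exact mem_sphere_zero_iff_norm.1 s.2⟩

lemma co_ro (j : Fin N) (hj : j ≠ 0) (a : T) (s : Sph N) (i : Fin N) :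
    co (ro j hj a s) i = if i = 0 then (e a).re * co s 0 - (e a).im * co s j
      else if i = j then (e a).im * co s 0 + (e a).re * co s j else co s i := by
  rfl

lemma continuous_ro (j : Fin N) (hj : j ≠ 0) : Continuous fun p : T × Sph N => ro j hj p.1 p.2 := by
  refine Continuous.subtype_mk ?_ _
  have hc : ∀ i : Fin N, Continuous fun p : T × Sph N =>
      ((p.2 : EuclideanSpace ℝ (Fin N)) i) := by
    intro i
    exact (continuous_co i).comp continuous_snd
  have hr : Continuous fun p : T × Sph N => (e p.1).re :=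
    Complex.continuous_re.comp (continuous_e.comp continuous_fst)
  have hi : Continuous fun p : T × Sph N => (e p.1).im :=
    Complex.continuous_im.comp (continuous_e.comp continuous_fst)
  refine (PiLp.continuous_toLp 2 _).comp (continuous_pi fun i => ?_)
  by_cases h0 : i = 0
  · simp only [h0, if_true]
    exact (hr.mul (hc 0)).sub (hi.mul (hc j))
  · by_cases h1 : i = j
    · simp only [h1, hj, if_false, if_true]
      exact (hi.mul (hc 0)).add (hr.mul (hc j))
    · simp only [h0, h1, if_false]
      exact hc i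

lemma ro_zero (j : Fin N) (hj : j ≠ 0) (s : Sph N) : ro j hj 0 s = s := by
  apply ext_co
  intro i
  rw [co_ro, e_zero]
  by_cases h0 : i = 0
  · subst h0
    simp
  · by_cases h1 : i = j
    · subst h1
      simp [h0]
    · simp [h0, h1]

lemma ro_add (j : Fin N) (hj : j ≠ 0) (a b : T) (s : Sph N) :
    ro j hj (a + b) s = ro j hj a (ro j hj b s) := by
  apply ext_co
  intro i
  rw [co_ro, co_ro, e_add, Complex.mul_re, Complex.mul_im]
  have c0 : co (ro j hj b s) 0 = (e b).re * co s 0 - (e b).im * co s j := by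
    rw [co_ro, if_pos rfl]
  have cj : co (ro j hj b s) j = (e b).im * co s 0 + (e b).re * co s j := by
    rw [co_ro, if_neg hj, if_pos rfl]
  rw [c0, cj]
  by_cases h0 : i = 0
  · rw [if_pos h0, if_pos h0]
    ring
  · by_cases h1 : i = j
    · rw [if_neg h0, if_pos h1, if_neg h0, if_pos h1]
      ring
    · rw [if_neg h0, if_neg h1, if_neg h0, if_neg h1, co_ro, if_neg h0, if_neg h1]

end Pool.Agent.LRO63
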