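import Pool.Agent.LRO63.O1

open MeasureTheory ComplexConjugate
open scoped ComplexOrder ENNReal Pointwise

namespace Pool.Agent.LRO63

open Pool.Agent.helper71.XY Pool.Agent.helper71.XY.Defs

attribute [local instance] fact2pi

variable {N : ℕ} [NeZero N]

/-- action of a linear isometry on spins -/
noncomputable def act (L : EuclideanSpace ℝ (Fin N) ≃ₗᵢ[ℝ] EuclideanSpace ℝ (Fin N))
    (s : Sph N) : Sph N :=
  ⟨L s, by
    rw [mem_sphere_zero_iff_norm, LinearIsometryEquiv.norm_map]
    exact mem_sphere_zero_iff_norm.1 s.2⟩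

lemma O2a_continuous_act (L : EuclideanSpace ℝ (Fin N) ≃ₗᵢ[ℝ] EuclideanSpace ℝ (Fin N)) :
    Continuous (act L) := by
  unfold act
  apply Continuous.subtype_mk
  exact L.continuous.comp continuous_subtype_val

/-- the surface measure is invariant (see `surf_rot` in helper71's Sphere.lean) -/
theorem act_mp (L : EuclideanSpace ℝ (Fin N) ≃ₗᵢ[ℝ] EuclideanSpace ℝ (Fin N)) :
    MeasurePreserving (act L) (surf N) (surf N) := by
  have hc : Measurable (act L) := (O2a_continuous_act L).measurable
  refine ⟨hc, ?_⟩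
  ext s hs
  rw [Measure.map_apply hc hs]
  have hs' : MeasurableSet (act L ⁻¹' s) := hc hs
  rw [surf, Measure.toSphere_apply' _ hs', Measure.toSphere_apply' _ hs]
  congr 1
  have hset : (Set.Ioo (0 : ℝ) 1 • ((↑) '' (act L ⁻¹' s)) : Set (EuclideanSpace ℝ (Fin N)))
      = L ⁻¹' (Set.Ioo (0 : ℝ) 1 • ((↑) '' s)) := by
    ext v
    simp only [Set.mem_smul, Set.mem_image, Set.mem_preimage, Set.mem_Ioo]
    constructor
    · rintro ⟨r, hr, _, ⟨t, ht, rfl⟩, rfl⟩
      exact ⟨r, hr, _, ⟨act L t, ht, rfl⟩, by simp [act]⟩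
    · rintro ⟨r, hr, _, ⟨t, ht, rfl⟩, hv⟩
      refine ⟨r, hr, L.symm t, ⟨⟨L.symm t, ?_⟩, ?_, rfl⟩, ?_⟩
      · rw [mem_sphere_zero_iff_norm, LinearIsometryEquiv.norm_map]
        exact mem_sphere_zero_iff_norm.1 t.2
      · have : act L ⟨L.symm t, by
            rw [mem_sphere_zero_iff_norm, LinearIsometryEquiv.norm_map]
            exact mem_sphere_zero_iff_norm.1 t.2⟩ = t := by
          apply Subtype.ext
          simp [act]
        rw [this]
        exact ht
      · apply L.injective
        rw [map_smul, LinearIsometryEquiv.apply_symm_apply]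
        exact hv
  rw [hset]
  exact (LinearIsometryEquiv.measurePreserving L).measure_preimage_emb
    L.toHomeomorph.measurableEmbedding _

/-- the rotation of a coordinate plane as a linear map -/
noncomputable def O2a_rl (j : Fin N) (a : T) :
    EuclideanSpace ℝ (Fin N) →ₗ[ℝ] EuclideanSpace ℝ (Fin N) where
  toFun := rv j a
  map_add' v w := by
    ext i
    simp only [rv, PiLp.add_apply]
    split_ifs <;> ring
  map_smul' c v := by
    ext i
    simp only [rv, PiLp.smul_apply, smul_eq_mul, RingHom.id_apply]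
    split_ifs <;> ring

/-- the rotation of a coordinate plane as a linear isometry -/
noncomputable def O2a_ri (j : Fin N) (hj : j ≠ 0) (a : T) :
    EuclideanSpace ℝ (Fin N) ≃ₗᵢ[ℝ] EuclideanSpace ℝ (Fin N) :=
  LinearIsometry.toLinearIsometryEquiv ⟨O2a_rl j a, fun v => norm_rv j hj a v⟩ rfl

theorem ro_mp (j : Fin N) (hj : j ≠ 0) (a : T) :
    MeasurePreserving (ro j hj a) (surf N) (surf N) := by
  have h : ro j hj a = act (O2a_ri j hj a) := by
    funext s
    apply Subtype.ext
    rfl
  rw [h]
  exact act_mp _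

end Pool.Agent.LRO63
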