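import Pool.Agent.LRO63.O2a

open MeasureTheory ComplexConjugate
open scoped ComplexOrder ENNReal

namespace Pool.Agent.LRO63

open Pool.Agent.helper71.XY Pool.Agent.helper71.XY.Defs

attribute [local instance] fact2pi

variable {N : ℕ} [NeZero N] {V : Type} [Fintype V] [DecidableEq V]

/-- single site measures of the pinned `O(N)` model -/
noncomputable def pinS (y x : V) : Measure (Sph N) := if x = y then Measure.dirac e0 else surf N

instance (y x : V) : IsFiniteMeasure (pinS (N := N) y x) := by
  unfold pinS
  split_ifs <;> infer_instance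

/-- the Gibbs weight -/
noncomputable def wt (G : SimpleGraph V) [DecidableRel G.Adj] (β : ℝ) (σ : V → Sph N) : ℝ :=
  Real.exp (β * interaction G σ)

lemma continuous_wt (G : SimpleGraph V) [DecidableRel G.Adj] (β : ℝ) :
    Continuous (wt (N := N) G β) := by
  have h : Continuous fun σ : V → Sph N => interaction G σ := by
    unfold Defs.interaction
    apply continuous_finsetSum
    intro e _
    induction e using Sym2.ind with
    | _ u v =>
      simp only [Sym2.lift_mk]
      unfold dot
      fun_prop
  unfold wt
  fun_prop

lemma interaction_eq (G : SimpleGraph V) [DecidableRel G.Adj] (σ : V → Sph N) :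
    interaction G σ = (1 / 2) * ∑ x, ∑ i, (if G.Adj x i then 1 else 0) *
      ∑ k, co (σ x) k * co (σ i) k := by
  unfold Defs.interaction
  rw [sum_edges]
  simp only [dot_eq]

theorem pin_ae (y : V) : ∀ᵐ σ ∂(Measure.pi (pinS (N := N) y)), σ y = e0 := by
  have h : ∀ᵐ s ∂(pinS (N := N) y y), s = e0 := by
    unfold pinS
    rw [if_pos rfl, ae_dirac_eq]
    exact rfl
  exact Measure.tendsto_eval_ae_ae.eventually h

theorem wt_pos_int (G : SimpleGraph V) [DecidableRel G.Adj] (hN : 1 ≤ N) (β : ℝ) (y : V) :
    0 < ∫ σ, wt G β σ ∂(Measure.pi (pinS (N := N) y)) := by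
  have hne : ∀ x, pinS (N := N) y x Set.univ ≠ 0 := by
    intro x
    unfold pinS
    split_ifs
    · simp
    · have : Nontrivial (EuclideanSpace ℝ (Fin N)) := by
        refine ⟨0, EuclideanSpace.single 0 1, ?_⟩
        intro h
        have := congrArg (fun v : EuclideanSpace ℝ (Fin N) => v 0) h
        simp at this
      exact fun h => Measure.toSphere_ne_zero _ (Measure.measure_univ_eq_zero.1 h)
  have : NeZero (Measure.pi (pinS (N := N) y)) := by
    refine ⟨fun h => ?_⟩
    have h1 := Measure.pi_univ (pinS (N := N) y)
    rw [h] at h1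
    simp only [Measure.coe_zero, Pi.zero_apply] at h1
    exact (Finset.prod_ne_zero_iff.2 fun x _ => hne x) h1.symm
  have h2 := integrable_of_continuous (Measure.pi (pinS (N := N) y)) (continuous_wt (N := N) G β)
  exact integral_exp_pos h2

end Pool.Agent.LRO63
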