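import Pool.Agent.LRO63.O3a

open MeasureTheory ComplexConjugate
open scoped ComplexOrder ENNReal

namespace Pool.Agent.LRO63

open Pool.Agent.helper71.XY Pool.Agent.helper71.XY.Defs

attribute [local instance] fact2pi

variable {N : ℕ} [NeZero N] {V : Type} [Fintype V] [DecidableEq V]

/-- rotate every spin in the plane `(0, j)` -/
noncomputable def roV (j : Fin N) (hj : j ≠ 0) (φ : V → T) (σ : V → Sph N) (x : V) : Sph N :=
  ro j hj (φ x) (σ x)

lemma continuous_roV (j : Fin N) (hj : j ≠ 0) :
    Continuous fun p : (V → T) × (V → Sph N) => roV j hj p.1 p.2 := by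
  refine continuous_pi fun x => ?_
  have h : Continuous fun p : (V → T) × (V → Sph N) => (p.1 x, p.2 x) :=
    ((continuous_apply x).comp continuous_fst).prodMk
      ((continuous_apply x).comp continuous_snd)
  exact (continuous_ro (N := N) j hj).comp h

/-- rotations that fix the pinned spin preserve the pinned measure -/
private lemma O4a_mp (j : Fin N) (hj : j ≠ 0) (y : V) (φ : V → T) (hφ : φ y = 0) :
    MeasurePreserving (roV j hj φ) (Measure.pi (pinS (N := N) y))
      (Measure.pi (pinS (N := N) y)) := by
  have h : ∀ x, MeasurePreserving (ro j hj (φ x)) (pinS (N := N) y x) (pinS (N := N) y x) := by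
    intro x
    by_cases hx : x = y
    · subst hx
      have h1 : ro j hj (φ x) = (id : Sph N → Sph N) := by
        funext s
        rw [hφ]
        exact ro_zero j hj s
      rw [h1]
      exact MeasurePreserving.id _
    · unfold pinS
      rw [if_neg hx]
      exact ro_mp j hj (φ x)
  exact measurePreserving_pi _ _ h

private lemma O4a_ae (y : V) : ∀ᵐ φ ∂(Measure.pi (pinM y)), φ y = 0 := by
  have h1 : ∀ᵐ a ∂(pinM y y), a = 0 := by
    rw [pinM_self]
    exact (MeasureTheory.ae_dirac_iff (measurableSet_singleton (0 : T))).2 rfl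
  exact (measurePreserving_eval (pinM y) y).quasiMeasurePreserving.ae h1

/-- average over independent rotations (none at the pinned vertex) -/
theorem avg (j : Fin N) (hj : j ≠ 0) (y : V) (F : (V → Sph N) → ℝ) (hF : Measurable F)
    (C : ℝ) (hC : ∀ σ, |F σ| ≤ C) :
    ∫ σ, F σ ∂(Measure.pi (pinS (N := N) y))
      = ∫ σ, (∫ φ, F (roV j hj φ σ) ∂(Measure.pi (pinM y))) ∂(Measure.pi (pinS (N := N) y)) := by
  have hm : Measurable (Function.uncurry fun (σ : V → Sph N) (φ : V → T) =>
      F (roV j hj φ σ)) :=
    hF.comp ((continuous_roV j hj).comp continuous_swap).measurable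
  have hint : Integrable (Function.uncurry fun (σ : V → Sph N) (φ : V → T) =>
      F (roV j hj φ σ)) ((Measure.pi (pinS (N := N) y)).prod (Measure.pi (pinM y))) := by
    refine Integrable.of_bound hm.aestronglyMeasurable C (Filter.Eventually.of_forall ?_)
    intro p
    rw [Real.norm_eq_abs]
    exact hC _
  rw [integral_integral_swap hint]
  have h2 : ∀ᵐ φ ∂(Measure.pi (pinM y)),
      ∫ σ, F (roV j hj φ σ) ∂(Measure.pi (pinS (N := N) y))
        = ∫ σ, F σ ∂(Measure.pi (pinS (N := N) y)) := by
    filter_upwards [O4a_ae y] with φ hφ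
    have hmp := O4a_mp (N := N) j hj y φ hφ
    rw [← integral_map hmp.measurable.aemeasurable hF.aestronglyMeasurable, hmp.map_eq]
  rw [integral_congr_ae h2, integral_const]
  simp

end Pool.Agent.LRO63
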