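import Pool.Agent.LRO63.O4a

open MeasureTheory ComplexConjugate
open scoped ComplexOrder ENNReal

namespace Pool.Agent.LRO63

open Pool.Agent.helper71.XY Pool.Agent.helper71.XY.Defs

attribute [local instance] fact2pi

variable {N : ℕ} [NeZero N] {V : Type} [Fintype V] [DecidableEq V]

private lemma O4b_integrable (j : Fin N) (hj : j ≠ 0) (y : V) (F : (V → Sph N) → ℝ)
    (hF : Measurable F) (C : ℝ) (hC : ∀ σ, |F σ| ≤ C) :
    Integrable (fun σ => ∫ φ, F (roV j hj φ σ) ∂(Measure.pi (pinM y)))
      (Measure.pi (pinS (N := N) y)) := by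
  have hm : Measurable fun p : (V → Sph N) × (V → T) => F (roV j hj p.2 p.1) := by
    apply hF.comp
    have h : Continuous fun p : (V → Sph N) × (V → T) => roV j hj p.2 p.1 :=
      (continuous_roV j hj).comp continuous_swap
    exact h.measurable
  have hi : Integrable (fun p : (V → Sph N) × (V → T) => F (roV j hj p.2 p.1))
      ((Measure.pi (pinS (N := N) y)).prod (Measure.pi (pinM y))) := by
    apply Integrable.of_bound hm.aestronglyMeasurable C
    exact Filter.Eventually.of_forall fun p => hC _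
  exact hi.integral_prod_left

/-- comparison environment by environment -/
theorem env_le (j : Fin N) (hj : j ≠ 0) (y : V) (B w : (V → Sph N) → ℝ) (hB : Measurable B)
    (hw : Continuous w) (C : ℝ) (hC : ∀ σ, |B σ| ≤ C) (c : ℝ)
    (h : ∀ σ : V → Sph N, σ y = e0 →
      ∫ φ, B (roV j hj φ σ) * w (roV j hj φ σ) ∂(Measure.pi (pinM y))
        ≤ c * ∫ φ, w (roV j hj φ σ) ∂(Measure.pi (pinM y))) :
    ∫ σ, B σ * w σ ∂(Measure.pi (pinS (N := N) y))
      ≤ c * ∫ σ, w σ ∂(Measure.pi (pinS (N := N) y)) := by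
  obtain ⟨D, hD⟩ := isCompact_univ.exists_bound_of_continuousOn (f := w) hw.continuousOn
  have hD' : ∀ σ, |w σ| ≤ D := fun σ => hD σ (Set.mem_univ σ)
  have hwm : Measurable w := hw.measurable
  have hBw : ∀ σ, |B σ * w σ| ≤ C * D := by
    intro σ
    rw [abs_mul]
    have h0 : 0 ≤ C := (abs_nonneg _).trans (hC σ)
    exact mul_le_mul (hC σ) (hD' σ) (abs_nonneg _) h0
  have h1 := avg j hj y (fun σ => B σ * w σ) (hB.mul hwm) (C * D) hBw
  have h2 := avg j hj y w hwm D hD'
  rw [h1, h2, ← integral_const_mul]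
  apply integral_mono_ae
  · exact O4b_integrable j hj y (fun σ => B σ * w σ) (hB.mul hwm) (C * D) hBw
  · exact (O4b_integrable j hj y w hwm D hD').const_mul c
  · filter_upwards [pin_ae (N := N) y] with σ hσ
    exact h σ hσ

end Pool.Agent.LRO63
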