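import Pool.Agent.LRO63.X3a

open MeasureTheory ComplexConjugate
open scoped ComplexOrder ENNReal

namespace Pool.Agent.LRO63

open Pool.Agent.helper71.XY

attribute [local instance] fact2pi

variable {V : Type} [Fintype V] [DecidableEq V]

open Classical in
/-- Gaussian tail of the transverse component -/
theorem tail (K : V → V → ℝ) (hK : ∀ x j, 0 ≤ K x j) (S : Finset V) (y z : V) (hy : y ∈ S)
    (hz : z ∈ S) (R : ℝ) (hR0 : 0 < R) (hR : R ≤ 1 / 12) (hFI : FI K S y R)
    (f : V → V → ℝ) (anti : ∀ u v, f v u = - f u v)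
    (hdiv : ∀ u, ∑ v, f u v = (if u = z then 1 else 0) - (if u = y then 1 else 0))
    (hsupp : ∀ u v, f u v ≠ 0 → 1 / R ≤ K u v ∧ u ∈ S ∧ v ∈ S)
    (hen : (1 / 2) * ∑ u, ∑ v, f u v ^ 2 / K u v ≤ R) (t : ℝ) (ht0 : 0 ≤ t) (ht : t ≤ 1) :
    II (pinM y) K (fun θ => if t ≤ |sq z θ| then 1 else 0)
      ≤ 2 * Real.exp (-(t ^ 2 / (18 * R))) * II (pinM y) K (fun _ => 1) := by
  have hb := boot K hK S y hy R hR0.le hR hFI
  obtain ⟨-, -, hm0, hm1⟩ := hb z hz
  set m := mn (pinM y) K z with hmdef
  set lam : ℝ := t / (9 * R) with hlam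
  have hlam0 : 0 ≤ lam := by positivity
  have hRinv : 0 < 1 / R := by positivity
  have hsupp' : ∀ u v, f u v ≠ 0 → 0 < K u v ∧ u ∈ S ∧ v ∈ S := fun u v h =>
    ⟨lt_of_lt_of_le hRinv (hsupp u v h).1, (hsupp u v h).2⟩
  have hterm : ∀ u v, f u v ^ 2 / K u v ≤ 2 * R := by
    intro u v
    have h1 : f u v ^ 2 / K u v ≤ ∑ b, f u b ^ 2 / K u b :=
      Finset.single_le_sum (f := fun b => f u b ^ 2 / K u b)
        (fun b _ => div_nonneg (sq_nonneg _) (hK u b)) (Finset.mem_univ v)
    have h2 : ∑ b, f u b ^ 2 / K u b ≤ ∑ a, ∑ b, f a b ^ 2 / K a b :=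
      Finset.single_le_sum (f := fun a => ∑ b, f a b ^ 2 / K a b)
        (fun a _ => Finset.sum_nonneg fun b _ => div_nonneg (sq_nonneg _) (hK a b))
        (Finset.mem_univ u)
    linarith
  have hkey : ∀ u v, f u v ≠ 0 → lam * |f u v| * (3 / 2) ≤ K u v := by
    intro u v h
    have hKp := (hsupp' u v h).1
    have h1 := hterm u v
    rw [div_le_iff₀ hKp] at h1
    have hRK : 1 ≤ R * K u v := by
      have := (hsupp u v h).1
      rw [div_le_iff₀ hR0] at this
      linarith
    have h2 : |f u v| ≤ 6 * R * K u v := by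
      apply abs_le_of_sq_le_sq _ (by positivity)
      nlinarith [mul_pos hR0 hKp]
    have h3 : lam ≤ 1 / (9 * R) := by
      rw [hlam]
      gcongr
    calc lam * |f u v| * (3 / 2) ≤ 1 / (9 * R) * (6 * R * K u v) * (3 / 2) := by
          gcongr
      _ = K u v := by field_simp; norm_num
  have hp := expo K hK y z S f anti hdiv hsupp' (fun x hx => ⟨(hb x hx).2.1, (hb x hx).2.2.1⟩)
    hz lam R hen (fun u v h => by rw [abs_of_nonneg hlam0]; exact hkey u v h)
  have hn := expo K hK y z S f anti hdiv hsupp' (fun x hx => ⟨(hb x hx).2.1, (hb x hx).2.2.1⟩)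
    hz (-lam) R hen (fun u v h => by rw [abs_neg, abs_of_nonneg hlam0]; exact hkey u v h)
  rw [← hmdef] at hp hn
  have hc1 : Continuous fun θ : V → T => Real.exp (lam * (sq z θ / m)) := by
    have := continuous_sq (V := V) z
    fun_prop
  have hc2 : Continuous fun θ : V → T => Real.exp (-lam * (sq z θ / m)) := by
    have := continuous_sq (V := V) z
    fun_prop
  have hmain : II (pinM y) K (fun θ => if t ≤ |sq z θ| then 1 else 0) ≤
      II (pinM y) K (fun θ => Real.exp (-(lam * t)) *
        (Real.exp (lam * (sq z θ / m)) + Real.exp (-lam * (sq z θ / m)))) := by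
    unfold II
    apply integral_mono_of_nonneg
    · refine Filter.Eventually.of_forall fun θ => ?_
      refine mul_nonneg (Real.exp_pos _).le ?_
      beta_reduce
      split_ifs <;> norm_num
    · exact II_integrable (pinM y) K (continuous_const.mul (hc1.add hc2))
    · refine Filter.Eventually.of_forall fun θ => ?_
      refine mul_le_mul_of_nonneg_left ?_ (Real.exp_pos _).le
      beta_reduce
      split_ifs with h
      · have h4 : t ≤ |sq z θ| / m := by
          rw [le_div_iff₀ hm0]
          nlinarith [abs_nonneg (sq z θ)]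
        have h5 : lam * t ≤ lam * (|sq z θ| / m) := mul_le_mul_of_nonneg_left h4 hlam0
        rw [mul_add, ← Real.exp_add, ← Real.exp_add]
        rcases le_total 0 (sq z θ) with h6 | h6
        · rw [abs_of_nonneg h6] at h5
          have h7 : 1 ≤ Real.exp (-(lam * t) + lam * (sq z θ / m)) :=
            Real.one_le_exp (by linarith)
          have h8 := Real.exp_pos (-(lam * t) + -lam * (sq z θ / m))
          linarith
        · rw [abs_of_nonpos h6] at h5
          have h7 : 1 ≤ Real.exp (-(lam * t) + -lam * (sq z θ / m)) := by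
            apply Real.one_le_exp
            have e : lam * (-sq z θ / m) = -lam * (sq z θ / m) := by ring
            rw [e] at h5
            linarith
          have h8 := Real.exp_pos (-(lam * t) + lam * (sq z θ / m))
          linarith
      · positivity
  have hsum : II (pinM y) K (fun θ => Real.exp (-(lam * t)) *
        (Real.exp (lam * (sq z θ / m)) + Real.exp (-lam * (sq z θ / m)))) =
      Real.exp (-(lam * t)) * (II (pinM y) K (fun θ => Real.exp (lam * (sq z θ / m))) +
        II (pinM y) K (fun θ => Real.exp (-lam * (sq z θ / m)))) := by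
    rw [II_const_mul, II_add (pinM y) K hc1 hc2]
  rw [hsum] at hmain
  have hexp : Real.exp (-(lam * t)) * Real.exp (9 / 2 * lam ^ 2 * R) =
      Real.exp (-(t ^ 2 / (18 * R))) := by
    rw [← Real.exp_add]
    congr 1
    rw [hlam]
    field_simp
    ring
  have hn' : II (pinM y) K (fun θ => Real.exp (-lam * (sq z θ / m))) ≤
      Real.exp (9 / 2 * lam ^ 2 * R) * II (pinM y) K (fun _ => 1) := by
    have e : (-lam) ^ 2 = lam ^ 2 := by ring
    rw [e] at hn
    exact hn
  calc II (pinM y) K (fun θ => if t ≤ |sq z θ| then 1 else 0) ≤ _ := hmain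
    _ ≤ Real.exp (-(lam * t)) * (Real.exp (9 / 2 * lam ^ 2 * R) * II (pinM y) K (fun _ => 1) +
        Real.exp (9 / 2 * lam ^ 2 * R) * II (pinM y) K (fun _ => 1)) :=
      mul_le_mul_of_nonneg_left (add_le_add hp hn') (Real.exp_pos _).le
    _ = 2 * (Real.exp (-(lam * t)) * Real.exp (9 / 2 * lam ^ 2 * R)) *
        II (pinM y) K (fun _ => 1) := by ring
    _ = _ := by rw [hexp]

end Pool.Agent.LRO63
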