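import Pool.Agent.LRO63.O4b
import Pool.Agent.LRO63.O5a
import Pool.Agent.LRO63.O5b
import Pool.Agent.LRO63.O6a
import Pool.Agent.LRO63.O6b
import Pool.Agent.LRO63.X3b

open MeasureTheory ComplexConjugate
open scoped ComplexOrder ENNReal

namespace Pool.Agent.LRO63

open Pool.Agent.helper71.XY Pool.Agent.helper71.XY.Defs

attribute [local instance] fact2pi

variable {N : ℕ} [NeZero N] {V : Type} [Fintype V] [DecidableEq V]

/-- flows in a smaller set are flows in a larger one -/
private lemma O7_mono (G : SimpleGraph V) {S S' : Finset V} (h : S ⊆ S') {z y : V} {R : ℝ}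
    {f : V → V → ℝ} (hf : UFlow G S z y R f) : UFlow G S' z y R f where
  anti := hf.anti
  supp := fun u v huv => ⟨(hf.supp u v huv).1, h (hf.supp u v huv).2.1, h (hf.supp u v huv).2.2⟩
  div := hf.div
  en := hf.en

open Classical in
/-- the planar model in a fixed good environment -/
private lemma O7_plane (G : SimpleGraph V) [DecidableRel G.Adj]
    (t β R0 : ℝ) (ht0 : 0 < t) (ht1 : t ≤ 1 / 2) (hβ : 0 < β)
    (hR0 : 1 ≤ R0) (hβR : 24 * R0 ≤ t * β) (A : Finset V) (y z : V) (hy : y ∈ A) (hz : z ∉ A)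
    (hA : ∀ a ∈ A, ∃ f : V → V → ℝ, UFlow G A a y R0 f)
    (hf : ∃ f : V → V → ℝ, UFlow G (insert z A) z y R0 f)
    (τ : V → Sph N) (hτ : ∀ x, 0 ≤ co (τ x) 0) (hr : ∀ a ∈ A, 3 / 4 ≤ co (τ a) 0 ^ 2)
    (hrz : t < co (τ z) 0) :
    II (pinM y) (KK G β τ) (fun θ => if t ≤ |sq z θ| then 1 else 0)
      ≤ 2 * Real.exp (-(t ^ 3 * β / (36 * R0))) * II (pinM y) (KK G β τ) (fun _ => 1) := by
  have hb : 0 < β * t / 2 := by positivity
  have hR0' : 0 < R0 := by linarith
  have hRpos : 0 < R0 / (β * t / 2) := by positivity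
  have hR : R0 / (β * t / 2) ≤ 1 / 12 := by
    rw [div_le_iff₀ hb]
    linarith
  have hK : ∀ x i, 0 ≤ KK G β τ x i := by
    intro x i
    unfold KK
    have h1 := hτ x
    have h2 := hτ i
    split_ifs <;> positivity
  have hra : ∀ a ∈ A, 1 / 2 ≤ co (τ a) 0 := by
    intro a ha
    have h1 := hτ a
    have h2 := hr a ha
    nlinarith
  -- radii on the enlarged set
  have hKS : ∀ x ∈ insert z A, ∀ i ∈ insert z A, G.Adj x i → β * t / 2 ≤ KK G β τ x i := by
    intro x hx i hi hadj
    have key : t / 2 ≤ co (τ x) 0 * co (τ i) 0 := by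
      rcases Finset.mem_insert.1 hx with rfl | hx
      · rcases Finset.mem_insert.1 hi with rfl | hi
        · exact absurd hadj (G.loopless.irrefl _)
        · have h1 := hra i hi
          nlinarith
      · have h1 := hra x hx
        rcases Finset.mem_insert.1 hi with rfl | hi
        · nlinarith
        · have h2 := hr x hx
          have h3 := hr i hi
          have h4 := hτ x
          have h5 := hτ i
          have h6 : 3 / 4 ≤ co (τ x) 0 * co (τ i) 0 := by
            have : (3 / 4 : ℝ) ^ 2 ≤ (co (τ x) 0 * co (τ i) 0) ^ 2 := by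
              rw [mul_pow]
              nlinarith
            exact le_of_sq_le_sq this (by positivity)
          linarith
    unfold KK
    rw [if_pos hadj, mul_one]
    have := mul_le_mul_of_nonneg_left key hβ.le
    linarith
  obtain ⟨f, hf⟩ := hf
  have hflows : ∀ a ∈ insert z A, ∃ f : V → V → ℝ, UFlow G (insert z A) a y R0 f := by
    intro a ha
    rcases Finset.mem_insert.1 ha with rfl | ha
    · exact ⟨f, hf⟩
    · obtain ⟨g, hg⟩ := hA a ha
      exact ⟨g, O7_mono G (Finset.subset_insert z A) hg⟩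
  have hFI : FI (KK G β τ) (insert z A) y (R0 / (β * t / 2)) :=
    FI_of_flows G (KK G β τ) hK (insert z A) y (β * t / 2) R0 hb hKS hflows
  have hsupp : ∀ u v, f u v ≠ 0 → 1 / (R0 / (β * t / 2)) ≤ KK G β τ u v ∧
      u ∈ insert z A ∧ v ∈ insert z A := by
    intro u v huv
    obtain ⟨h1, h2, h3⟩ := hf.supp u v huv
    refine ⟨le_trans ?_ (hKS u h2 v h3 h1), h2, h3⟩
    rw [one_div_div]
    exact div_le_self hb.le hR0
  have hen : (1 / 2) * ∑ u, ∑ v, f u v ^ 2 / KK G β τ u v ≤ R0 / (β * t / 2) := by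
    have h1 : ∑ u, ∑ v, f u v ^ 2 / KK G β τ u v
        ≤ (∑ u, ∑ v, f u v ^ 2) / (β * t / 2) := by
      rw [Finset.sum_div]
      refine Finset.sum_le_sum fun u _ => ?_
      rw [Finset.sum_div]
      refine Finset.sum_le_sum fun v _ => ?_
      by_cases huv : f u v = 0
      · rw [huv]; simp
      · obtain ⟨h1, h2, h3⟩ := hf.supp u v huv
        exact div_le_div_of_nonneg_left (sq_nonneg _) hb (hKS u h2 v h3 h1)
    have h2 := hf.en
    rw [le_div_iff₀ hb] at *
    nlinarith [h1, h2, hb]
  have hmain := tail (KK G β τ) hK (insert z A) y z (Finset.mem_insert_of_mem hy)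
    (Finset.mem_insert_self z A) (R0 / (β * t / 2)) hRpos hR hFI f hf.anti hf.div hsupp hen t
    ht0.le (by linarith)
  have hexp : t ^ 2 / (18 * (R0 / (β * t / 2))) = t ^ 3 * β / (36 * R0) := by
    field_simp
    ring
  rw [hexp] at hmain
  exact hmain

open Classical in
/-- first exit through the component `j` -/
theorem exit_comp (j : Fin N) (hj : j ≠ 0) (G : SimpleGraph V) [DecidableRel G.Adj]
    (t β R0 : ℝ) (ht0 : 0 < t) (ht : (N : ℝ) * t ^ 2 ≤ 1 / 4) (ht1 : t ≤ 1 / 2) (hβ : 0 < β)
    (hR0 : 1 ≤ R0) (hβR : 24 * R0 ≤ t * β) (A : Finset V) (y z : V) (hy : y ∈ A) (hz : z ∉ A)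
    (hA : ∀ a ∈ A, ∃ f : V → V → ℝ, UFlow G A a y R0 f)
    (hf : ∃ f : V → V → ℝ, UFlow G (insert z A) z y R0 f) :
    ∫ σ, (if Good t A σ ∧ t < |co (σ z) j| then 1 else 0) * wt G β σ
        ∂(Measure.pi (pinS (N := N) y))
      ≤ 2 * Real.exp (-(t ^ 3 * β / (36 * R0))) *
        ∫ σ, wt G β σ ∂(Measure.pi (pinS (N := N) y)) := by
  have hcz : Continuous fun σ : V → Sph N => |co (σ z) j| :=
    ((continuous_co j).comp (continuous_apply z)).abs
  have hBm : Measurable (fun σ : V → Sph N =>
      (if Good t A σ ∧ t < |co (σ z) j| then 1 else 0 : ℝ)) := by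
    refine Measurable.ite ?_ measurable_const measurable_const
    exact (measurableSet_good t A).inter (measurableSet_lt measurable_const hcz.measurable)
  refine env_le j hj y (fun σ => (if Good t A σ ∧ t < |co (σ z) j| then 1 else 0 : ℝ))
    (wt G β) hBm (continuous_wt G β) 1 (fun σ => by split_ifs <;> simp) _ ?_
  intro σ hσ
  obtain ⟨τ, hτy, hτ, hF⟩ := base j hj y σ hσ
  rw [hF (fun σ => (if Good t A σ ∧ t < |co (σ z) j| then 1 else 0 : ℝ) * wt G β σ),
    hF (fun σ => wt G β σ)]
  obtain ⟨c, hc, hW⟩ := wt_ro j hj G β τ (fun x => (hτ x).2.1)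
  have hτ0 : ∀ x, 0 ≤ co (τ x) 0 := fun x => (hτ x).1
  have hrhs : ∫ φ, wt G β (roV j hj φ τ) ∂(Measure.pi (pinM y))
      = c * II (pinM y) (KK G β τ) (fun _ => 1) := by
    unfold II
    rw [← integral_const_mul]
    congr 1
    funext φ
    rw [hW φ, mul_one]
  have hIpos := II_pos (pinM y) (KK G β τ)
  by_cases hex : ∃ φ, Good t A (roV j hj φ τ) ∧ t < |co (roV j hj φ τ z) j|
  · obtain ⟨φ₀, hg, hj0⟩ := hex
    have hr : ∀ a ∈ A, 3 / 4 ≤ co (τ a) 0 ^ 2 := fun a ha =>
      good_radius j hj t ht A τ (fun x => ⟨(hτ x).1, (hτ x).2.1⟩) φ₀ hg a ha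
    have hsq : ∀ φ : V → T, |sq z φ| ≤ 1 := by
      intro φ
      exact (Complex.abs_im_le_norm (e (φ z))).trans (norm_e _).le
    have hrz : t < co (τ z) 0 := by
      rw [co_roV_j j hj τ z (hτ z).2.1, abs_mul, abs_of_nonneg (hτ0 z)] at hj0
      exact hj0.trans_le (mul_le_of_le_one_right (hτ0 z) (hsq φ₀))
    have hplane := O7_plane G t β R0 ht0 ht1 hβ hR0 hβR A y z hy hz hA hf τ hτ0 hr hrz
    have hle : ∫ φ, (if Good t A (roV j hj φ τ) ∧ t < |co (roV j hj φ τ z) j| then 1 else 0 : ℝ)
          * wt G β (roV j hj φ τ) ∂(Measure.pi (pinM y))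
        ≤ c * II (pinM y) (KK G β τ) (fun θ => if t ≤ |sq z θ| then 1 else 0) := by
      unfold II
      rw [← integral_const_mul]
      refine integral_mono_of_nonneg ?_ ?_ ?_
      · refine Filter.Eventually.of_forall fun φ => ?_
        have : 0 ≤ wt G β (roV j hj φ τ) := (Real.exp_pos _).le
        dsimp only
        split_ifs
        · simpa using this
        · simp
      · refine Integrable.const_mul ?_ c
        have hWi : Integrable (fun φ => W (KK G β τ) φ) (Measure.pi (pinM y)) :=
          integrable_of_continuous _ (continuous_W _)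
        have hm : MeasurableSet {θ : V → T | t ≤ |sq z θ|} :=
          measurableSet_le measurable_const (continuous_sq z).abs.measurable
        have h2 := hWi.indicator hm
        refine h2.congr (Filter.Eventually.of_forall fun φ => ?_)
        by_cases h : t ≤ |sq z φ|
        · simp [Set.indicator, h]
        · simp [Set.indicator, h]
      · refine Filter.Eventually.of_forall fun φ => ?_
        dsimp only
        rw [hW φ]
        have hWp : 0 ≤ W (KK G β τ) φ := (Real.exp_pos _).le
        by_cases h : Good t A (roV j hj φ τ) ∧ t < |co (roV j hj φ τ z) j|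
        · rw [if_pos h]
          have h1 := h.2
          rw [co_roV_j j hj τ z (hτ z).2.1, abs_mul, abs_of_nonneg (hτ0 z)] at h1
          have h3 : co (τ z) 0 ≤ 1 := (le_abs_self _).trans (abs_co_le _ _)
          have h2 : t ≤ |sq z φ| :=
            h1.le.trans (mul_le_of_le_one_left (abs_nonneg _) h3)
          rw [if_pos h2]
          linarith
        · rw [if_neg h, zero_mul]
          split_ifs
          · positivity
          · simp
    refine hle.trans ?_
    rw [hrhs]
    have := mul_le_mul_of_nonneg_left hplane hc.le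
    linarith
  · have h0 : ∫ φ, (if Good t A (roV j hj φ τ) ∧ t < |co (roV j hj φ τ z) j| then 1 else 0 : ℝ)
        * wt G β (roV j hj φ τ) ∂(Measure.pi (pinM y)) = 0 := by
      have : ∀ φ : V → T, (if Good t A (roV j hj φ τ) ∧ t < |co (roV j hj φ τ z) j|
          then 1 else 0 : ℝ) * wt G β (roV j hj φ τ) = 0 := by
        intro φ
        rw [if_neg (fun h => hex ⟨φ, h⟩), zero_mul]
      simp only [this, integral_zero]
    rw [h0, hrhs]
    positivity

end Pool.Agent.LRO63
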