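import Pool.Agent.helper71.XY.Pin

open MeasureTheory ComplexConjugate
open scoped ComplexOrder ENNReal

namespace Pool.Agent.LRO63

open Pool.Agent.helper71.XY

attribute [local instance] fact2pi

variable {V : Type} [Fintype V] [DecidableEq V]

omit [Fintype V] [DecidableEq V] in
/-- symmetry of the two-copy dot product -/
lemma X4_U_symm (ω : V → T × T) (x j : V) : U ω x j = U ω j x := by
  simp only [U, Complex.mul_re, Complex.conj_re, Complex.conj_im]
  ring

/-- the twisted interaction for the twist by `π` on the edge `a z` -/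
lemma X4_TA (K : V → V → ℝ) (hsym : ∀ x j, K x j = K j x) (a z : V) (haz : a ≠ z)
    (ω : V → T × T) :
    TA K (fun x j => if (x = a ∧ j = z) ∨ (x = z ∧ j = a) then Real.pi else 0) ω
      = T0 K ω + -2 * (K a z * U ω a z) := by
  have h1 : ∀ x j, K x j * (Real.cos (if (x = a ∧ j = z) ∨ (x = z ∧ j = a) then Real.pi else 0)
        * U ω x j
        - Real.sin (if (x = a ∧ j = z) ∨ (x = z ∧ j = a) then Real.pi else 0) * D ω x j)
      = K x j * (Real.cos 0 * U ω x j - Real.sin 0 * D ω x j)
        + ((if x = a then (if j = z then -2 * (K a z * U ω a z) else 0) else 0)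
          + (if x = z then (if j = a then -2 * (K a z * U ω a z) else 0) else 0)) := by
    intro x j
    by_cases h : x = a ∧ j = z
    · obtain ⟨rfl, rfl⟩ := h
      simp [haz]
      ring
    · by_cases h' : x = z ∧ j = a
      · obtain ⟨rfl, rfl⟩ := h'
        rw [if_pos (Or.inr ⟨rfl, rfl⟩), if_neg (Ne.symm haz), if_pos rfl, if_pos rfl,
          hsym j x, X4_U_symm ω j x, Real.cos_pi, Real.sin_pi, Real.cos_zero, Real.sin_zero]
        ring
      · rw [if_neg (by tauto)]
        have e1 : (if x = a then (if j = z then -2 * (K a z * U ω a z) else 0) else 0) = 0 := by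
          split_ifs with h1 h2
          · exact absurd ⟨h1, h2⟩ h
          · rfl
          · rfl
        have e2 : (if x = z then (if j = a then -2 * (K a z * U ω a z) else 0) else 0) = 0 := by
          split_ifs with h1 h2
          · exact absurd ⟨h1, h2⟩ h'
          · rfl
          · rfl
        rw [e1, e2]
        ring
  simp only [T0, TA, h1, Finset.sum_add_distrib]
  have e3 : ∑ x : V, ∑ j : V,
      (if x = a then (if j = z then -2 * (K a z * U ω a z) else 0) else 0)
        = -2 * (K a z * U ω a z) := by
    rw [Finset.sum_eq_single a]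
    · simp
    · intro b _ hb
      simp [hb]
    · simp
  have e4 : ∑ x : V, ∑ j : V,
      (if x = z then (if j = a then -2 * (K a z * U ω a z) else 0) else 0)
        = -2 * (K a z * U ω a z) := by
    rw [Finset.sum_eq_single z]
    · simp
    · intro b _ hb
      simp [hb]
    · simp
  rw [e3, e4]
  ring

/-- the exponential moment -/
lemma X4_exp (K : V → V → ℝ) (hK : ∀ x j, 0 ≤ K x j) (hsym : ∀ x j, K x j = K j x)
    (y a z : V) (haz : a ≠ z) :
    II (pinM y) K (fun θ => Real.exp (-2 * (K a z * (cp a θ * cp z θ + sq a θ * sq z θ))))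
      ≤ II (pinM y) K (fun _ => 1) := by
  have h := twist_le (pinM y) (nice_pinM y) K
    (fun x j => if (x = a ∧ j = z) ∨ (x = z ∧ j = a) then Real.pi else 0) hK
  have h1 : ∫ ω, Real.exp (TA K
      (fun x j => if (x = a ∧ j = z) ∨ (x = z ∧ j = a) then Real.pi else 0) ω) ∂(P2 (pinM y))
      = II (pinM y) K (fun θ => Real.exp (-2 * (K a z * (cp a θ * cp z θ + sq a θ * sq z θ))))
        * II (pinM y) K
          (fun θ => Real.exp (-2 * (K a z * (cp a θ * cp z θ + sq a θ * sq z θ)))) := by
    rw [← E2_prod]
    unfold E2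
    congr 1
    funext ω
    beta_reduce
    rw [X4_TA K hsym a z haz, ← Real.exp_add, ← Real.exp_add]
    congr 1
    simp only [U, cp, Pool.Agent.helper71.XY.sq, Complex.mul_re, Complex.conj_re,
      Complex.conj_im]
    ring
  have h2 : ∫ ω, Real.exp (T0 K ω) ∂(P2 (pinM y))
      = II (pinM y) K (fun _ => 1) * II (pinM y) K (fun _ => 1) := by
    rw [← E2_prod]
    unfold E2
    simp
  rw [h1, h2] at h
  have hZ := II_pos (pinM y) K
  have hZ' : 0 ≤ II (pinM y) K (fun _ => 1) := hZ.le
  exact abs_le_of_sq_le_sq' (by nlinarith [h]) hZ' |>.2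

open Classical in
/-- twist by `π` on one edge -/
theorem edge_tail (K : V → V → ℝ) (hK : ∀ x j, 0 ≤ K x j) (hsym : ∀ x j, K x j = K j x)
    (y a z : V) (haz : a ≠ z) (s : ℝ) :
    II (pinM y) K (fun θ => if K a z * (cp a θ * cp z θ + sq a θ * sq z θ) ≤ -s then 1 else 0)
      ≤ Real.exp (-2 * s) * II (pinM y) K (fun _ => 1) := by
  have hc : Continuous fun θ : V → T =>
      Real.exp (-2 * (K a z * (cp a θ * cp z θ + sq a θ * sq z θ))) := by
    have h1 := continuous_cp (V := V)
    have h2 := continuous_sq (V := V)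
    exact Real.continuous_exp.comp (continuous_const.mul (continuous_const.mul
      (((h1 a).mul (h1 z)).add ((h2 a).mul (h2 z)))))
  refine le_trans ?_ (mul_le_mul_of_nonneg_left (X4_exp K hK hsym y a z haz)
    (Real.exp_pos (-2 * s)).le)
  rw [← II_const_mul]
  unfold II
  refine integral_mono_of_nonneg (Filter.Eventually.of_forall fun θ => ?_)
    (II_integrable (pinM y) K (hc.const_mul _)) (Filter.Eventually.of_forall fun θ => ?_)
  · refine mul_nonneg (Real.exp_pos _).le ?_
    beta_reduce
    split_ifs <;> norm_num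
  · refine mul_le_mul_of_nonneg_left ?_ (Real.exp_pos _).le
    beta_reduce
    split_ifs with hs
    · rw [← Real.exp_add]
      rw [← Real.exp_zero]
      apply Real.exp_le_exp.2
      linarith
    · positivity

end Pool.Agent.LRO63
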