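import Pool.Agent.LRO63.O4b
import Pool.Agent.LRO63.O5a
import Pool.Agent.LRO63.O5b
import Pool.Agent.LRO63.O6a
import Pool.Agent.LRO63.O6b
import Pool.Agent.LRO63.X4

open MeasureTheory ComplexConjugate
open scoped ComplexOrder ENNReal

namespace Pool.Agent.LRO63

open Pool.Agent.helper71.XY Pool.Agent.helper71.XY.Defs

attribute [local instance] fact2pi

variable {N : ℕ} [NeZero N] {V : Type} [Fintype V] [DecidableEq V]

/-- if all components but the first are at most `t`, the first one is large -/
private lemma O8_big (t : ℝ) (ht : (N : ℝ) * t ^ 2 ≤ 1 / 4) (s : Sph N)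
    (h : ∀ k, k ≠ 0 → |co s k| ≤ t) : 3 / 4 ≤ co s 0 ^ 2 := by
  have h1 := sum_co_sq s
  rw [← Finset.add_sum_erase Finset.univ _ (Finset.mem_univ (0 : Fin N))] at h1
  have h2 : ∑ k ∈ Finset.univ.erase (0 : Fin N), co s k ^ 2
      ≤ ∑ _k ∈ Finset.univ.erase (0 : Fin N), t ^ 2 := by
    apply Finset.sum_le_sum
    intro k hk
    have hk0 := h k (Finset.ne_of_mem_erase hk)
    have h3 : |co s k| ^ 2 ≤ t ^ 2 := pow_le_pow_left₀ (abs_nonneg _) hk0 2
    rwa [sq_abs] at h3
  rw [Finset.sum_const, nsmul_eq_mul] at h2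
  have h3 : ((Finset.univ.erase (0 : Fin N)).card : ℝ) ≤ N := by
    have := Finset.card_erase_le (s := (Finset.univ : Finset (Fin N))) (a := 0)
    rw [Finset.card_univ, Fintype.card_fin] at this
    exact_mod_cast this
  have h4 : ((Finset.univ.erase (0 : Fin N)).card : ℝ) * t ^ 2 ≤ N * t ^ 2 :=
    mul_le_mul_of_nonneg_right h3 (sq_nonneg _)
  linarith

open Classical in
/-- first exit through the wrong sign -/
theorem exit_sign (j : Fin N) (hj : j ≠ 0) (G : SimpleGraph V) [DecidableRel G.Adj]
    (t β : ℝ) (ht0 : 0 < t) (ht : (N : ℝ) * t ^ 2 ≤ 1 / 4) (ht1 : t ≤ 1 / 2) (hβ : 0 < β)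
    (A : Finset V) (y z a : V) (ha : a ∈ A) (haz : G.Adj a z) :
    ∫ σ, (if Good t A σ ∧ (∀ k, k ≠ 0 → |co (σ z) k| ≤ t) ∧ co (σ z) 0 ≤ 0 then 1 else 0)
        * wt G β σ ∂(Measure.pi (pinS (N := N) y))
      ≤ Real.exp (-β) * ∫ σ, wt G β σ ∂(Measure.pi (pinS (N := N) y)) := by
  have hmeas : MeasurableSet {σ : V → Sph N | Good t A σ ∧ (∀ k, k ≠ 0 → |co (σ z) k| ≤ t) ∧
      co (σ z) 0 ≤ 0} := by
    have hc : ∀ k : Fin N, Measurable fun σ : V → Sph N => co (σ z) k := fun k =>
      (continuous_co k).measurable.comp (measurable_pi_apply z)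
    refine (measurableSet_good t A).inter (MeasurableSet.inter ?_ ?_)
    · have : {σ : V → Sph N | ∀ k, k ≠ 0 → |co (σ z) k| ≤ t}
          = ⋂ k : Fin N, {σ : V → Sph N | k ≠ 0 → |co (σ z) k| ≤ t} := by
        ext σ; simp
      change MeasurableSet {σ : V → Sph N | ∀ k, k ≠ 0 → |co (σ z) k| ≤ t}
      rw [this]
      refine MeasurableSet.iInter fun k => ?_
      by_cases hk : k = 0
      · simp [hk]
      · simp only [ne_eq, hk, not_false_eq_true, forall_const]
        have hm : Measurable fun σ : V → Sph N => |co (σ z) k| :=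
          continuous_abs.measurable.comp (hc k)
        exact measurableSet_le hm measurable_const
    · exact measurableSet_le (hc 0) measurable_const
  refine env_le j hj y (fun σ => if Good t A σ ∧ (∀ k, k ≠ 0 → |co (σ z) k| ≤ t) ∧
    co (σ z) 0 ≤ 0 then 1 else 0) (wt G β) (Measurable.ite hmeas measurable_const
    measurable_const) (continuous_wt G β) 1 (fun σ => by split_ifs <;> simp) _ ?_
  intro σ hσ
  obtain ⟨τ, hτy, hτ, hint⟩ := base j hj y σ hσ
  rw [hint (fun σ => (if Good t A σ ∧ (∀ k, k ≠ 0 → |co (σ z) k| ≤ t) ∧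
    co (σ z) 0 ≤ 0 then 1 else 0) * wt G β σ), hint (wt G β)]
  obtain ⟨c, hc, hwt⟩ := wt_ro j hj G β τ fun x => (hτ x).2.1
  have hK : ∀ x i, 0 ≤ KK G β τ x i := by
    intro x i
    unfold KK
    apply mul_nonneg
    · apply mul_nonneg hβ.le
      split_ifs <;> norm_num
    · exact mul_nonneg (hτ x).1 (hτ i).1
  have hsym : ∀ x i, KK G β τ x i = KK G β τ i x := by
    intro x i
    unfold KK
    rw [mul_comm (co (τ x) 0)]
    simp only [G.adj_comm x i]
  have hedge := edge_tail (KK G β τ) hK hsym y a z haz.ne (β / 2)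
  have h1 : ∫ φ, (if Good t A (roV j hj φ τ) ∧ (∀ k, k ≠ 0 → |co (roV j hj φ τ z) k| ≤ t) ∧
      co (roV j hj φ τ z) 0 ≤ 0 then 1 else 0) * wt G β (roV j hj φ τ) ∂(Measure.pi (pinM y))
      ≤ c * II (pinM y) (KK G β τ)
        (fun θ => if KK G β τ a z * (cp a θ * cp z θ + sq a θ * sq z θ) ≤ -(β / 2) then 1
          else 0) := by
    unfold II
    rw [← integral_const_mul]
    have hcK : Continuous fun θ : V → T =>
        KK G β τ a z * (cp a θ * cp z θ + sq a θ * sq z θ) := by
      have := continuous_cp (V := V)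
      have := continuous_sq (V := V)
      fun_prop
    have hme : Measurable fun θ : V → T =>
        (if KK G β τ a z * (cp a θ * cp z θ + sq a θ * sq z θ) ≤ -(β / 2) then (1 : ℝ)
          else 0) :=
      Measurable.ite (measurableSet_le hcK.measurable measurable_const) measurable_const
        measurable_const
    have hi2 : Integrable (fun θ : V → T => c * (W (KK G β τ) θ *
        (if KK G β τ a z * (cp a θ * cp z θ + sq a θ * sq z θ) ≤ -(β / 2) then (1 : ℝ)
          else 0))) (Measure.pi (pinM y)) := by
      apply Integrable.const_mul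
      refine Integrable.mono' (integrable_of_continuous _ (continuous_W (KK G β τ)))
        ((continuous_W _).measurable.mul hme).aestronglyMeasurable ?_
      refine Filter.Eventually.of_forall fun θ => ?_
      have hW : 0 ≤ W (KK G β τ) θ := (Real.exp_pos _).le
      rw [norm_mul, Real.norm_of_nonneg hW]
      split_ifs <;> simp [hW]
    have hro : Measurable fun φ : V → T => roV j hj φ τ :=
      ((continuous_roV j hj).comp (continuous_id.prodMk continuous_const)).measurable
    refine integral_mono_of_nonneg (Filter.Eventually.of_forall fun φ => ?_) hi2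
      (Filter.Eventually.of_forall fun φ => ?_)
    · exact mul_nonneg (by split_ifs <;> norm_num) (Real.exp_pos _).le
    · simp only
      rw [hwt φ]
      have hW : 0 ≤ c * W (KK G β τ) φ := mul_nonneg hc.le (Real.exp_pos _).le
      by_cases hg : Good t A (roV j hj φ τ) ∧ (∀ k, k ≠ 0 → |co (roV j hj φ τ z) k| ≤ t) ∧
        co (roV j hj φ τ z) 0 ≤ 0
      · rw [if_pos hg]
        have hcond : KK G β τ a z * (cp a φ * cp z φ + sq a φ * sq z φ) ≤ -(β / 2) := by
          have ea0 := co_roV_zero j hj τ a (hτ a).2.1 φ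
          have eaj := co_roV_j j hj τ a (hτ a).2.1 φ
          have ez0 := co_roV_zero j hj τ z (hτ z).2.1 φ
          have ezj := co_roV_j j hj τ z (hτ z).2.1 φ
          have ga := hg.1 a ha
          have b1 := O8_big t ht _ ga.2
          have b2 := O8_big t ht _ hg.2.1
          have b3 := hg.2.2
          have b4 := ga.1
          have c1 := ga.2 j hj
          have c2 := hg.2.1 j hj
          have e1 : KK G β τ a z * (cp a φ * cp z φ + sq a φ * sq z φ)
              = β * (co (roV j hj φ τ a) 0 * co (roV j hj φ τ z) 0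
                + co (roV j hj φ τ a) j * co (roV j hj φ τ z) j) := by
            rw [ea0, eaj, ez0, ezj]
            unfold KK
            rw [if_pos haz]
            ring
          rw [e1]
          set p := co (roV j hj φ τ a) 0
          set q := co (roV j hj φ τ z) 0
          set r := co (roV j hj φ τ a) j
          set s := co (roV j hj φ τ z) j
          have d1 : p * q ≤ -(3 / 4) := by
            have h5 : (3 / 4) ^ 2 ≤ (p * -q) ^ 2 := by
              have : (p * -q) ^ 2 = p ^ 2 * q ^ 2 := by ring
              rw [this]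
              nlinarith
            have h6 : 0 ≤ p * -q := mul_nonneg b4.le (by linarith)
            have h7 := abs_le_of_sq_le_sq' h5 h6
            linarith [h7.2]
          have d2 : r * s ≤ 1 / 4 := by
            have h5 : |r * s| ≤ t * t := by
              rw [abs_mul]
              exact mul_le_mul c1 c2 (abs_nonneg _) ht0.le
            have h6 := le_abs_self (r * s)
            nlinarith
          nlinarith
        rw [if_pos hcond]
        linarith
      · rw [if_neg hg, zero_mul]
        apply mul_nonneg hc.le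
        apply mul_nonneg (Real.exp_pos _).le
        split_ifs <;> norm_num
  have h2 : ∫ φ, wt G β (roV j hj φ τ) ∂(Measure.pi (pinM y))
      = c * II (pinM y) (KK G β τ) (fun _ => 1) := by
    unfold II
    rw [← integral_const_mul]
    congr 1
    funext φ
    rw [hwt φ, mul_one]
  rw [h2]
  refine h1.trans ?_
  have h3 : Real.exp (-2 * (β / 2)) = Real.exp (-β) := by congr 1; ring
  rw [h3] at hedge
  calc c * II (pinM y) (KK G β τ) _ ≤ c * (Real.exp (-β) * II (pinM y) (KK G β τ) fun _ => 1) :=
        mul_le_mul_of_nonneg_left hedge hc.le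
    _ = _ := by ring

end Pool.Agent.LRO63
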