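import Pool.Agent.LRO63.O7
import Pool.Agent.LRO63.O8

open MeasureTheory ComplexConjugate
open scoped ComplexOrder ENNReal

namespace Pool.Agent.LRO63

open Pool.Agent.helper71.XY Pool.Agent.helper71.XY.Defs

attribute [local instance] fact2pi

variable {N : ℕ} [NeZero N] {V : Type} [Fintype V] [DecidableEq V]

/-- a neighbour of the source of a flow -/
private lemma O9a_nbr (G : SimpleGraph V) (A : Finset V) (y z : V) (R0 : ℝ) (hy : y ∈ A)
    (hz : z ∉ A) (hf : ∃ f : V → V → ℝ, UFlow G (insert z A) z y R0 f) :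
    ∃ a ∈ A, G.Adj a z := by
  obtain ⟨f, hf⟩ := hf
  have hzy : z ≠ y := by rintro rfl; exact hz hy
  have h1 := hf.div z
  rw [if_pos rfl, if_neg hzy, sub_zero] at h1
  obtain ⟨v, hv⟩ : ∃ v, f z v ≠ 0 := by
    by_contra hcon
    push Not at hcon
    rw [Finset.sum_eq_zero (fun v _ => hcon v)] at h1
    exact zero_ne_one h1
  obtain ⟨hadj, _, hvA⟩ := hf.supp z v hv
  refine ⟨v, ?_, hadj.symm⟩
  rcases Finset.mem_insert.1 hvA with h | h
  · exact absurd (h ▸ hadj) (G.irrefl)
  · exact h

private lemma O9a_int (G : SimpleGraph V) [DecidableRel G.Adj] (β : ℝ) (y : V)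
    (P : (V → Sph N) → Prop) [DecidablePred P] (hP : MeasurableSet {σ | P σ}) :
    Integrable (fun σ => (if P σ then 1 else 0) * wt G β σ)
      (Measure.pi (pinS (N := N) y)) := by
  have h1 : Integrable (wt (N := N) G β) (Measure.pi (pinS (N := N) y)) :=
    (continuous_wt G β).integrable_of_hasCompactSupport (HasCompactSupport.of_compactSpace _)
  have h2 := h1.indicator hP
  refine h2.congr (Filter.Eventually.of_forall fun σ => ?_)
  by_cases h : P σ
  · simp [Set.indicator, h]
  · simp [Set.indicator, h]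

open Classical in
/-- one step of the union bound -/
theorem exit_step (hN : 2 ≤ N) (G : SimpleGraph V) [DecidableRel G.Adj]
    (t β R0 : ℝ) (ht0 : 0 < t) (ht : (N : ℝ) * t ^ 2 ≤ 1 / 4) (ht1 : t ≤ 1 / 2) (hβ : 0 < β)
    (hR0 : 1 ≤ R0) (hβR : 24 * R0 ≤ t * β) (A : Finset V) (y z : V) (hy : y ∈ A) (hz : z ∉ A)
    (hA : ∀ a ∈ A, ∃ f : V → V → ℝ, UFlow G A a y R0 f)
    (hf : ∃ f : V → V → ℝ, UFlow G (insert z A) z y R0 f) :
    ∫ σ, (if Good t A σ ∧ ¬ Good t (insert z A) σ then 1 else 0) * wt G β σ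
        ∂(Measure.pi (pinS (N := N) y))
      ≤ (2 * N * Real.exp (-(t ^ 3 * β / (36 * R0)))) *
        ∫ σ, wt G β σ ∂(Measure.pi (pinS (N := N) y)) := by
  obtain ⟨a, ha, haz⟩ := O9a_nbr G A y z R0 hy hz hf
  set μ := Measure.pi (pinS (N := N) y) with hμ
  set Z := ∫ σ, wt G β σ ∂μ with hZ
  have hwt : ∀ σ, 0 ≤ wt (N := N) G β σ := fun σ => (Real.exp_pos _).le
  have hZ0 : 0 ≤ Z := integral_nonneg hwt
  -- the events
  let P : (V → Sph N) → Prop := fun σ => Good t A σ ∧ ¬ Good t (insert z A) σ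
  let Q : Fin N → (V → Sph N) → Prop := fun j σ => Good t A σ ∧ t < |co (σ z) j|
  let R : (V → Sph N) → Prop := fun σ =>
    Good t A σ ∧ (∀ k, k ≠ 0 → |co (σ z) k| ≤ t) ∧ co (σ z) 0 ≤ 0
  have hco : ∀ j, Continuous fun σ : V → Sph N => co (σ z) j := fun j =>
    (continuous_co j).comp (continuous_apply z)
  have hPm : MeasurableSet {σ | P σ} :=
    (measurableSet_good t A).inter (measurableSet_good t (insert z A)).compl
  have hQm : ∀ j, MeasurableSet {σ | Q j σ} := fun j =>
    (measurableSet_good t A).inter (measurableSet_lt measurable_const (hco j).abs.measurable)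
  have hRm : MeasurableSet {σ | R σ} := by
    have h1 : MeasurableSet {σ : V → Sph N | ∀ k, k ≠ 0 → |co (σ z) k| ≤ t} := by
      have h2 : {σ : V → Sph N | ∀ k, k ≠ 0 → |co (σ z) k| ≤ t} =
          ⋂ k : Fin N, {σ : V → Sph N | k ≠ 0 → |co (σ z) k| ≤ t} := by
        ext σ; simp
      rw [h2]
      refine MeasurableSet.iInter fun k => ?_
      by_cases hk : k = 0
      · simp [hk]
      · simp only [ne_eq, hk, not_false_eq_true, forall_const]
        exact measurableSet_le (hco k).abs.measurable measurable_const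
    exact (measurableSet_good t A).inter
      (h1.inter (measurableSet_le (hco 0).measurable measurable_const))
  -- pointwise bound
  have hpt : ∀ σ : V → Sph N, (if P σ then (1 : ℝ) else 0) * wt G β σ ≤
      (∑ j ∈ Finset.univ.erase (0 : Fin N), (if Q j σ then 1 else 0) * wt G β σ) +
        (if R σ then 1 else 0) * wt G β σ := by
    intro σ
    have hs : ∀ j, 0 ≤ (if Q j σ then (1 : ℝ) else 0) * wt G β σ := fun j =>
      mul_nonneg (by split_ifs <;> norm_num) (hwt σ)
    have hs' : 0 ≤ (if R σ then (1 : ℝ) else 0) * wt G β σ :=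
      mul_nonneg (by split_ifs <;> norm_num) (hwt σ)
    by_cases hP : P σ
    · rw [if_pos hP, one_mul]
      obtain ⟨hg, hng⟩ := hP
      by_cases hex : ∃ j, j ≠ 0 ∧ t < |co (σ z) j|
      · obtain ⟨j, hj, hlt⟩ := hex
        have h1 : wt G β σ ≤ ∑ j ∈ Finset.univ.erase (0 : Fin N),
            (if Q j σ then 1 else 0) * wt G β σ := by
          refine le_trans (le_of_eq ?_) (Finset.single_le_sum (fun j _ => hs j)
            (Finset.mem_erase.2 ⟨hj, Finset.mem_univ j⟩))
          rw [if_pos ⟨hg, hlt⟩, one_mul]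
        linarith
      · push Not at hex
        have h0 : co (σ z) 0 ≤ 0 := by
          by_contra hcon
          push Not at hcon
          apply hng
          intro b hb
          rcases Finset.mem_insert.1 hb with h | h
          · rw [h]; exact ⟨hcon, hex⟩
          · exact hg b h
        have h1 : 0 ≤ ∑ j ∈ Finset.univ.erase (0 : Fin N),
            (if Q j σ then 1 else 0) * wt G β σ := Finset.sum_nonneg fun j _ => hs j
        rw [if_pos ⟨hg, hex, h0⟩, one_mul]
        linarith
    · rw [if_neg hP, zero_mul]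
      exact add_nonneg (Finset.sum_nonneg fun j _ => hs j) hs'
  have hI1 : Integrable (fun σ : V → Sph N => ∑ j ∈ Finset.univ.erase (0 : Fin N),
      (if Q j σ then 1 else 0) * wt G β σ) μ :=
    integrable_finsetSum (Finset.univ.erase (0 : Fin N)) fun j _ => O9a_int G β y (Q j) (hQm j)
  have hI2 : Integrable (fun σ : V → Sph N => (∑ j ∈ Finset.univ.erase (0 : Fin N),
      (if Q j σ then 1 else 0) * wt G β σ) + (if R σ then 1 else 0) * wt G β σ) μ :=
    hI1.add (O9a_int G β y R hRm)
  have hint := integral_mono (μ := μ) (O9a_int G β y P hPm) hI2 hpt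
  rw [integral_add hI1 (O9a_int G β y R hRm),
    integral_finsetSum _ fun j _ => O9a_int G β y (Q j) (hQm j)] at hint
  refine hint.trans ?_
  have hE : ∀ j ∈ Finset.univ.erase (0 : Fin N),
      ∫ σ, (if Q j σ then 1 else 0) * wt G β σ ∂μ ≤
        2 * Real.exp (-(t ^ 3 * β / (36 * R0))) * Z := by
    intro j hj
    exact exit_comp j (Finset.ne_of_mem_erase hj) G t β R0 ht0 ht ht1 hβ hR0 hβR A y z hy hz hA hf
  have hj1 : (⟨1, by omega⟩ : Fin N) ≠ 0 := by
    intro h
    have := congrArg Fin.val h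
    simp at this
  have hS := exit_sign (N := N) ⟨1, by omega⟩ hj1 G t β ht0 ht ht1 hβ A y z a ha haz
  have hexp : Real.exp (-β) ≤ Real.exp (-(t ^ 3 * β / (36 * R0))) := by
    apply Real.exp_le_exp.2
    apply neg_le_neg
    rw [div_le_iff₀ (by positivity)]
    have h3 : t ^ 3 ≤ 1 := pow_le_one₀ ht0.le (by linarith)
    nlinarith [mul_le_mul_of_nonneg_right h3 hβ.le]
  have hsum := Finset.sum_le_sum hE
  rw [Finset.sum_const, Finset.card_erase_of_mem (Finset.mem_univ _), Finset.card_univ,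
    Fintype.card_fin, nsmul_eq_mul, Nat.cast_sub (by omega), Nat.cast_one] at hsum
  have hS' : ∫ σ, (if R σ then 1 else 0) * wt G β σ ∂μ ≤
      Real.exp (-(t ^ 3 * β / (36 * R0))) * Z :=
    le_trans hS (mul_le_mul_of_nonneg_right hexp hZ0)
  have hEZ : 0 ≤ Real.exp (-(t ^ 3 * β / (36 * R0))) * Z := mul_nonneg (Real.exp_pos _).le hZ0
  calc _ ≤ ((N : ℝ) - 1) * (2 * Real.exp (-(t ^ 3 * β / (36 * R0))) * Z) +
        Real.exp (-(t ^ 3 * β / (36 * R0))) * Z := add_le_add hsum hS'
    _ ≤ _ := by nlinarith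

end Pool.Agent.LRO63
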