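import Pool.Agent.LRO63.O9a

open MeasureTheory ComplexConjugate
open scoped ComplexOrder ENNReal

namespace Pool.Agent.LRO63

open Pool.Agent.helper71.XY Pool.Agent.helper71.XY.Defs

attribute [local instance] fact2pi

variable {N : ℕ} [NeZero N] {V : Type} [Fintype V] [DecidableEq V]

private lemma O9b_good_mono {t : ℝ} {A B : Finset V} (h : A ⊆ B) {σ : V → Sph N}
    (hB : Good t B σ) : Good t A σ := fun a ha => hB a (h ha)

private lemma O9b_flow_mono {G : SimpleGraph V} {A B : Finset V} (h : A ⊆ B) {z y : V} {R : ℝ}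
    {f : V → V → ℝ} (hf : UFlow G A z y R f) : UFlow G B z y R f :=
  ⟨hf.anti, fun u v huv => ⟨(hf.supp u v huv).1, h (hf.supp u v huv).2.1,
    h (hf.supp u v huv).2.2⟩, hf.div, hf.en⟩

private lemma O9b_flow_zero {G : SimpleGraph V} {A : Finset V} {y : V} {R : ℝ} (hR : 0 ≤ R) :
    UFlow G A y y R (fun _ _ => 0) :=
  ⟨fun u v => by simp, fun u v h => absurd rfl h, fun u => by simp, by simpa using hR⟩

private lemma O9b_int (G : SimpleGraph V) [DecidableRel G.Adj] (β : ℝ) (y : V)
    (s : Set (V → Sph N)) (hs : MeasurableSet s) :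
    Integrable (s.indicator (wt (N := N) G β)) (Measure.pi (pinS (N := N) y)) := by
  apply Integrable.indicator _ hs
  have hc := continuous_wt (N := N) G β
  obtain ⟨C, hC⟩ := (isCompact_univ (X := V → Sph N)).exists_bound_of_continuousOn
    hc.continuousOn
  exact Integrable.of_bound hc.aestronglyMeasurable C
    (Filter.Eventually.of_forall fun σ => hC σ (Set.mem_univ _))

private lemma O9b_ind (G : SimpleGraph V) [DecidableRel G.Adj] (β : ℝ) (p : (V → Sph N) → Prop)
    [DecidablePred p] :
    (fun σ => (if p σ then 0 else 1) * wt (N := N) G β σ)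
      = {σ | ¬ p σ}.indicator (wt (N := N) G β) := by
  funext σ
  by_cases h : p σ
  · simp [Set.indicator, h]
  · simp [Set.indicator, h]

private lemma O9b_good_y (t : ℝ) (ht : 0 < t) (y : V) :
    ∀ᵐ σ ∂(Measure.pi (pinS (N := N) y)), Good t {y} σ := by
  filter_upwards [pin_ae (N := N) y] with σ hσ
  intro a ha
  rw [Finset.mem_singleton] at ha
  subst ha
  rw [hσ]
  refine ⟨by rw [co_e0]; simp, fun k hk => ?_⟩
  rw [co_e0, if_neg hk, abs_zero]
  exact ht.le

open Classical in
/-- the union bound -/
theorem bad_le (hN : 2 ≤ N) (G : SimpleGraph V) [DecidableRel G.Adj]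
    (t β R0 : ℝ) (ht0 : 0 < t) (ht : (N : ℝ) * t ^ 2 ≤ 1 / 4) (ht1 : t ≤ 1 / 2) (hβ : 0 < β)
    (hR0 : 1 ≤ R0) (hβR : 24 * R0 ≤ t * β) (S : Finset V) (y : V) (v : ℕ → V) (n : ℕ)
    (hn : 1 ≤ n) (hv0 : v 0 = y) (hcov : ∀ w ∈ S, ∃ i, i < n ∧ v i = w)
    (hfl : ∀ i, 0 < i → i < n → v i ∉ (Finset.range i).image v ∧
        ∃ f : V → V → ℝ, UFlow G ((Finset.range (i + 1)).image v) (v i) y R0 f) :
    ∫ σ, (if Good t S σ then 0 else 1) * wt G β σ ∂(Measure.pi (pinS (N := N) y))
      ≤ n * (2 * N * Real.exp (-(t ^ 3 * β / (36 * R0)))) *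
        ∫ σ, wt G β σ ∂(Measure.pi (pinS (N := N) y)) := by
  set C : ℝ := 2 * N * Real.exp (-(t ^ 3 * β / (36 * R0))) with hC
  set Z : ℝ := ∫ σ, wt G β σ ∂(Measure.pi (pinS (N := N) y)) with hZ
  have hC0 : 0 ≤ C := by positivity
  have hZ0 : 0 < Z := wt_pos_int G (by omega) β y
  have key : ∀ i : ℕ, i < n →
      ∫ σ, (if Good t ((Finset.range (i + 1)).image v) σ then 0 else 1) * wt G β σ
        ∂(Measure.pi (pinS (N := N) y)) ≤ i * C * Z := by
    intro i
    induction i with
    | zero =>
      intro _
      have h0 : (Finset.range (0 + 1)).image v = {y} := by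
        rw [zero_add, Finset.range_one, Finset.image_singleton, hv0]
      rw [h0]
      have h1 : (fun σ => (if Good t {y} σ then 0 else 1) * wt (N := N) G β σ)
          =ᵐ[Measure.pi (pinS (N := N) y)] fun _ => (0 : ℝ) := by
        filter_upwards [O9b_good_y (N := N) t ht0 y] with σ hσ
        rw [if_pos hσ, zero_mul]
      rw [integral_congr_ae h1]
      simp
    | succ i ih =>
      intro hi
      have ih' := ih (by omega)
      obtain ⟨hz, hf⟩ := hfl (i + 1) (by omega) hi
      set A := (Finset.range (i + 1)).image v with hA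
      have hins : (Finset.range (i + 1 + 1)).image v = insert (v (i + 1)) A := by
        rw [Finset.range_add_one (n := i + 1), Finset.image_insert]
      rw [hins] at hf ⊢
      have hyA : y ∈ A := by
        rw [hA, Finset.mem_image]
        exact ⟨0, Finset.mem_range.2 (by omega), hv0⟩
      have hfA : ∀ a ∈ A, ∃ f : V → V → ℝ, UFlow G A a y R0 f := by
        intro a ha
        rw [hA, Finset.mem_image] at ha
        obtain ⟨k, hk, rfl⟩ := ha
        rw [Finset.mem_range] at hk
        rcases Nat.eq_zero_or_pos k with rfl | hk0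
        · rw [hv0]
          exact ⟨_, O9b_flow_zero (by linarith)⟩
        · obtain ⟨_, f, hf'⟩ := hfl k hk0 (by omega)
          refine ⟨f, O9b_flow_mono ?_ hf'⟩
          rw [hA]
          exact Finset.image_subset_image (Finset.range_subset_range.2 (by omega))
      have hstep := exit_step hN G t β R0 ht0 ht ht1 hβ hR0 hβR A y (v (i + 1)) hyA hz hfA hf
      have hsplit : (fun σ => (if Good t (insert (v (i + 1)) A) σ then 0 else 1)
            * wt (N := N) G β σ)
          = fun σ => (if Good t A σ then 0 else 1) * wt (N := N) G β σ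
            + (if Good t A σ ∧ ¬ Good t (insert (v (i + 1)) A) σ then 1 else 0)
              * wt (N := N) G β σ := by
        funext σ
        by_cases h1 : Good t (insert (v (i + 1)) A) σ
        · have h2 : Good t A σ := O9b_good_mono (Finset.subset_insert _ _) h1
          simp [h1, h2]
        · by_cases h2 : Good t A σ
          · simp [h1, h2]
          · simp [h1, h2]
      rw [hsplit, integral_add]
      · push_cast
        have : ((i : ℝ) + 1) * C * Z = i * C * Z + C * Z := by ring
        rw [this]
        exact add_le_add ih' hstep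
      · rw [O9b_ind]
        exact O9b_int G β y _ (measurableSet_good t A).compl
      · have hind : (fun σ => (if Good t A σ ∧ ¬ Good t (insert (v (i + 1)) A) σ then 1 else 0)
              * wt (N := N) G β σ)
            = {σ | Good t A σ ∧ ¬ Good t (insert (v (i + 1)) A) σ}.indicator
              (wt (N := N) G β) := by
          funext σ
          by_cases h : Good t A σ ∧ ¬ Good t (insert (v (i + 1)) A) σ
          · rw [if_pos h, one_mul, Set.indicator_of_mem (by exact h)]
          · rw [if_neg h, zero_mul, Set.indicator_of_notMem (by exact h)]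
        rw [hind]
        exact O9b_int G β y _ ((measurableSet_good t A).inter
          (measurableSet_good t (insert (v (i + 1)) A)).compl)
  have hlast := key (n - 1) (by omega)
  have hle : ∫ σ, (if Good t S σ then 0 else 1) * wt G β σ ∂(Measure.pi (pinS (N := N) y))
      ≤ ∫ σ, (if Good t ((Finset.range (n - 1 + 1)).image v) σ then 0 else 1) * wt G β σ
        ∂(Measure.pi (pinS (N := N) y)) := by
    apply integral_mono
    · rw [O9b_ind]
      exact O9b_int G β y _ (measurableSet_good t S).compl
    · rw [O9b_ind]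
      exact O9b_int G β y _ (measurableSet_good t _).compl
    · intro σ
      have hw : 0 ≤ wt (N := N) G β σ := (Real.exp_pos _).le
      apply mul_le_mul_of_nonneg_right _ hw
      by_cases h1 : Good t ((Finset.range (n - 1 + 1)).image v) σ
      · have h2 : Good t S σ := by
          refine O9b_good_mono ?_ h1
          intro w hw'
          obtain ⟨i, hi, rfl⟩ := hcov w hw'
          exact Finset.mem_image.2 ⟨i, Finset.mem_range.2 (by omega), rfl⟩
        simp [h1, h2]
      · rw [if_neg h1]
        split_ifs <;> norm_num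
  refine hle.trans (hlast.trans ?_)
  have hn' : ((n - 1 : ℕ) : ℝ) ≤ n := by
    exact_mod_cast Nat.sub_le n 1
  have := mul_le_mul_of_nonneg_right (mul_le_mul_of_nonneg_right hn' hC0) hZ0.le
  exact this

end Pool.Agent.LRO63
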