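import Pool.Agent.helper71.XY.Pin

/-!
# The exponential inequality (finite twist, Jensen in the second copy)
-/

open MeasureTheory ComplexConjugate
open scoped ComplexOrder ENNReal

namespace Pool.Agent.LRO63

open Pool.Agent.helper71.XY

attribute [local instance] fact2pi

variable {V : Type} [Fintype V] [DecidableEq V]

private lemma X2_U_le (ω : V → T × T) (x j : V) : U ω x j ≤ 2 := by
  unfold U
  linarith [re_le_one (ω x).1 (ω j).1, re_le_one (ω x).2 (ω j).2]

private lemma X2_D (ω : V → T × T) (x j : V) :
    D ω x j = (PR (sq x) (cp j) ω + PR (cp x) (sq j) ω)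
      - (PR (sq j) (cp x) ω + PR (cp j) (sq x) ω) := by
  simp only [D, PR, Pool.Agent.helper71.XY.sq, cp, Complex.mul_im]
  ring

/-- raw form: `s` are the sines of the twist angles -/
theorem expo_raw (K : V → V → ℝ) (hK : ∀ x j, 0 ≤ K x j) (y : V) (s : V → V → ℝ)
    (hs : ∀ x j, |s x j| ≤ 1) :
    II (pinM y) K (fun θ => Real.exp ((1 / 2) * ∑ x, ∑ j, K x j * s x j *
        (sq x θ * mn (pinM y) K j - sq j θ * mn (pinM y) K x)))
      ≤ Real.exp (∑ x, ∑ j, K x j * s x j ^ 2) * II (pinM y) K (fun _ => 1) := by
  have hμ : ∀ x, Nice (pinM y x) := nice_pinM y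
  have cs := continuous_sq (V := V)
  have cc := continuous_cp (V := V)
  set Z := II (pinM y) K (fun _ => 1) with hZ
  have hZ0 : 0 < Z := II_pos _ _
  set m : V → ℝ := fun x => mn (pinM y) K x with hm
  have hcpI : ∀ x, II (pinM y) K (cp x) = m x * Z := by
    intro x
    simp only [hm, mn]
    rw [div_mul_cancel₀ _ hZ0.ne']
  set b : (V → T) → ℝ := fun θ => (1 / 2) * ∑ x, ∑ j, K x j * s x j *
        (sq x θ * m j - sq j θ * m x) with hb
  have hbc : Continuous b := by
    simp only [hb]
    fun_prop
  set F : (V → T × T) → ℝ := fun ω => (1 / 2) * ∑ x, ∑ j, K x j * s x j * D ω x j with hF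
  have hDc := continuous_D (V := V)
  have hFc : Continuous F := by
    simp only [hF]
    fun_prop
  -- the twist
  have h1 : E2 (pinM y) K (fun ω => Real.exp (F ω))
      ≤ Real.exp (∑ x, ∑ j, K x j * s x j ^ 2) * Z ^ 2 := by
    set A : V → V → ℝ := fun x j => - Real.arcsin (s x j) with hA
    have hsin : ∀ x j, Real.sin (A x j) = - s x j := by
      intro x j
      have := abs_le.1 (hs x j)
      simp only [hA, Real.sin_neg]
      rw [Real.sin_arcsin this.1 this.2]
    have hcos : ∀ x j, 1 - s x j ^ 2 ≤ Real.cos (A x j) ∧ Real.cos (A x j) ≤ 1 := by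
      intro x j
      refine ⟨?_, Real.cos_le_one _⟩
      simp only [hA, Real.cos_neg, Real.cos_arcsin]
      have h0 : 0 ≤ 1 - s x j ^ 2 := by
        have := abs_le.1 (hs x j)
        nlinarith
      have h1' : 1 - s x j ^ 2 ≤ 1 := by nlinarith [sq_nonneg (s x j)]
      calc 1 - s x j ^ 2 = Real.sqrt ((1 - s x j ^ 2) ^ 2) := (Real.sqrt_sq h0).symm
        _ ≤ Real.sqrt (1 - s x j ^ 2) := Real.sqrt_le_sqrt (by nlinarith)
    have hpt : ∀ ω : V → T × T, T0 K ω + F ω ≤ (∑ x, ∑ j, K x j * s x j ^ 2) + TA K A ω := by
      intro ω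
      unfold T0 TA
      simp only [hF, Real.cos_zero, Real.sin_zero, hsin]
      rw [← mul_add, ← Finset.sum_add_distrib]
      have : (∑ x, ∑ j, K x j * s x j ^ 2) = (1 / 2) * ∑ x, ∑ j, 2 * (K x j * s x j ^ 2) := by
        simp only [← Finset.mul_sum]
        ring
      rw [this, ← mul_add, ← Finset.sum_add_distrib]
      apply mul_le_mul_of_nonneg_left _ (by norm_num)
      apply Finset.sum_le_sum
      intro x _
      rw [← Finset.sum_add_distrib, ← Finset.sum_add_distrib]
      apply Finset.sum_le_sum
      intro j _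
      have hU := X2_U_le ω x j
      have hc := hcos x j
      have hKx := hK x j
      have h5 : (1 - Real.cos (A x j)) * U ω x j ≤ 2 * s x j ^ 2 := by
        have h6 : (1 - Real.cos (A x j)) * U ω x j ≤ (1 - Real.cos (A x j)) * 2 :=
          mul_le_mul_of_nonneg_left hU (by linarith [hc.2])
        linarith [hc.1]
      have h7 := mul_le_mul_of_nonneg_left h5 hKx
      nlinarith
    have h2 := twist_le (pinM y) hμ K A hK
    have h3 : E2 (pinM y) K (fun ω => Real.exp (F ω))
        ≤ Real.exp (∑ x, ∑ j, K x j * s x j ^ 2) * ∫ ω, Real.exp (TA K A ω) ∂(P2 (pinM y)) := by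
      unfold E2
      rw [← integral_const_mul]
      apply integral_mono
      · exact E2_integrable (pinM y) K (Real.continuous_exp.comp hFc)
      · apply Integrable.const_mul
        exact integrable_of_continuous _ (Real.continuous_exp.comp (continuous_TA K A))
      · intro ω
        simp only
        rw [← Real.exp_add, ← Real.exp_add]
        exact Real.exp_le_exp.2 (hpt ω)
    have h4 : ∫ ω, Real.exp (T0 K ω) ∂(P2 (pinM y)) = Z ^ 2 := by
      have := E2_PR (pinM y) K (fun _ => 1) (fun _ => 1)
      unfold E2 PR at this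
      simp only [mul_one] at this
      rw [this, hZ]
      ring
    refine h3.trans ?_
    apply mul_le_mul_of_nonneg_left _ (Real.exp_pos _).le
    rw [← h4]
    exact h2
  -- Jensen in the second copy
  have hexpb : Continuous fun θ : V → T => Real.exp (b θ) := Real.continuous_exp.comp hbc
  have hp1b : Continuous fun ω : V → T × T => b (fun x => (ω x).1) := continuous_p1 hbc
  have h5 : E2 (pinM y) K (fun ω => Real.exp (b (fun x => (ω x).1)) *
      (1 + F ω - b (fun x => (ω x).1))) ≤ E2 (pinM y) K (fun ω => Real.exp (F ω)) := by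
    apply E2_mono (pinM y) K
    · exact (Real.continuous_exp.comp hp1b).mul ((continuous_const.add hFc).sub hp1b)
    · exact Real.continuous_exp.comp hFc
    · intro ω
      have h6 := Real.add_one_le_exp (F ω - b (fun x => (ω x).1))
      have h7 : Real.exp (F ω) = Real.exp (b (fun x => (ω x).1)) *
          Real.exp (F ω - b (fun x => (ω x).1)) := by
        rw [← Real.exp_add]; congr 1; ring
      rw [h7]
      apply mul_le_mul_of_nonneg_left _ (Real.exp_pos _).le
      linarith
  have h8 : E2 (pinM y) K (fun ω => Real.exp (b (fun x => (ω x).1)) *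
      (1 + F ω - b (fun x => (ω x).1)))
      = II (pinM y) K (fun θ => Real.exp (b θ)) * Z := by
    have e1 : (fun ω : V → T × T => Real.exp (b (fun x => (ω x).1)) *
        (1 + F ω - b (fun x => (ω x).1)))
        = fun ω => PR (fun θ => Real.exp (b θ)) (fun _ => 1) ω + (1 / 2) * ∑ x, ∑ j,
          K x j * s x j * (((PR (fun θ => Real.exp (b θ) * sq x θ) (cp j) ω
            + PR (fun θ => Real.exp (b θ) * cp x θ) (sq j) ω)
            - (PR (fun θ => Real.exp (b θ) * sq j θ) (cp x) ω
            + PR (fun θ => Real.exp (b θ) * cp j θ) (sq x) ω))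
            - (PR (fun θ => Real.exp (b θ) * (sq x θ * m j - sq j θ * m x)) (fun _ => 1) ω)) := by
      funext ω
      have e2 : Real.exp (b (fun x => (ω x).1)) * (1 + F ω - b (fun x => (ω x).1))
          = Real.exp (b (fun x => (ω x).1)) + (1 / 2) * ∑ x, ∑ j,
            Real.exp (b (fun x => (ω x).1)) * (K x j * s x j *
              (D ω x j - (sq x (fun x => (ω x).1) * m j - sq j (fun x => (ω x).1) * m x))) := by
        have e3 : F ω - b (fun x => (ω x).1) = (1 / 2) * ∑ x, ∑ j, (K x j * s x j *
              (D ω x j - (sq x (fun x => (ω x).1) * m j - sq j (fun x => (ω x).1) * m x))) := by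
          simp only [hF, hb, mul_sub, Finset.sum_sub_distrib]
        have e4 : (1 : ℝ) + F ω - b (fun x => (ω x).1) = 1 + (F ω - b (fun x => (ω x).1)) := by
          ring
        rw [e4, e3, mul_add, mul_one]
        congr 1
        simp only [← Finset.mul_sum]
        ring
      rw [e2]
      congr 1
      · simp [PR]
      · congr 1
        refine Finset.sum_congr rfl fun x _ => Finset.sum_congr rfl fun j _ => ?_
        rw [X2_D]
        simp only [PR]
        ring
    have hIs : ∀ x, II (pinM y) K (sq x) = 0 := II_sq (pinM y) hμ K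
    have key : ∀ x j, E2 (pinM y) K (fun ω => ((PR (fun θ => Real.exp (b θ) * sq x θ) (cp j) ω
            + PR (fun θ => Real.exp (b θ) * cp x θ) (sq j) ω)
            - (PR (fun θ => Real.exp (b θ) * sq j θ) (cp x) ω
            + PR (fun θ => Real.exp (b θ) * cp j θ) (sq x) ω))
            - (PR (fun θ => Real.exp (b θ) * (sq x θ * m j - sq j θ * m x)) (fun _ => 1) ω))
        = 0 := by
      intro x j
      have c1 := continuous_PR (f := fun θ => Real.exp (b θ) * sq x θ) (g := cp j)
        (hexpb.mul (cs x)) (cc j)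
      have c2 := continuous_PR (f := fun θ => Real.exp (b θ) * cp x θ) (g := sq j)
        (hexpb.mul (cc x)) (cs j)
      have c3 := continuous_PR (f := fun θ => Real.exp (b θ) * sq j θ) (g := cp x)
        (hexpb.mul (cs j)) (cc x)
      have c4 := continuous_PR (f := fun θ => Real.exp (b θ) * cp j θ) (g := sq x)
        (hexpb.mul (cc j)) (cs x)
      have c5 := continuous_PR (f := fun θ => Real.exp (b θ) * (sq x θ * m j - sq j θ * m x))
        (g := fun _ => 1) (hexpb.mul (((cs x).mul continuous_const).sub
          ((cs j).mul continuous_const))) continuous_const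
      rw [E2_sub (pinM y) K (fun ω => (PR (fun θ => Real.exp (b θ) * sq x θ) (cp j) ω
            + PR (fun θ => Real.exp (b θ) * cp x θ) (sq j) ω)
            - (PR (fun θ => Real.exp (b θ) * sq j θ) (cp x) ω
            + PR (fun θ => Real.exp (b θ) * cp j θ) (sq x) ω)) _
            ((c1.add c2).sub (c3.add c4)) c5,
        E2_sub (pinM y) K (fun ω => PR (fun θ => Real.exp (b θ) * sq x θ) (cp j) ω
            + PR (fun θ => Real.exp (b θ) * cp x θ) (sq j) ω)
          (fun ω => PR (fun θ => Real.exp (b θ) * sq j θ) (cp x) ω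
            + PR (fun θ => Real.exp (b θ) * cp j θ) (sq x) ω) (c1.add c2) (c3.add c4),
        E2_add _ _ _ _ c1 c2, E2_add _ _ _ _ c3 c4]
      simp only [E2_PR, hIs, hcpI, mul_zero, add_zero]
      have e5 : II (pinM y) K (fun θ => Real.exp (b θ) * (sq x θ * m j - sq j θ * m x))
          = m j * II (pinM y) K (fun θ => Real.exp (b θ) * sq x θ)
            + (- m x) * II (pinM y) K (fun θ => Real.exp (b θ) * sq j θ) := by
        rw [← II_const_mul, ← II_const_mul, ← II_add]
        · congr 1
          funext θ
          ring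
        · exact (hexpb.mul (cs x)).const_mul _
        · exact (hexpb.mul (cs j)).const_mul _
      rw [e5]
      ring
    have hterm : ∀ x j, Continuous fun ω : V → T × T =>
        ((PR (fun θ => Real.exp (b θ) * sq x θ) (cp j) ω
            + PR (fun θ => Real.exp (b θ) * cp x θ) (sq j) ω)
            - (PR (fun θ => Real.exp (b θ) * sq j θ) (cp x) ω
            + PR (fun θ => Real.exp (b θ) * cp j θ) (sq x) ω))
            - (PR (fun θ => Real.exp (b θ) * (sq x θ * m j - sq j θ * m x)) (fun _ => 1) ω) := by
      intro x j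
      exact (((continuous_PR (hexpb.mul (cs x)) (cc j)).add
        (continuous_PR (hexpb.mul (cc x)) (cs j))).sub
        ((continuous_PR (hexpb.mul (cs j)) (cc x)).add
        (continuous_PR (hexpb.mul (cc j)) (cs x)))).sub
        (continuous_PR (hexpb.mul (((cs x).mul continuous_const).sub
          ((cs j).mul continuous_const))) continuous_const)
    have hsumc : Continuous fun ω : V → T × T => (1 / 2 : ℝ) * ∑ x, ∑ j, K x j * s x j *
        (((PR (fun θ => Real.exp (b θ) * sq x θ) (cp j) ω
            + PR (fun θ => Real.exp (b θ) * cp x θ) (sq j) ω)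
            - (PR (fun θ => Real.exp (b θ) * sq j θ) (cp x) ω
            + PR (fun θ => Real.exp (b θ) * cp j θ) (sq x) ω))
            - (PR (fun θ => Real.exp (b θ) * (sq x θ * m j - sq j θ * m x)) (fun _ => 1) ω)) :=
      continuous_const.mul (continuous_finsetSum _ fun x _ => continuous_finsetSum _ fun j _ =>
        continuous_const.mul (hterm x j))
    rw [e1, E2_add (pinM y) K _ _ (continuous_PR hexpb continuous_const) hsumc, E2_PR,
      E2_const_mul, E2_sum (pinM y) K Finset.univ (fun x ω => ∑ j, K x j * s x j *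
        (((PR (fun θ => Real.exp (b θ) * sq x θ) (cp j) ω
            + PR (fun θ => Real.exp (b θ) * cp x θ) (sq j) ω)
            - (PR (fun θ => Real.exp (b θ) * sq j θ) (cp x) ω
            + PR (fun θ => Real.exp (b θ) * cp j θ) (sq x) ω))
            - (PR (fun θ => Real.exp (b θ) * (sq x θ * m j - sq j θ * m x)) (fun _ => 1) ω)))
        (fun x => continuous_finsetSum _ fun j _ => continuous_const.mul (hterm x j))]
    have : ∀ x, E2 (pinM y) K (fun ω => ∑ j, K x j * s x j *
        (((PR (fun θ => Real.exp (b θ) * sq x θ) (cp j) ω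
            + PR (fun θ => Real.exp (b θ) * cp x θ) (sq j) ω)
            - (PR (fun θ => Real.exp (b θ) * sq j θ) (cp x) ω
            + PR (fun θ => Real.exp (b θ) * cp j θ) (sq x) ω))
            - (PR (fun θ => Real.exp (b θ) * (sq x θ * m j - sq j θ * m x)) (fun _ => 1) ω)))
        = 0 := by
      intro x
      rw [E2_sum (pinM y) K Finset.univ (fun j ω => K x j * s x j *
        (((PR (fun θ => Real.exp (b θ) * sq x θ) (cp j) ω
            + PR (fun θ => Real.exp (b θ) * cp x θ) (sq j) ω)
            - (PR (fun θ => Real.exp (b θ) * sq j θ) (cp x) ω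
            + PR (fun θ => Real.exp (b θ) * cp j θ) (sq x) ω))
            - (PR (fun θ => Real.exp (b θ) * (sq x θ * m j - sq j θ * m x)) (fun _ => 1) ω)))
        (fun j => continuous_const.mul (hterm x j))]
      apply Finset.sum_eq_zero
      intro j _
      rw [E2_const_mul, key x j, mul_zero]
    rw [Finset.sum_eq_zero fun x _ => this x, mul_zero, add_zero]
  rw [h8] at h5
  have h9 : II (pinM y) K (fun θ => Real.exp (b θ)) * Z
      ≤ (Real.exp (∑ x, ∑ j, K x j * s x j ^ 2) * Z) * Z := by
    calc _ ≤ _ := h5.trans h1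
      _ = _ := by ring
  exact le_of_mul_le_mul_right h9 hZ0

end Pool.Agent.LRO63
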