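import Pool.Agent.LRO63.E0
import Pool.Agent.LRO63.X1
import Pool.Agent.LRO63.X2

open MeasureTheory ComplexConjugate
open scoped ComplexOrder ENNReal

namespace Pool.Agent.LRO63

open Pool.Agent.helper71.XY

attribute [local instance] fact2pi

variable {V : Type} [Fintype V] [DecidableEq V]

/-- summation by parts for an antisymmetric function -/
private theorem X3a_parts (f : V → V → ℝ) (anti : ∀ u v, f v u = - f u v) (y z : V)
    (hdiv : ∀ u, ∑ v, f u v = (if u = z then 1 else 0) - (if u = y then 1 else 0))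
    (g : V → ℝ) : ∑ x, ∑ j, f x j * (g x - g j) = 2 * (g z - g y) := by
  have h1 : ∑ x, ∑ j, f x j * g x = g z - g y := by
    have : ∀ x, ∑ j, f x j * g x =
        ((if x = z then 1 else 0) - (if x = y then 1 else 0)) * g x := by
      intro x
      rw [← Finset.sum_mul, hdiv]
    rw [Finset.sum_congr rfl fun x _ => this x]
    simp [sub_mul, Finset.sum_sub_distrib]
  have h2 : ∑ x, ∑ j, f x j * g j = -(g z - g y) := by
    rw [Finset.sum_comm, ← h1, ← Finset.sum_neg_distrib]
    refine Finset.sum_congr rfl fun x _ => ?_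
    rw [← Finset.sum_neg_distrib]
    refine Finset.sum_congr rfl fun j _ => ?_
    rw [anti x j]
    ring
  simp only [mul_sub, Finset.sum_sub_distrib]
  rw [h1, h2]
  ring

theorem expo (K : V → V → ℝ) (hK : ∀ x j, 0 ≤ K x j) (y z : V) (S : Finset V)
    (f : V → V → ℝ) (anti : ∀ u v, f v u = - f u v)
    (hdiv : ∀ u, ∑ v, f u v = (if u = z then 1 else 0) - (if u = y then 1 else 0))
    (hsupp : ∀ u v, f u v ≠ 0 → 0 < K u v ∧ u ∈ S ∧ v ∈ S)
    (hm : ∀ x ∈ S, 2 / 3 ≤ mn (pinM y) K x ^ 2 ∧ 0 < mn (pinM y) K x)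
    (hz : z ∈ S) (lam R : ℝ)
    (hen : (1 / 2) * ∑ u, ∑ v, f u v ^ 2 / K u v ≤ R)
    (hl : ∀ u v, f u v ≠ 0 → |lam| * |f u v| * (3 / 2) ≤ K u v) :
    II (pinM y) K (fun θ => Real.exp (lam * (sq z θ / mn (pinM y) K z)))
      ≤ Real.exp (9 / 2 * lam ^ 2 * R) * II (pinM y) K (fun _ => 1) := by
  set m : V → ℝ := mn (pinM y) K with hmdef
  -- products of magnetisations on the support
  have hmm : ∀ u v, f u v ≠ 0 → 2 / 3 ≤ m u * m v ∧ 0 < m u ∧ 0 < m v := by
    intro u v h
    obtain ⟨_, hu, hv⟩ := hsupp u v h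
    obtain ⟨hu1, hu2⟩ := hm u hu
    obtain ⟨hv1, hv2⟩ := hm v hv
    refine ⟨?_, hu2, hv2⟩
    have h1 : (2 / 3) ^ 2 ≤ (m u * m v) ^ 2 := by
      rw [mul_pow]
      have : (0:ℝ) ≤ 2 / 3 := by norm_num
      nlinarith [mul_le_mul hu1 hv1 this (sq_nonneg (m u))]
    exact le_of_sq_le_sq h1 (mul_pos hu2 hv2).le
  set s : V → V → ℝ := fun u v => lam * f u v / (K u v * (m u * m v)) with hs
  have hs1 : ∀ u v, |s u v| ≤ 1 := by
    intro u v
    by_cases h : f u v = 0
    · simp [hs, h]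
    · obtain ⟨h1, h2, h3⟩ := hmm u v h
      obtain ⟨hK0, _, _⟩ := hsupp u v h
      have hpos : 0 < K u v * (m u * m v) := mul_pos hK0 (mul_pos h2 h3)
      rw [hs]
      simp only
      rw [abs_div, abs_of_pos hpos, div_le_one hpos, abs_mul]
      have h4 := hl u v h
      have h5 : |lam| * |f u v| ≤ K u v * (2 / 3) := by linarith
      exact h5.trans (mul_le_mul_of_nonneg_left h1 hK0.le)
  have hmain := expo_raw K hK y s hs1
  -- the left side
  have hleft : ∀ θ : V → T, (1 / 2) * ∑ x, ∑ j, K x j * s x j *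
      (sq x θ * mn (pinM y) K j - sq j θ * mn (pinM y) K x) =
      lam * (sq z θ / m z - sq y θ / m y) := by
    intro θ
    have h1 : ∀ x j, K x j * s x j * (sq x θ * m j - sq j θ * m x) =
        lam * (f x j * (sq x θ / m x - sq j θ / m j)) := by
      intro x j
      by_cases h : f x j = 0
      · simp [hs, h]
      · obtain ⟨h1, h2, h3⟩ := hmm x j h
        obtain ⟨hK0, _, _⟩ := hsupp x j h
        rw [hs]
        simp only
        field_simp
    have h2 : ∑ x, ∑ j, K x j * s x j * (sq x θ * m j - sq j θ * m x) =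
        lam * (2 * (sq z θ / m z - sq y θ / m y)) := by
      rw [← X3a_parts f anti y z hdiv (fun x => sq x θ / m x), Finset.mul_sum]
      refine Finset.sum_congr rfl fun x _ => ?_
      rw [Finset.mul_sum]
      exact Finset.sum_congr rfl fun j _ => h1 x j
    rw [← hmdef, h2]
    ring
  have hint : II (pinM y) K (fun θ => Real.exp (lam * (sq z θ / m z))) =
      II (pinM y) K (fun θ => Real.exp ((1 / 2) * ∑ x, ∑ j, K x j * s x j *
        (sq x θ * mn (pinM y) K j - sq j θ * mn (pinM y) K x))) := by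
    refine II_congr_pin (pinM y) y (pinM_self y) K _ _ ?_
    intro θ hθ
    rw [hleft]
    have : Pool.Agent.helper71.XY.sq y θ = 0 := by
      simp [Pool.Agent.helper71.XY.sq, hθ]
    rw [this]
    simp
  rw [hint]
  refine hmain.trans (mul_le_mul_of_nonneg_right ?_ (II_pos (pinM y) K).le)
  rw [Real.exp_le_exp]
  have hterm : ∀ x j, K x j * s x j ^ 2 ≤ 9 / 4 * lam ^ 2 * (f x j ^ 2 / K x j) := by
    intro x j
    by_cases h : f x j = 0
    · simp [hs, h]
    · obtain ⟨h1, h2, h3⟩ := hmm x j h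
      obtain ⟨hK0, _, _⟩ := hsupp x j h
      have e1 : K x j * s x j ^ 2 = (lam ^ 2 * (f x j ^ 2 / K x j)) * (1 / (m x * m j) ^ 2) := by
        rw [hs]
        simp only
        field_simp
      rw [e1]
      have h4 : 1 / (m x * m j) ^ 2 ≤ 9 / 4 := by
        rw [div_le_iff₀ (by positivity)]
        nlinarith
      have h5 : 0 ≤ lam ^ 2 * (f x j ^ 2 / K x j) := by positivity
      nlinarith [mul_le_mul_of_nonneg_left h4 h5]
  calc ∑ x, ∑ j, K x j * s x j ^ 2
      ≤ ∑ x, ∑ j, 9 / 4 * lam ^ 2 * (f x j ^ 2 / K x j) :=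
        Finset.sum_le_sum fun x _ => Finset.sum_le_sum fun j _ => hterm x j
    _ = 9 / 2 * lam ^ 2 * ((1 / 2) * ∑ x, ∑ j, f x j ^ 2 / K x j) := by
        simp only [← Finset.mul_sum]
        ring
    _ ≤ 9 / 2 * lam ^ 2 * R := mul_le_mul_of_nonneg_left hen (by positivity)

end Pool.Agent.LRO63
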